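import Pool.Agent.H12.TT.B1t

/-!
# TC: the heights over the own sheets are not full, entropies

`nf_tc`: the height `hv` of the group over the own sheet is not full, given the data of the line
and the abstract time. `b1_tc`: given the abstract time.
-/

set_option autoImplicit false

namespace Pool.TC12

open Finset Real
open Pool.Agent.H49.Ent Pool.Agent.H32.Dense Pool.STK Pool.STAT Pool.MIC Pool.TC
open Pool.P4 (t0 rt bb ze z0 cl1 dg dgp Ry cb err)
open Pool.P4N (cl1_eq cl1_bd fl_sub fl_eq dg_bd dg_eq dgp_eq rt_bd rt_T few_ev CH_one_low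
  nd_div sh_bd Ry_one log_4X)
open Pool.TT5 (CH_pfam)
open Pool.BFL (Pb)

/-- **The target is not full**, given the base, the closed context and the exact time. -/
theorem nd_ctx {D : NDat2} {n K J a₀ w₀ z M : ℕ} {lam gam : ℕ → ℝ} {κ C₁ : ℝ} {q : D.Ω → ℝ}
    (hO : D.Ok2 n K J a₀ w₀ z M lam gam κ C₁ q) {B : ℕ} {h ϖ : ℝ}
    (hNF : D.NF n z M B gam h C₁ ϖ q) (hϖ : ϖ ≤ 1) (hn : 1 ≤ n) (hB : 1 ≤ B) {i j U X : ℕ}
    (hX : X = B * U * z) (hi : i ≤ M) (hj : j ≤ M) (hU : i + U ≤ M)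
    (hU' : (U : ℝ) ≤ gam n * (M - j)) {T : Type} (W : D.Ω → T)
    (hW : ∀ ω ω', 0 < q ω → 0 < q ω' → W ω = W ω' →
      D.c i j ω = D.c i j ω' ∧ D.T ω = D.T ω') :
    CH q (D.nd n i j X) (fun ω => (D.vd n i j X ω, W ω)) ≤
      (1 - h / B) * X * Real.log 2 + (C₁ * z + 2) := by
  classical
  have hp := hO.isLaw
  have h0 := hp.nonneg
  have hUX : U * z ≤ X := by
    rw [hX]
    calc U * z = 1 * (U * z) := (one_mul _).symm
      _ ≤ B * (U * z) := Nat.mul_le_mul_right _ hB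
      _ = B * U * z := (mul_assoc _ _ _).symm
  have a3 : CH q (D.nd n i j X) (fun ω => (D.vd n i j X ω, W ω)) ≤
      CH q (D.nd n i j X) (fun ω => (D.vd n i j X ω, (D.s i j ω, D.T ω))) := by
    refine CH_mono_cond h0 ?_
    intro ω ω' g1 g2 e
    simp only [Prod.mk.injEq] at e ⊢
    obtain ⟨e1, e2⟩ := e
    obtain ⟨d1, d2⟩ := hW ω ω' g1 g2 e2
    exact ⟨e1, hO.s_c i hi j hj ω ω' g1 g2 (Prod.ext d1 d2), d2⟩
  have a4 := CH_le_add h0 (D.nd n i j X) (D.nd n i j (U * z))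
    (fun ω => (D.vd n i j X ω, (D.s i j ω, D.T ω)))
  have a5 : CH q (D.nd n i j X) (fun ω => (D.nd n i j (U * z) ω,
      (D.vd n i j X ω, (D.s i j ω, D.T ω)))) ≤ ((X - U * z : ℕ) : ℝ) * Real.log 2 := by
    have e1 := CH_one_low hp (D.nd n i j X) (X - U * z)
      (fun ω => (D.vd n i j X ω, (D.s i j ω, D.T ω)))
    have e2 : (fun ω => (D.nd n i j X ω / 2 ^ (X - U * z),
        (D.vd n i j X ω, (D.s i j ω, D.T ω)))) = (fun ω => (D.nd n i j (U * z) ω,
        (D.vd n i j X ω, (D.s i j ω, D.T ω)))) := by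
      funext ω
      have e3 := nd_div D n i j (U * z) (X - U * z) ω
      rw [Nat.add_sub_cancel' hUX] at e3
      rw [e3]
    rw [e2] at e1
    exact e1
  have a6 := CH_le_add h0 (D.nd n i j (U * z)) (D.nd n i j 0)
    (fun ω => (D.vd n i j X ω, (D.s i j ω, D.T ω)))
  have a7 : CH q (D.nd n i j (U * z)) (fun ω => (D.nd n i j 0 ω,
      (D.vd n i j X ω, (D.s i j ω, D.T ω)))) ≤ (1 - h) * (U * z) * Real.log 2 + C₁ * z := by
    have e1 := hNF i hi j hj 0 U (by omega) (by push_cast; linarith) (fun _ => True) (by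
      have : Pb q (fun _ : D.Ω => True) = 1 := by
        unfold Pb
        simp only [if_true]
        exact hp.sum_one
      rw [this]
      exact hϖ)
    rw [Pool.P4N.cond_true hp] at e1
    simp only [zero_add, zero_mul] at e1
    have e2 : B * (U * z) = X := by rw [hX, mul_assoc]
    rw [e2] at e1
    exact e1
  have a8 : CH q (D.nd n i j 0) (fun ω => (D.vd n i j X ω, (D.s i j ω, D.T ω))) ≤ 2 := by
    have e1 := CH_le_card h0 hp.sum_one (D.nd n i j 0)
      (fun ω => (D.vd n i j X ω, (D.s i j ω, D.T ω))) (fun _ => Finset.Icc (-1 : ℤ) 1)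
      (fun ω hω => by
        have e2 := sh_bd (hO.pos i hi j hj ω hω n hn le_rfl) 0
        unfold NDat2.nd
        rw [pow_zero] at e2
        have e3 := abs_le.1 e2
        rw [Finset.mem_Icc]
        constructor
        · exact_mod_cast e3.1
        · exact_mod_cast e3.2)
    refine e1.trans ?_
    rw [Ex_const hp.sum_one]
    have e4 : (Finset.Icc (-1 : ℤ) 1).card = 3 := by decide
    rw [e4]
    have e5 : Real.log ((3 : ℕ) : ℝ) ≤ Real.log (2 ^ 2) :=
      Real.log_le_log (by norm_num) (by norm_num)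
    rw [Real.log_pow] at e5
    have hl : Real.log 2 < 0.6931471808 := Real.log_two_lt_d9
    push_cast at e5 ⊢
    linarith
  have hsub : ((X - U * z : ℕ) : ℝ) = X - U * z := by
    rw [Nat.cast_sub hUX]
    push_cast
    ring
  rw [hsub] at a5
  have hBr : (1 : ℝ) ≤ B := by exact_mod_cast hB
  have hXr : (X : ℝ) = B * (U * z) := by
    rw [hX]
    push_cast
    ring
  have hmain : (1 - h) * (U * z) * Real.log 2 + ((X : ℝ) - U * z) * Real.log 2 =
      (1 - h / B) * (X : ℝ) * Real.log 2 := by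
    rw [hXr]
    field_simp
    ring
  linarith

/-- Logarithms. -/
theorem log_gen {C A t : ℝ} (hC : 0 ≤ C) (hA : 1 ≤ A) {z : ℕ} (ht : 0 < t)
    (h : t ≤ A * (Ry z C * (Ry z C * Ry z C))) : Real.log t ≤ Real.log A + 3 * (C * z) := by
  have hRy := Ry_one hC z
  have h1 := Real.log_le_log ht h
  have e2 : Real.log (Ry z C) = C * z := by
    unfold Ry
    exact Real.log_exp _
  rw [Real.log_mul (by positivity) (by positivity), Real.log_mul (by positivity) (by positivity),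
    Real.log_mul (by positivity) (by positivity), e2] at h1
  linarith

/-- **The heights of the group over the own sheets are not full**, given the slow coordinates and
the abstract time. -/
theorem nf_tc : ∀ (n d K K' c k0 k1 B : ℕ) (C₁ C : ℝ), 1 ≤ B → ∃ A : ℝ, 0 ≤ A ∧
    ∀ (D : NDat2) (J a₀ w₀ z M w i j r r2 r' r'' y a U : ℕ) (th : ℝ) (lam gam : ℕ → ℝ)
      (κ h ϖ : ℝ) (q : D.Ω → ℝ) (E : D.Ω → Prop) (P : D.Γ × D.Γ → ℕ → PN) (S : Slo D)
      (ys : Fin (k0 + k1) → ℕ) (gs : Fin c → ℕ),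
      Pool.TC.Hyp D n d K K' J a₀ w₀ z M w i j r r2 r' r'' y a (B * U * z) th lam gam κ C₁ C q E
        P S ys gs →
      D.NF n z M B gam h C₁ ϖ q → 0 ≤ h → ϖ ≤ 1 → i + U ≤ M → (U : ℝ) ≤ gam n * (M - j) →
      CH q (hv (c := c) (k0 := k0) (k1 := k1) D z i j r (B * U * z) C P S gs n th gam)
        (fun ω => (vv (c := c) (k0 := k0) (k1 := k1) D J w z i j r d (B * U * z) C P ys gs ω,
          tv (c := c) (k0 := k0) (k1 := k1) D J w z i j r (B * U * z) C S ys gs ω)) ≤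
        (c - h / B) * (B * U * z : ℕ) * Real.log 2 +
          err A κ z (B * U * z) (Pb q (fun ω => ¬ E ω)) := by
  classical
  intro n d K K' c k0 k1 B C₁ C hB
  obtain ⟨m, hm⟩ : ∃ m : ℕ, m = k0 + k1 + 1 := ⟨_, rfl⟩
  obtain ⟨A1, hA1⟩ : ∃ A1 : ℝ, A1 = Real.log (5 * m) := ⟨_, rfl⟩
  obtain ⟨A2, hA2⟩ : ∃ A2 : ℝ, A2 = Real.log (5 * cK k0 k1 d) := ⟨_, rfl⟩
  have hm1 : (1 : ℝ) ≤ m := by
    rw [hm]
    exact_mod_cast Nat.le_add_left 1 _
  have hc5 := cK_one k0 k1 d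
  have A10 : 0 ≤ A1 := by
    rw [hA1]
    exact Real.log_nonneg (by linarith)
  have A20 : 0 ≤ A2 := by
    rw [hA2]
    exact Real.log_nonneg (by linarith)
  refine ⟨c * A1 + (n * (A2 + 3 * |C| + 4) + (A2 + 3 * |C| + 1 + A1) + |C₁| + 4), by positivity, ?_⟩
  intro D J a₀ w₀ z M w i j r r2 r' r'' y a U th lam gam κ h ϖ q E P S ys gs H hNF hh hϖ hU hU'
  obtain ⟨X, hX⟩ : ∃ X, X = B * U * z := ⟨_, rfl⟩
  rw [← hX] at H ⊢
  have hp := H.ok.isLaw
  have h0 := hp.nonneg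
  have hC0 : 0 ≤ C := by linarith [H.Cg]
  have hRy := Ry_one hC0 z
  have hRg : Rg z C = 2 * (Ry z C * Ry z C) := Pool.P4N.Rg_eq z C
  have hz1 : (1 : ℝ) ≤ z := by exact_mod_cast H.z1
  have hl : Real.log 2 < 0.6931471808 := Real.log_two_lt_d9
  have hl0 : 0 < Real.log 2 := Real.log_pos (by norm_num)
  have hpX : (1 : ℝ) ≤ 2 ^ X := one_le_pow₀ (by norm_num)
  have hiM : i ≤ M := by have := H.i2; omega
  have hjM : j ≤ M := by have := H.j2; omega
  have hgn : gr th gam n n := ⟨H.n1, le_rfl, H.plc.stp.gn⟩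
  obtain ⟨n₀, hn₀⟩ := H.gs_on n hgn
  obtain ⟨b, hb⟩ : ∃ b, b = Pb q (fun ω => ¬ E ω) := ⟨_, rfl⟩
  have hb0 : 0 ≤ b := hb ▸ Pb_nonneg h0 _
  have hb1 : b ≤ 1 := by
    have e1 := Pb_not hp.sum_one E
    have e2 := Pb_nonneg h0 E
    rw [hb]
    linarith
  rw [← hb]
  obtain ⟨hvv, hhv⟩ : ∃ hvv : D.Ω → Fin c → ℤ, hvv =
    hv (c := c) (k0 := k0) (k1 := k1) D z i j r X C P S gs n th gam := ⟨_, rfl⟩
  obtain ⟨V, hV⟩ : ∃ V : D.Ω → VT D.Γ c k0 k1 d × TT D.Γ c k0 k1, V = fun ω =>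
      (vv (c := c) (k0 := k0) (k1 := k1) D J w z i j r d X C P ys gs ω,
        tv (c := c) (k0 := k0) (k1 := k1) D J w z i j r X C S ys gs ω) := ⟨_, rfl⟩
  obtain ⟨R, hR⟩ : ∃ R : D.Ω → {u : Fin c // u ≠ n₀} → ℤ, R = fun ω u => hvv ω u.1 := ⟨_, rfl⟩
  obtain ⟨N, hN⟩ : ∃ N : D.Ω → ℤ, N = fun ω => hvv ω n₀ := ⟨_, rfl⟩
  rw [← hV, ← hhv]
  have hWd : ∀ ω ω', (R ω, V ω) = (R ω', V ω') → cb D J w i j r ω = cb D J w i j r ω' ∧
      D.T ω = D.T ω' ∧ yv D J w z i j r X C P ys ω = yv D J w z i j r X C P ys ω' ∧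
      mv (k0 := k0) (k1 := k1) D J w z i j r d X C P ys ω =
        mv (k0 := k0) (k1 := k1) D J w z i j r d X C P ys ω' ∧
      Sv D z X C S ys gs ω = Sv D z X C S ys gs ω' ∧
      ∀ u, gs u ≠ n → hv (k0 := k0) (k1 := k1) D z i j r X C P S gs n th gam ω u =
        hv (k0 := k0) (k1 := k1) D z i j r X C P S gs n th gam ω' u := by
    intro ω ω' e
    rw [hV, hR] at e
    simp only [Prod.mk.injEq] at e
    obtain ⟨e1, e2, e3⟩ := e
    unfold Pool.TC.vv at e2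
    unfold tv at e3
    simp only [Prod.mk.injEq] at e2 e3
    refine ⟨e2.1, e3.2.1, e2.2.1, e2.2.2.1, e3.2.2, fun u hu => ?_⟩
    have := congrFun e1 ⟨u, fun h => hu (by rw [h, hn₀])⟩
    rw [hhv] at this
    exact this
  have hbd : ∀ ω u, |(hvv ω u : ℝ)| ≤ 2 ^ X * m := by
    intro ω u
    rw [hhv, hm]
    exact dgm_bd X (by positivity) ⟨k0 + k1 + 1, rfl⟩ _
  -- the heights
  have a1 : CH q hvv V ≤ CH q (fun ω => (N ω, R ω)) V := by
    refine CH_mono_left h0 fun ω ω' _ _ e => ?_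
    rw [hN, hR] at e
    simp only [Prod.mk.injEq] at e
    obtain ⟨⟨e1, e2⟩, -⟩ := e
    funext u
    by_cases hu : u = n₀
    · rw [hu]
      exact e1
    · exact congrFun e2 ⟨u, hu⟩
  have a2 := CH_chain h0 N R V
  have hc : Fintype.card {u : Fin c // u ≠ n₀} + 1 = c := by
    have h1 : Fintype.card {u : Fin c // u ≠ n₀} = c - 1 := by
      rw [Fintype.card_subtype_compl, Fintype.card_fin, Fintype.card_unique]
    have h2 : 0 < c := n₀.pos
    omega
  have hc' : (Fintype.card {u : Fin c // u ≠ n₀} : ℝ) = c - 1 := by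
    have : ((Fintype.card {u : Fin c // u ≠ n₀} + 1 : ℕ) : ℝ) = c := by rw [hc]
    push_cast at this
    linarith
  have a4 : Real.log (4 * (2 ^ X * m) + 1) ≤ X * Real.log 2 + A1 := by
    rw [hA1, ← Real.log_pow, ← Real.log_mul (by positivity) (by positivity)]
    refine Real.log_le_log (by positivity) ?_
    have e1 : 1 ≤ (2 : ℝ) ^ X * m := by nlinarith only [hm1, hpX]
    linarith only [e1]
  have a3 : CH q R V ≤ Fintype.card {u : Fin c // u ≠ n₀} * Real.log (4 * (2 ^ X * m) + 1) := by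
    have e0 : (4 : ℝ) * (2 ^ X * m) + 1 = 2 * (2 * (2 ^ X * m)) + 1 := by ring
    rw [e0]
    refine CH_pfam hp.nonneg hp.sum_one _ _ (by positivity) fun ω ω' _ _ _ u => ?_
    rw [hR]
    have e1 := hbd ω u.1
    have e2 := hbd ω' u.1
    refine (abs_sub _ _).trans ?_
    linarith
  rw [hc'] at a3
  have hc1 : (1 : ℝ) ≤ c := by exact_mod_cast n₀.pos
  have a6 : CH q R V ≤ (c - 1) * (X * Real.log 2 + A1) :=
    a3.trans (mul_le_mul_of_nonneg_left a4 (by linarith))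
  -- the target
  have b1 := CH_le_add h0 N (D.nd n i j X) (fun ω => (R ω, V ω))
  have b2 := CH_le_add h0 (D.nd n i j X) (D.vd n i j X) (fun ω => (R ω, V ω))
  have b3 := nd_ctx H.ok hNF hϖ H.n1 hB hX hiM hjM hU hU' (fun ω => (R ω, V ω)) (by
    intro ω ω' _ _ e
    obtain ⟨d1, d2, -⟩ := hWd ω ω' e
    exact ⟨(Prod.ext_iff.1 (Prod.ext_iff.1 d1).1).1, d2⟩)
  have l1 : Real.log (2 * (Ry z C * (cK k0 k1 d * (Ry z C * Ry z C)) + 1) + 1) ≤
      A2 + 3 * (C * z) := by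
    rw [hA2]
    refine log_gen hC0 (by linarith) (by positivity) ?_
    have e1 : 1 ≤ Ry z C * (Ry z C * Ry z C) := by
      have : 1 ≤ Ry z C * Ry z C := by nlinarith only [hRy]
      nlinarith only [this, hRy]
    nlinarith only [e1, hc5]
  have l2 : Real.log (2 * (2 * cK k0 k1 d * (Ry z C * Ry z C)) + 1) ≤ A2 + 3 * (C * z) := by
    rw [hA2]
    refine log_gen hC0 (by linarith) (by positivity) ?_
    have e1 : 1 ≤ Ry z C * Ry z C := by nlinarith only [hRy]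
    have e2 : Ry z C * Ry z C ≤ Ry z C * (Ry z C * Ry z C) := by nlinarith only [e1, hRy]
    have e3 : cK k0 k1 d * (Ry z C * Ry z C) ≤ cK k0 k1 d * (Ry z C * (Ry z C * Ry z C)) :=
      mul_le_mul_of_nonneg_left e2 (by linarith)
    have e4 : 1 ≤ cK k0 k1 d * (Ry z C * (Ry z C * Ry z C)) := by
      have e5 := e1.trans e2
      nlinarith only [e5, hc5]
    nlinarith only [e3, e4]
  have hnn : ((n - 1 : ℕ) : ℝ) ≤ n := by exact_mod_cast Nat.sub_le n 1
  have hn0 : (0 : ℝ) ≤ n := Nat.cast_nonneg n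
  have hXb : 0 ≤ (X : ℝ) * b := by positivity
  have hbX : b * (3 + X) ≤ 3 + X * b := by nlinarith only [hb1]
  have c1 : CH q (D.vd n i j X) (fun ω => (R ω, V ω)) ≤
      1 + n * (A2 + 3 * (C * z) + (3 + X * b)) := by
    have e1 := few_ev hp E (D.vd n i j X) (fun ω => (R ω, V ω))
      (L := Ry z C * (cK k0 k1 d * (Ry z C * Ry z C)) + 1)
      (Q := 2 ^ X) (by positivity) (by positivity) (by
        intro ω ω' g1 g2 hE hE' e l
        obtain ⟨d1, d2, d3, d4, d5, d6⟩ := hWd ω ω' e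
        have e2 := sh_near H g1 g2 hE hE' d1 d2 d3 d4 d5 d6 (l := l + 1) (by omega)
          (by have := l.2; omega)
        unfold NDat2.vd
        refine (fl_sub _ _).trans ?_
        rw [pow_add]
        have e3 : (2 : ℝ) ^ D.g i j (l + 1) * 2 ^ X * D.sh i j ω (l + 1) -
            2 ^ D.g i j (l + 1) * 2 ^ X * D.sh i j ω' (l + 1) =
            2 ^ X * (2 ^ D.g i j (l + 1) * D.sh i j ω (l + 1) -
              2 ^ D.g i j (l + 1) * D.sh i j ω' (l + 1)) := by ring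
        have hp0 : (0 : ℝ) < 2 ^ X := by positivity
        rw [e3, abs_mul, abs_of_pos hp0]
        have e4 := mul_le_mul_of_nonneg_left e2 hp0.le
        have e5 : (2 : ℝ) ^ X * (Ry z C * (cK k0 k1 d * (Ry z C * Ry z C) * ((2 : ℝ) ^ X)⁻¹)) =
            Ry z C * (cK k0 k1 d * (Ry z C * Ry z C)) := by
          field_simp
        rw [e5] at e4
        linarith) (by
        intro ω hω l
        exact sh_bd (H.ok.pos i hiM j hjM ω hω (l + 1) (by omega)
          (by have := l.2; omega)) X)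
    refine e1.trans ?_
    have e3 := log_4X X
    rw [← hb]
    have e4 : b * Real.log (4 * 2 ^ X + 1) ≤ 3 + X * b :=
      (mul_le_mul_of_nonneg_left e3 hb0).trans hbX
    have e6 : ((n - 1 : ℕ) : ℝ) * (Real.log (2 * (Ry z C * (cK k0 k1 d * (Ry z C * Ry z C)) + 1)
        + 1) + b * Real.log (4 * 2 ^ X + 1)) ≤ n * (A2 + 3 * (C * z) + (3 + X * b)) := by
      refine (mul_le_mul_of_nonneg_left (add_le_add l1 e4) (Nat.cast_nonneg _)).trans
        (mul_le_mul_of_nonneg_right hnn (by positivity))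
    linarith
  have c2 : CH q N (fun ω => (D.nd n i j X ω, (R ω, V ω))) ≤
      1 + (A2 + 3 * (C * z) + (X * b + A1)) := by
    have e0 : CH q N (fun ω => (D.nd n i j X ω, (R ω, V ω))) ≤
        CH q (fun ω (_ : Fin 1) => N ω) (fun ω => (D.nd n i j X ω, (R ω, V ω))) := by
      refine CH_mono_left h0 ?_
      intro ω ω' _ _ e
      simp only [Prod.mk.injEq] at e
      exact congrFun e.1 0
    have e1 := few_ev hp E (fun ω (_ : Fin 1) => N ω) (fun ω => (D.nd n i j X ω, (R ω, V ω)))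
      (L := 2 * cK k0 k1 d * (Ry z C * Ry z C)) (Q := 2 ^ X * m)
      (by positivity) (by positivity) (by
        intro ω ω' g1 g2 hE hE' e _
        simp only [Prod.mk.injEq] at e
        obtain ⟨d1, d2, d3, d4, d5, d6⟩ := hWd ω ω' (Prod.ext e.2.1 e.2.2)
        rw [hN, hhv]
        exact hv_near H g1 g2 hE hE' d1 d2 d3 d4 d5 d6 hn₀ e.1) (by
        intro ω _ _
        rw [hN]
        exact hbd ω n₀)
    refine e0.trans (e1.trans ?_)
    rw [← hb]
    have e4 : b * Real.log (4 * (2 ^ X * m) + 1) ≤ X * b + A1 := by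
      have e5 := mul_le_mul_of_nonneg_left a4 hb0
      have e6 : b * A1 ≤ A1 := by nlinarith only [hb1, A10]
      have e7 : b * (X * Real.log 2) ≤ X * b := by
        have : (X : ℝ) * b * Real.log 2 ≤ X * b * 1 :=
          mul_le_mul_of_nonneg_left (by linarith) hXb
        linarith
      linarith
    push_cast
    linarith
  have hCC := le_abs_self C
  have hCC1 := le_abs_self C₁
  obtain ⟨Ca, hCa⟩ : ∃ Ca, Ca = |C| := ⟨_, rfl⟩
  obtain ⟨Cb, hCb⟩ : ∃ Cb, Cb = |C₁| := ⟨_, rfl⟩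
  have hCa0 : 0 ≤ Ca := hCa ▸ abs_nonneg _
  have hCb0 : 0 ≤ Cb := hCb ▸ abs_nonneg _
  unfold err
  rw [← hCa, ← hCb]
  rw [← hCa] at hCC
  rw [← hCb] at hCC1
  obtain ⟨t, ht⟩ : ∃ t : ℝ, t = z + X * b := ⟨_, rfl⟩
  have ht1 : 1 ≤ t := by linarith
  have hzt : (z : ℝ) ≤ t := by linarith
  have hXt : (X : ℝ) * b ≤ t := by linarith
  have f1 : C * z ≤ Ca * t := by
    refine (mul_le_mul_of_nonneg_right hCC (by linarith)).trans
      (mul_le_mul_of_nonneg_left hzt hCa0)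
  have f2 : A2 + 3 * (C * z) + (3 + X * b) ≤ (A2 + 3 * Ca + 4) * t := by
    have e1 : A2 * 1 ≤ A2 * t := mul_le_mul_of_nonneg_left ht1 A20
    linarith
  have f3 : A2 + 3 * (C * z) + (X * b + A1) ≤ (A2 + 3 * Ca + 1 + A1) * t := by
    have e1 : A2 * 1 ≤ A2 * t := mul_le_mul_of_nonneg_left ht1 A20
    have e2 : A1 * 1 ≤ A1 * t := mul_le_mul_of_nonneg_left ht1 A10
    linarith
  have f4 := mul_le_mul_of_nonneg_left f2 hn0
  have f5 : C₁ * z ≤ Cb * t := (mul_le_mul_of_nonneg_right hCC1 (by linarith)).trans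
    (mul_le_mul_of_nonneg_left hzt hCb0)
  have f6 : (c : ℝ) * A1 ≤ c * A1 * t := by
    have : (c : ℝ) * A1 * 1 ≤ c * A1 * t := mul_le_mul_of_nonneg_left ht1 (by positivity)
    linarith
  have f7 : ((c : ℝ) * A1 + (n * (A2 + 3 * Ca + 4) + (A2 + 3 * Ca + 1 + A1) + Cb + 4)) * t ≤
      (c * A1 + (n * (A2 + 3 * Ca + 4) + (A2 + 3 * Ca + 1 + A1) + Cb + 4)) *
        ((1 + κ) * z + X * b) := by
    refine mul_le_mul_of_nonneg_left ?_ (by positivity)
    rw [ht]
    have : 0 ≤ κ * z := mul_nonneg H.κ0 (Nat.cast_nonneg z)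
    linarith
  have f8 : ((c : ℝ) - h / B) * X * Real.log 2 = (c - 1) * (X * Real.log 2) +
      (1 - h / B) * X * Real.log 2 := by ring
  rw [f8]
  have f9 : (c - 1 : ℝ) * (X * Real.log 2 + A1) ≤ (c - 1) * (X * Real.log 2) + c * A1 := by
    have : (c - 1 : ℝ) * (X * Real.log 2 + A1) = (c - 1) * (X * Real.log 2) + c * A1 - A1 := by
      ring
    linarith only [this, A10]
  linarith

/-- **(b1).** -/
theorem b1_tc (h2 : Pool.TC.H2Stmt) : ∀ (n d K K' c k0 k1 B : ℕ) (C₁ C : ℝ), 1 ≤ B →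
    ∃ A : ℝ, 0 ≤ A ∧
    ∀ (D : NDat2) (J a₀ w₀ z M w i j r r2 r' r'' y a U : ℕ) (th : ℝ) (lam gam : ℕ → ℝ)
      (κ h ϖ : ℝ) (q : D.Ω → ℝ) (E : D.Ω → Prop) (P : D.Γ × D.Γ → ℕ → PN) (S : Slo D)
      (ys : Fin (k0 + k1) → ℕ) (gs : Fin c → ℕ),
      Pool.TC.Hyp D n d K K' J a₀ w₀ z M w i j r r2 r' r'' y a (B * U * z) th lam gam κ C₁ C q E
        P S ys gs →
      D.NF n z M B gam h C₁ ϖ q → 0 ≤ h → ϖ ≤ 1 → i + U ≤ M → (U : ℝ) ≤ gam n * (M - j) →
      CH q (hv (c := c) (k0 := k0) (k1 := k1) D z i j r (B * U * z) C P S gs n th gam)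
        (tv (c := c) (k0 := k0) (k1 := k1) D J w z i j r (B * U * z) C S ys gs) ≤
        (c - h / B) * (B * U * z : ℕ) * Real.log 2 +
          err A κ z (B * U * z) (Pb q (fun ω => ¬ E ω)) := by
  intro n d K K' c k0 k1 B C₁ C hB
  obtain ⟨A1, hA1, H1⟩ := nf_tc n d K K' c k0 k1 B C₁ C hB
  obtain ⟨A2, hA2, H2⟩ := h2 n d K K' c k0 k1 C₁ C
  refine ⟨A1 + A2, by positivity, ?_⟩
  intro D J a₀ w₀ z M w i j r r2 r' r'' y a U th lam gam κ h ϖ q E P S ys gs H hNF hh hϖ hU hU'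
  have g1 := H1 D J a₀ w₀ z M w i j r r2 r' r'' y a U th lam gam κ h ϖ q E P S ys gs H hNF hh hϖ
    hU hU'
  have g2 := H2 D J a₀ w₀ z M w i j r r2 r' r'' y a (B * U * z) th lam gam κ q E P S ys gs H
  simp only at g2
  have e : ∀ b : ℝ, err (A1 + A2) κ z (B * U * z) b =
      err A1 κ z (B * U * z) b + err A2 κ z (B * U * z) b := by
    intro b
    unfold err
    ring
  rw [e]
  linarith

end Pool.TC12
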