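import Pool.Agent.H12.TT.Yl
import Pool.Agent.H12.TT.B1u
import Pool.Agent.H5.TT.Glu

/-!
# TC: the records are not full

`nd_ev`: the target is not full, on events. `b1_y`: the digits of the records of the group are not
full, given the digits of the slow records, the context and the exact time, on events.
-/

set_option autoImplicit false

namespace Pool.TC12

open Finset Real
open Pool.Agent.H49.Ent Pool.Agent.H32.Dense Pool.STK Pool.STAT Pool.MIC Pool.TC
open Pool.P4 (bb Ry)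
open Pool.P4N (fl_eq CH_one_low nd_div sh_bd Ry_one)
open Pool.TT5 (CH_pfam fl_dif)
open Pool.BFL (Pb)
open Pool.K2S (Pe)

/-- The law on an event. -/
theorem cond_sup {Ω : Type} [Fintype Ω] {q : Ω → ℝ} (hq : ∀ ω, 0 ≤ q ω) {E : Ω → Prop} {ω : Ω}
    (h : 0 < cond q E True ω) : 0 < q ω ∧ E ω := by
  classical
  unfold Pool.Agent.H49.Ent.cond at h
  split_ifs at h with h1
  · have hE : E ω := by simpa using h1
    refine ⟨?_, hE⟩
    rcases (hq ω).eq_or_lt with h2 | h2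
    · rw [← h2, zero_div] at h
      exact absurd h (lt_irrefl 0)
    · exact h2
  · exact absurd h (lt_irrefl 0)

/-- **The target is not full on events**, given the base, the closed context and the exact time. -/
theorem nd_ev {D : NDat2} {n K J a₀ w₀ z M : ℕ} {lam gam : ℕ → ℝ} {κ C₁ : ℝ} {q : D.Ω → ℝ}
    (hO : D.Ok2 n K J a₀ w₀ z M lam gam κ C₁ q) {B : ℕ} {h ϖ : ℝ}
    (hNF : D.NF n z M B gam h C₁ ϖ q) (hn : 1 ≤ n) (hB : 1 ≤ B) {i j U X : ℕ}
    (hX : X = B * U * z) (hi : i ≤ M) (hj : j ≤ M) (hU : i + U ≤ M)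
    (hU' : (U : ℝ) ≤ gam n * (M - j)) {E : D.Ω → Prop} (hE : ϖ ≤ Pb q E)
    (hp : IsLaw (cond q E True)) {T : Type} (W : D.Ω → T)
    (hW : ∀ ω ω', 0 < cond q E True ω → 0 < cond q E True ω' → W ω = W ω' →
      D.c i j ω = D.c i j ω' ∧ D.T ω = D.T ω') :
    CH (cond q E True) (D.nd n i j X) (fun ω => (D.vd n i j X ω, W ω)) ≤
      (1 - h / B) * X * Real.log 2 + (C₁ * z + 2) := by
  classical
  have hq0 := hO.isLaw.nonneg
  have hs : ∀ ω, 0 < cond q E True ω → 0 < q ω := fun ω hω => (cond_sup hq0 hω).1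
  obtain ⟨p, hpq⟩ : ∃ p, p = cond q E True := ⟨_, rfl⟩
  have e0 := hNF i hi j hj 0 U (by omega) (by push_cast; linarith) E hE
  rw [← hpq] at hp hW e0 hs ⊢
  have h0 := hp.nonneg
  have hUX : U * z ≤ X := by
    rw [hX]
    calc U * z = 1 * (U * z) := (one_mul _).symm
      _ ≤ B * (U * z) := Nat.mul_le_mul_right _ hB
      _ = B * U * z := (mul_assoc _ _ _).symm
  have a3 : CH p (D.nd n i j X) (fun ω => (D.vd n i j X ω, W ω)) ≤
      CH p (D.nd n i j X) (fun ω => (D.vd n i j X ω, (D.s i j ω, D.T ω))) := by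
    refine CH_mono_cond h0 ?_
    intro ω ω' g1 g2 e
    simp only [Prod.mk.injEq] at e ⊢
    obtain ⟨e1, e2⟩ := e
    obtain ⟨d1, d2⟩ := hW ω ω' g1 g2 e2
    exact ⟨e1, hO.s_c i hi j hj ω ω' (hs ω g1) (hs ω' g2) (Prod.ext d1 d2), d2⟩
  have a4 := CH_le_add h0 (D.nd n i j X) (D.nd n i j (U * z))
    (fun ω => (D.vd n i j X ω, (D.s i j ω, D.T ω)))
  have a5 : CH p (D.nd n i j X) (fun ω => (D.nd n i j (U * z) ω,
      (D.vd n i j X ω, (D.s i j ω, D.T ω)))) ≤ ((X - U * z : ℕ) : ℝ) * Real.log 2 := by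
    have e1 := CH_one_low hp (D.nd n i j X) (X - U * z)
      (fun ω => (D.vd n i j X ω, (D.s i j ω, D.T ω)))
    have e2 : (fun ω => (D.nd n i j X ω / 2 ^ (X - U * z),
        (D.vd n i j X ω, (D.s i j ω, D.T ω)))) = (fun ω => (D.nd n i j (U * z) ω,
        (D.vd n i j X ω, (D.s i j ω, D.T ω)))) := by
      funext ω
      have e3 := nd_div D n i j (U * z) (X - U * z) ω
      rw [Nat.add_sub_cancel' hUX] at e3
      rw [e3]
    rw [e2] at e1
    exact e1
  have a6 := CH_le_add h0 (D.nd n i j (U * z)) (D.nd n i j 0)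
    (fun ω => (D.vd n i j X ω, (D.s i j ω, D.T ω)))
  have a7 : CH p (D.nd n i j (U * z)) (fun ω => (D.nd n i j 0 ω,
      (D.vd n i j X ω, (D.s i j ω, D.T ω)))) ≤ (1 - h) * (U * z) * Real.log 2 + C₁ * z := by
    simp only [zero_add, zero_mul] at e0
    have e2 : B * (U * z) = X := by rw [hX, mul_assoc]
    rw [e2] at e0
    exact e0
  have a8 : CH p (D.nd n i j 0) (fun ω => (D.vd n i j X ω, (D.s i j ω, D.T ω))) ≤ 2 := by
    have e1 := CH_le_card h0 hp.sum_one (D.nd n i j 0)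
      (fun ω => (D.vd n i j X ω, (D.s i j ω, D.T ω))) (fun _ => Finset.Icc (-1 : ℤ) 1)
      (fun ω hω => by
        have e2 := sh_bd (hO.pos i hi j hj ω (hs ω hω) n hn le_rfl) 0
        unfold NDat2.nd
        rw [pow_zero] at e2
        have e3 := abs_le.1 e2
        rw [Finset.mem_Icc]
        constructor
        · exact_mod_cast e3.1
        · exact_mod_cast e3.2)
    refine e1.trans ?_
    rw [Ex_const hp.sum_one]
    have e4 : (Finset.Icc (-1 : ℤ) 1).card = 3 := by decide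
    rw [e4]
    have e5 : Real.log ((3 : ℕ) : ℝ) ≤ Real.log (2 ^ 2) :=
      Real.log_le_log (by norm_num) (by norm_num)
    rw [Real.log_pow] at e5
    have hl : Real.log 2 < 0.6931471808 := Real.log_two_lt_d9
    push_cast at e5 ⊢
    linarith
  have hsub : ((X - U * z : ℕ) : ℝ) = X - U * z := by
    rw [Nat.cast_sub hUX]
    push_cast
    ring
  rw [hsub] at a5
  have hBr : (1 : ℝ) ≤ B := by exact_mod_cast hB
  have hXr : (X : ℝ) = B * (U * z) := by
    rw [hX]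
    push_cast
    ring
  have hmain : (1 - h) * (U * z) * Real.log 2 + ((X : ℝ) - U * z) * Real.log 2 =
      (1 - h / B) * (X : ℝ) * Real.log 2 := by
    rw [hXr]
    field_simp
    ring
  linarith

/-- The logarithm of a number of options. -/
theorem lg_opt {N A y : ℝ} (hN : 0 ≤ N) (hA : 1 ≤ A) (hy : 0 ≤ y) (h : N ≤ A * exp y) :
    Real.log (2 * N + 1) ≤ Real.log (3 * A) + y := by
  have h1 : 1 ≤ exp y := Real.one_le_exp hy
  have h2 : 2 * N + 1 ≤ 3 * A * exp y := by nlinarith only [h, h1, hA]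
  have h3 := Real.log_le_log (by positivity) h2
  rwa [Real.log_mul (by positivity) (exp_pos _).ne', Real.log_exp] at h3

/-- **(b1) for the records.** -/
theorem b1_y (n c B : ℕ) (C₁ C : ℝ) (hB : 1 ≤ B) : ∃ A : ℝ, 0 ≤ A ∧
    ∀ (D : NDat2) (d K J a₀ w₀ z M i₀ i j r U : ℕ) (lam gam : ℕ → ℝ)
      (κ h ϖ : ℝ) (q : D.Ω → ℝ) (E G : D.Ω → Prop) (P : D.Γ × D.Γ → ℕ → PN) (gs : Fin c → ℕ)
      (T : Type) (W : D.Ω → T),
      YH D n d K J a₀ w₀ z M i₀ i j r lam gam κ C₁ C q E P →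
      D.NF n z M B gam h C₁ ϖ q → 1 ≤ n → i + U ≤ M → (U : ℝ) ≤ gam n * (M - j) →
      Function.Injective gs → (∀ u, 1 ≤ gs u ∧ gs u ≤ n) → (∃ u, gs u = n) →
      (∀ ω, G ω → E ω) → ϖ ≤ Pb q G → IsLaw (cond q G True) →
      (∀ ω ω', 0 < q ω → 0 < q ω' → G ω → G ω' → W ω = W ω' → D.c i j ω = D.c i j ω' ∧
        D.T ω = D.T ω' ∧ ∀ l, 1 ≤ l → l ≤ n → (∀ u, gs u ≠ l) →
          ⌊(2 : ℝ) ^ (B * U * z) * yl D i₀ i j r P q E ω l⌋ =
            ⌊(2 : ℝ) ^ (B * U * z) * yl D i₀ i j r P q E ω' l⌋) →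
      CH (cond q G True)
        (fun ω (u : Fin c) => ⌊(2 : ℝ) ^ (B * U * z) * yl D i₀ i j r P q E ω (gs u)⌋) W ≤
        (c - h / B) * (B * U * z : ℕ) * Real.log 2 + A * z := by
  classical
  obtain ⟨Y, hY⟩ : ∃ Y : ℝ, Y = |Cy C₁ C| := ⟨_, rfl⟩
  have hY0 : 0 ≤ Y := hY ▸ abs_nonneg _
  obtain ⟨L, hL⟩ : ∃ L : ℝ, L = Real.log 15 := ⟨_, rfl⟩
  have hL0 : 0 ≤ L := hL ▸ Real.log_nonneg (by norm_num)
  refine ⟨c * (L + Y) + (n * (L + Y) + (L + 2 * Y)) + |C₁| + 2, by positivity, ?_⟩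
  intro D d K J a₀ w₀ z M i₀ i j r U lam gam κ h ϖ q E G P gs T W H hNF hn hU hU' hgi hgs hgn
    hGE hG hp hW
  obtain ⟨X, hX⟩ : ∃ X, X = B * U * z := ⟨_, rfl⟩
  rw [← hX] at hW ⊢
  obtain ⟨n₀, hn₀⟩ := hgn
  have hO := H.ok
  have hq0 := hO.isLaw.nonneg
  have hz1 : (1 : ℝ) ≤ z := by exact_mod_cast H.z1
  have hz0 : (0 : ℝ) ≤ z := by linarith
  have hCy := H.Cy0
  have hYy : Y = Cy C₁ C := by rw [hY, abs_of_nonneg hCy]
  have hp2 : (0 : ℝ) < 2 ^ X := by positivity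
  have hp1 : (1 : ℝ) ≤ 2 ^ X := one_le_pow₀ (by norm_num)
  obtain ⟨p, hpq⟩ : ∃ p, p = cond q G True := ⟨_, rfl⟩
  have b3 := fun (T' : Type) (W' : D.Ω → T') => nd_ev hO hNF hn hB hX H.iM.le H.jM hU hU' hG hp
    (T := T') W'
  have hs : ∀ ω, 0 < cond q G True ω → 0 < q ω ∧ G ω := fun ω hω => cond_sup hq0 hω
  rw [← hpq] at hp hs b3 ⊢
  have h0 := hp.nonneg
  obtain ⟨y, hy⟩ : ∃ y, y = yl D i₀ i j r P q E := ⟨_, rfl⟩
  rw [← hy] at hW ⊢
  obtain ⟨x, hx⟩ : ∃ x : ℝ, x = exp (Cy C₁ C * z) := ⟨_, rfl⟩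
  have hx1 : 1 ≤ x := hx ▸ Real.one_le_exp (by positivity)
  obtain ⟨R, hR⟩ : ∃ R : D.Ω → {u : Fin c // u ≠ n₀} → ℤ,
    R = fun ω u => ⌊(2 : ℝ) ^ X * y ω (gs u.1)⌋ := ⟨_, rfl⟩
  obtain ⟨N, hN⟩ : ∃ N : D.Ω → ℤ, N = fun ω => ⌊(2 : ℝ) ^ X * y ω n⌋ := ⟨_, rfl⟩
  -- the data of the condition
  have hWd : ∀ ω ω', 0 < p ω → 0 < p ω' → (R ω, W ω) = (R ω', W ω') →
      D.c i j ω = D.c i j ω' ∧ D.T ω = D.T ω' ∧ ∀ l, 1 ≤ l → l < n →
        |y ω l - y ω' l| ≤ ((2 : ℝ) ^ X)⁻¹ := by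
    intro ω ω' g1 g2 e
    obtain ⟨e1, e2⟩ := Prod.ext_iff.1 e
    obtain ⟨q1, G1⟩ := hs ω g1
    obtain ⟨q2, G2⟩ := hs ω' g2
    obtain ⟨d1, d2, d3⟩ := hW ω ω' q1 q2 G1 G2 e2
    refine ⟨d1, d2, fun l l1 ln => ?_⟩
    have key : ⌊(2 : ℝ) ^ X * y ω l⌋ = ⌊(2 : ℝ) ^ X * y ω' l⌋ := by
      by_cases hl : ∃ u, gs u = l
      · obtain ⟨u, hu⟩ := hl
        have hun : u ≠ n₀ := fun h' => by
          rw [h', hn₀] at hu
          omega
        have e3 := congrFun e1 ⟨u, hun⟩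
        rw [hR] at e3
        simp only [hu] at e3
        exact e3
      · exact d3 l l1 ln.le fun u hu => hl ⟨u, hu⟩
    have e4 := fl_eq key
    rw [← mul_sub, abs_mul, abs_of_pos hp2] at e4
    rw [← one_div, le_div_iff₀ hp2]
    linarith
  -- the heights
  have a1 : CH p (fun ω (u : Fin c) => ⌊(2 : ℝ) ^ X * y ω (gs u)⌋) W ≤
      CH p (fun ω => (N ω, R ω)) W := by
    refine CH_mono_left h0 fun ω ω' _ _ e => ?_
    rw [hN, hR] at e
    simp only [Prod.mk.injEq] at e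
    obtain ⟨⟨e1, e2⟩, -⟩ := e
    funext u
    by_cases hu : u = n₀
    · rw [hu, hn₀]
      exact e1
    · exact congrFun e2 ⟨u, hu⟩
  have a2 := CH_chain h0 N R W
  have hc : Fintype.card {u : Fin c // u ≠ n₀} + 1 = c := by
    have h1 : Fintype.card {u : Fin c // u ≠ n₀} = c - 1 := by
      rw [Fintype.card_subtype_compl, Fintype.card_fin, Fintype.card_unique]
    have h2 : 0 < c := n₀.pos
    omega
  have hc' : (Fintype.card {u : Fin c // u ≠ n₀} : ℝ) = c - 1 := by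
    have : ((Fintype.card {u : Fin c // u ≠ n₀} + 1 : ℕ) : ℝ) = c := by rw [hc]
    push_cast at this
    linarith
  have hyb : ∀ ω l, 1 ≤ l → l ≤ n → |y ω l| ≤ 2 * x := by
    intro ω l l1 ln
    rw [hy, hx]
    exact H.yl_bd ω l1 ln
  have a4 : Real.log (2 * (2 ^ X * (4 * x) + 1) + 1) ≤ X * Real.log 2 + (L + Y * z) := by
    rw [hL, ← Real.log_pow, hYy]
    have e1 : (2 : ℝ) * (2 ^ X * (4 * x) + 1) + 1 ≤ 2 ^ X * (15 * x) := by
      nlinarith only [hp1, hx1, mul_le_mul hp1 hx1 zero_le_one hp2.le]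
    have e2 := Real.log_le_log (by positivity) e1
    have e3 : Real.log x = Cy C₁ C * z := by rw [hx, Real.log_exp]
    rw [Real.log_mul (by positivity) (by positivity), Real.log_mul (by norm_num) (by positivity),
      e3] at e2
    exact e2
  have a3 : CH p R W ≤ Fintype.card {u : Fin c // u ≠ n₀} *
      Real.log (2 * (2 ^ X * (4 * x) + 1) + 1) := by
    refine CH_pfam h0 hp.sum_one _ _ (by positivity) fun ω ω' _ _ _ u => ?_
    rw [hR]
    refine (fl_dif _ _).trans ?_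
    rw [← mul_sub, abs_mul, abs_of_pos hp2]
    have e1 := hyb ω (gs u.1) (hgs u.1).1 (hgs u.1).2
    have e2 := hyb ω' (gs u.1) (hgs u.1).1 (hgs u.1).2
    have e3 : |y ω (gs u.1) - y ω' (gs u.1)| ≤ 4 * x := by
      refine (abs_sub _ _).trans ?_
      linarith
    have e4 := mul_le_mul_of_nonneg_left e3 hp2.le
    linarith
  rw [hc'] at a3
  have hc1 : (1 : ℝ) ≤ c := by exact_mod_cast n₀.pos
  have a6 : CH p R W ≤ (c - 1) * (X * Real.log 2 + (L + Y * z)) :=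
    a3.trans (mul_le_mul_of_nonneg_left a4 (by linarith))
  -- the target
  have b1 := CH_le_add h0 N (D.nd n i j X) (fun ω => (R ω, W ω))
  have b2 := CH_le_add h0 (D.nd n i j X) (D.vd n i j X) (fun ω => (R ω, W ω))
  have b3' := b3 _ (fun ω => (R ω, W ω)) (by
    intro ω ω' g1 g2 e
    obtain ⟨d1, d2, -⟩ := hWd ω ω' g1 g2 e
    exact ⟨d1, d2⟩)
  have hxpi : (2 : ℝ) ^ X * (x * ((2 : ℝ) ^ X)⁻¹) = x := by
    field_simp
  have lx : Real.log (2 * (x + 1) + 1) ≤ L + Y * z := by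
    have e1 := lg_opt (N := x + 1) (A := 5) (y := Cy C₁ C * z) (by linarith) (by norm_num)
      (by positivity) (by rw [← hx]; linarith)
    rw [hL, hYy]
    have e2 : (3 : ℝ) * 5 = 15 := by norm_num
    rw [e2] at e1
    exact e1
  have lxx : Real.log (2 * (x * x + 1) + 1) ≤ L + 2 * Y * z := by
    have e1 := lg_opt (N := x * x + 1) (A := 5) (y := 2 * (Cy C₁ C * z)) (by positivity)
      (by norm_num) (by positivity) (by
        have e2 : exp (2 * (Cy C₁ C * z)) = x * x := by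
          rw [hx, ← Real.exp_add]
          congr 1
          ring
        rw [e2]
        nlinarith only [hx1])
    rw [hL, hYy]
    have e2 : (3 : ℝ) * 5 = 15 := by norm_num
    rw [e2] at e1
    linarith
  have c1 : CH p (D.vd n i j X) (fun ω => (R ω, W ω)) ≤ n * (L + Y * z) := by
    have e1 := CH_pfam h0 hp.sum_one (D.vd n i j X) (fun ω => (R ω, W ω)) (D := x + 1)
      (by linarith) (by
        intro ω ω' g1 g2 e l
        obtain ⟨d1, d2, d3⟩ := hWd ω ω' g1 g2 e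
        obtain ⟨q1, G1⟩ := hs ω g1
        obtain ⟨q2, G2⟩ := hs ω' g2
        have hl := l.2
        have e2 := H.y_toV q1 q2 (hGE ω G1) (hGE ω' G2) d1 d2 (l := l + 1) (by omega)
          (by omega) (δ := ((2 : ℝ) ^ X)⁻¹) (by positivity) (by
            intro k k1 kl
            rw [← hy]
            exact d3 k k1 (by omega))
        rw [← hx] at e2
        unfold NDat2.vd
        refine (fl_dif _ _).trans ?_
        rw [pow_add]
        have e3 : (2 : ℝ) ^ D.g i j (l + 1) * 2 ^ X * D.sh i j ω (l + 1) -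
            2 ^ D.g i j (l + 1) * 2 ^ X * D.sh i j ω' (l + 1) =
            2 ^ X * (2 ^ D.g i j (l + 1) * D.sh i j ω (l + 1) -
              2 ^ D.g i j (l + 1) * D.sh i j ω' (l + 1)) := by ring
        rw [e3, abs_mul, abs_of_pos hp2]
        have e4 := mul_le_mul_of_nonneg_left e2 hp2.le
        rw [hxpi] at e4
        linarith)
    refine e1.trans ?_
    rw [Fintype.card_fin]
    have hnn : ((n - 1 : ℕ) : ℝ) ≤ n := by exact_mod_cast Nat.sub_le n 1
    exact (mul_le_mul_of_nonneg_left lx (Nat.cast_nonneg _)).trans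
      (mul_le_mul_of_nonneg_right hnn (by positivity))
  have c2 : CH p N (fun ω => (D.nd n i j X ω, (R ω, W ω))) ≤ L + 2 * Y * z := by
    have e0 : CH p N (fun ω => (D.nd n i j X ω, (R ω, W ω))) ≤
        CH p (fun ω (_ : Fin 1) => N ω) (fun ω => (D.nd n i j X ω, (R ω, W ω))) := by
      refine CH_mono_left h0 ?_
      intro ω ω' _ _ e
      simp only [Prod.mk.injEq] at e
      exact congrFun e.1 0
    have e1 := CH_pfam h0 hp.sum_one (fun ω (_ : Fin 1) => N ω)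
      (fun ω => (D.nd n i j X ω, (R ω, W ω))) (D := x * x + 1) (by positivity) (by
        intro ω ω' g1 g2 e _
        simp only [Prod.mk.injEq] at e
        obtain ⟨e1, e2⟩ := e
        obtain ⟨d1, d2, d3⟩ := hWd ω ω' g1 g2 (Prod.ext e2.1 e2.2)
        obtain ⟨q1, G1⟩ := hs ω g1
        obtain ⟨q2, G2⟩ := hs ω' g2
        have e3 := H.y_ofV q1 q2 (hGE ω G1) (hGE ω' G2) d1 d2 (l := n) hn le_rfl
          (δ := x * ((2 : ℝ) ^ X)⁻¹) (by positivity) (by
            intro k k1 kn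
            rcases Nat.lt_or_ge k n with hk | hk
            · have e2 := H.y_toV q1 q2 (hGE ω G1) (hGE ω' G2) d1 d2 (l := k) k1 kn
                (δ := ((2 : ℝ) ^ X)⁻¹) (by positivity) (by
                  intro k' k1' kl'
                  rw [← hy]
                  exact d3 k' k1' (by omega))
              rw [← hx] at e2
              exact e2
            · have hkn : k = n := le_antisymm kn hk
              rw [hkn]
              unfold NDat2.nd at e1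
              have e4 := fl_eq e1
              rw [pow_add] at e4
              have e5 : (2 : ℝ) ^ D.g i j n * 2 ^ X * D.sh i j ω n -
                  2 ^ D.g i j n * 2 ^ X * D.sh i j ω' n =
                  2 ^ X * (2 ^ D.g i j n * D.sh i j ω n - 2 ^ D.g i j n * D.sh i j ω' n) := by
                ring
              rw [e5, abs_mul, abs_of_pos hp2] at e4
              have e6 : |2 ^ D.g i j n * D.sh i j ω n - 2 ^ D.g i j n * D.sh i j ω' n| ≤
                  ((2 : ℝ) ^ X)⁻¹ := by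
                rw [← one_div, le_div_iff₀ hp2]
                linarith
              refine e6.trans ?_
              have hpi : 0 ≤ ((2 : ℝ) ^ X)⁻¹ := by positivity
              nlinarith only [hx1, hpi])
        rw [← hx, ← hy] at e3
        rw [hN]
        refine (fl_dif _ _).trans ?_
        rw [← mul_sub, abs_mul, abs_of_pos hp2]
        have e7 := mul_le_mul_of_nonneg_left e3 hp2.le
        have e8 : (2 : ℝ) ^ X * (x * (x * ((2 : ℝ) ^ X)⁻¹)) = x * x := by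
          field_simp
        rw [e8] at e7
        linarith)
    refine e0.trans (e1.trans ?_)
    rw [Fintype.card_fin]
    push_cast
    linarith
  have hCC1 := le_abs_self C₁
  have hC1z : C₁ * z ≤ |C₁| * z := mul_le_mul_of_nonneg_right hCC1 hz0
  have f1 : L + Y * z ≤ (L + Y) * z := by nlinarith only [hz1, hL0]
  have f2 : L + 2 * Y * z ≤ (L + 2 * Y) * z := by nlinarith only [hz1, hL0]
  have f3 : (n : ℝ) * (L + Y * z) ≤ n * (L + Y) * z := by
    have := mul_le_mul_of_nonneg_left f1 (Nat.cast_nonneg n)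
    linarith
  have f4 : ((c : ℝ) - 1) * (L + Y * z) ≤ c * (L + Y) * z := by
    have e1 := mul_le_mul_of_nonneg_left f1 (by linarith : (0 : ℝ) ≤ c - 1)
    have e2 : ((c : ℝ) - 1) * ((L + Y) * z) ≤ c * ((L + Y) * z) :=
      mul_le_mul_of_nonneg_right (by linarith) (by positivity)
    linarith
  have f5 : ((c : ℝ) - h / B) * X * Real.log 2 = (c - 1) * (X * Real.log 2) +
      (1 - h / B) * X * Real.log 2 := by ring
  rw [f5]
  have f6 : ((c : ℝ) - 1) * (X * Real.log 2 + (L + Y * z)) =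
      (c - 1) * (X * Real.log 2) + (c - 1) * (L + Y * z) := by ring
  have f7 : (c * (L + Y) + (n * (L + Y) + (L + 2 * Y)) + |C₁| + 2) * z =
      c * (L + Y) * z + (n * (L + Y) * z + (L + 2 * Y) * z) + |C₁| * z + 2 * z := by ring
  rw [f7]
  linarith

/-- **(b1) at a place**: the law `p` of the samples of `E₀ ⊆ E`, the slow records `ys`, the record
`R` which knows the context. -/
theorem b1_p (n c B : ℕ) (C₁ C : ℝ) (hB : 1 ≤ B) : ∃ A : ℝ, 0 ≤ A ∧
    ∀ (D : NDat2) (d K J a₀ w₀ z M i₀ i j r U k : ℕ) (lam gam : ℕ → ℝ)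
      (κ h ϖ : ℝ) (q p : D.Ω → ℝ) (E E₀ G : D.Ω → Prop) (P : D.Γ × D.Γ → ℕ → PN)
      (gs : Fin c → ℕ) (ys : Fin k → ℕ) (ρ : Type) (R : D.Ω → ρ),
      YH D n d K J a₀ w₀ z M i₀ i j r lam gam κ C₁ C q E P →
      D.NF n z M B gam h C₁ ϖ q → 1 ≤ n → i + U ≤ M → (U : ℝ) ≤ gam n * (M - j) →
      Function.Injective gs → (∀ u, 1 ≤ gs u ∧ gs u ≤ n) → (∃ u, gs u = n) →
      (∀ l, 1 ≤ l → l ≤ n → (∃ a, ys a = l) ∨ ∃ u, gs u = l) →
      (∀ ω, E₀ ω → E ω) → p = cond q E₀ True → 1 / 2 ≤ Pb q E₀ → 0 < ϖ → 2 * ϖ ≤ Pe p G →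
      Det p R (D.c i j) →
      CH (cond p G True)
        (fun ω (u : Fin c) => ⌊(2 : ℝ) ^ (B * U * z) * yl D i₀ i j r P q E ω (gs u)⌋)
        (fun ω => ((D.T ω, fun a => ⌊(2 : ℝ) ^ (B * U * z) * yl D i₀ i j r P q E ω (ys a)⌋),
          R ω)) ≤ (c - h / B) * (B * U * z : ℕ) * Real.log 2 + A * z := by
  classical
  obtain ⟨A, hA, h1⟩ := b1_y n c B C₁ C hB
  refine ⟨A, hA, ?_⟩
  intro D d K J a₀ w₀ z M i₀ i j r U k lam gam κ h ϖ q p E E₀ G P gs ys ρ R H hNF hn hU hU' hgi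
    hgs hgn hcov hE₀ hp hE hϖ hG hR
  rw [hp] at hG hR ⊢
  have hPe := Pool.Agent.H25.BFL.Pb_eq_Pe q E₀
  have hE0 : 0 < Pe q E₀ := by
    rw [← hPe]
    linarith
  have e1 := Pool.K2S.Pe_cond (p := q) (A := E₀) G
  rw [e1, le_div_iff₀ hE0] at hG
  have e2 : ϖ ≤ Pe q (fun ω => E₀ ω ∧ G ω) := by
    rw [← hPe] at hG
    nlinarith only [hG, hE, hϖ]
  have e3 : 0 < Pe q (fun ω => E₀ ω ∧ G ω) := hϖ.trans_le e2
  rw [Pool.TT5.cond_and5 q hE0.ne']
  refine h1 D d K J a₀ w₀ z M i₀ i j r U lam gam κ h ϖ q E (fun ω => E₀ ω ∧ G ω) P gs _ _ H hNF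
    hn hU hU' hgi hgs hgn (fun ω hω => hE₀ ω hω.1)
    (by rw [Pool.Agent.H25.BFL.Pb_eq_Pe]; exact e2)
    (Pool.K2S.isLaw_cond H.ok.isLaw e3) ?_
  intro ω ω' q1 q2 G1 G2 e
  obtain ⟨e4, e5⟩ := Prod.ext_iff.1 e
  obtain ⟨e6, e7⟩ := Prod.ext_iff.1 e4
  have hs : ∀ ω, 0 < q ω → E₀ ω → 0 < cond q E₀ True ω := by
    intro ω g1 g2
    rw [Pool.TT5.cond_ev5, if_pos g2]
    exact div_pos g1 hE0
  refine ⟨hR ω ω' (hs ω q1 G1.1) (hs ω' q2 G2.1) e5, e6, fun l l1 ln hl => ?_⟩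
  rcases hcov l l1 ln with ⟨a, ha⟩ | ⟨u, hu⟩
  · have e8 := congrFun e7 a
    simp only [ha] at e8
    exact e8
  · exact absurd hu (hl u)

end Pool.TC12
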