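import Pool.Agent.H5.TT.Few
import Pool.Agent.H7.MIC.Plk
import Pool.Agent.H14.P4.Def

/-!
# The heights of the group are not full

`b1_cell`: the digits of all the heights over the visible labels at `(i, j)`, given the digits of a
set of slow coordinates, the closed context and the exact time: the target is not full, the other
coordinates are counted.
-/

set_option autoImplicit false

namespace Pool.TT

open Finset Real
open Pool.Agent.H49.Ent Pool.Agent.H32.Dense Pool.STK Pool.STAT Pool.MIC.Frm Pool.PLK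
open Pool.GSD (ztS)
open Pool.BFL (Pb)
open Pool.TT5 (CH_pint CH_pfam CH_psum fl_dif fl_sca fl_inv)

open Classical in
/-- The digits of the coordinates with the property `sl`. -/
noncomputable def slS (D : NDat2) (n i j X : ℕ) (sl : ℕ → Prop) (S : D.Ω → ℕ → PN) (ω : D.Ω)
    (l : Fin n) : ℤ := if sl (l + 1) then hvS D n i j X S ω l else 0

open Classical in
/-- The number of the coordinates `1, …, n` which are not slow. -/
noncomputable def cgr (n : ℕ) (sl : ℕ → Prop) : ℕ :=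
  ((univ : Finset (Fin n)).filter fun l : Fin n => ¬ sl (l + 1)).card

variable {D : NDat2} {n K J a₀ w₀ z M : ℕ} {lam gam : ℕ → ℝ} {κ C₁ : ℝ} {q : D.Ω → ℝ}

/-- The heights over the visible labels are natural. -/
theorem zt_abs (hO : D.Ok2 n K J a₀ w₀ z M lam gam κ C₁ q) {i j : ℕ} (hi : i ≤ M) (hj : j ≤ M)
    {ω : D.Ω} (hω : 0 < q ω) {l : ℕ} (h1 : 1 ≤ l) (h2 : l ≤ n) :
    |ztS D i j (D.Ψ i j) ω l| ≤ 1 := by
  have h := hO.pos i hi j hj ω hω l h1 h2
  unfold ztS nat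
  have p0 : (0 : ℝ) < 2 ^ D.g i j l := by positivity
  rw [abs_mul, abs_of_pos p0]
  rw [le_div_iff₀ p0] at h
  have e : |D.X ω l - MvPolynomial.eval (D.X ω) (D.Ψ i j ω l)| * 2 ^ D.g i j l ≤ 1 := h
  linarith

/-- Two digits numbers of bounded reals. -/
theorem dg_two {X : ℕ} {x y : ℝ} (hx : |x| ≤ 1) (hy : |y| ≤ 1) :
    |((⌊(2 : ℝ) ^ X * x⌋ : ℤ) : ℝ) - (⌊(2 : ℝ) ^ X * y⌋ : ℤ)| ≤ 3 * 2 ^ X := by
  have p0 : (1 : ℝ) ≤ 2 ^ X := one_le_pow₀ (by norm_num)
  have h1 : |x - y| ≤ 2 := (abs_sub _ _).trans (by linarith)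
  have h2 := fl_sca (σ := (2 : ℝ) ^ X) (by positivity) h1
  linarith

theorem log_dg (X : ℕ) : Real.log (2 * (3 * 2 ^ X) + 1) ≤ X * Real.log 2 + Real.log 7 := by
  have p0 : (1 : ℝ) ≤ 2 ^ X := one_le_pow₀ (by norm_num)
  rw [← Real.log_pow, ← Real.log_mul (by positivity) (by norm_num)]
  refine Real.log_le_log (by positivity) ?_
  linarith

/-- Deeper digits. -/
theorem dg_deep {X r : ℕ} (hr : r ≤ X) {x y : ℝ}
    (h : ⌊(2 : ℝ) ^ r * x⌋ = ⌊(2 : ℝ) ^ r * y⌋) :
    |((⌊(2 : ℝ) ^ X * x⌋ : ℤ) : ℝ) - (⌊(2 : ℝ) ^ X * y⌋ : ℤ)| ≤ 3 * 2 ^ (X - r) := by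
  have h1 := fl_inv (σ := (2 : ℝ) ^ r) (by positivity) h
  have h2 := fl_sca (σ := (2 : ℝ) ^ X) (by positivity) h1
  have e : (2 : ℝ) ^ X * (1 / 2 ^ r) = 2 ^ (X - r) := by
    have : (2 : ℝ) ^ X = 2 ^ (X - r) * 2 ^ r := by
      rw [← pow_add]
      congr 1
      omega
    rw [this]
    field_simp
  rw [e] at h2
  have p0 : (1 : ℝ) ≤ 2 ^ (X - r) := one_le_pow₀ (by norm_num)
  linarith

theorem cond_all {Ω : Type} [Fintype Ω] {p : Ω → ℝ} (hp : IsLaw p) :
    Pool.Agent.H49.Ent.cond p (fun _ => True) True = p := by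
  classical
  funext ω
  have h1 : law p (fun _ : Ω => True) True = 1 := by
    unfold law
    simp only [if_true]
    exact hp.sum_one
  unfold Pool.Agent.H49.Ent.cond
  simp only [if_true]
  rw [h1, div_one]

theorem Pb_all {Ω : Type} [Fintype Ω] {p : Ω → ℝ} (hp : IsLaw p) :
    Pb p (fun _ : Ω => True) = 1 := by
  classical
  unfold Pb
  simp only [if_true]
  exact hp.sum_one

/-- **(b1)** -/
theorem b1_cell (hO : D.Ok2 n K J a₀ w₀ z M lam gam κ C₁ q) {B : ℕ} {h ϖ : ℝ}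
    (hN : D.NF n z M B gam h C₁ ϖ q) (hϖ : ϖ ≤ 1) (hn : 1 ≤ n) (hB : 1 ≤ B) {i j U : ℕ}
    (hi : i ≤ M) (hj : j ≤ M) (hU : i + U ≤ M) (hUg : (U : ℝ) ≤ gam n * (M - j))
    {sl : ℕ → Prop} (hsl : ¬ sl n) :
    CH q (hvS D n i j (B * (U * z)) (D.Ψ i j)) (fun ω =>
      (slS D n i j (B * (U * z)) sl (D.Ψ i j) ω, (D.c i j ω, D.T ω))) ≤
      (cgr n sl * ((B * (U * z) : ℕ) : ℝ) - h * (U * z)) * Real.log 2 +
        (C₁ * z + (n + 2) * Real.log 7) := by
  classical
  have hp0 := hO.isLaw.nonneg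
  have hp1 := hO.isLaw.sum_one
  obtain ⟨X, hX⟩ : ∃ X, X = B * (U * z) := ⟨_, rfl⟩
  obtain ⟨S, hS⟩ : ∃ S, S = slS D n i j X sl (D.Ψ i j) := ⟨_, rfl⟩
  obtain ⟨W, hW⟩ : ∃ W : D.Ω → D.Γ × ℕ, W = fun ω => (D.c i j ω, D.T ω) := ⟨_, rfl⟩
  have hUX : U * z ≤ X := by
    rw [hX]
    exact Nat.le_mul_of_pos_left _ hB
  rw [← hX, ← hS]
  -- the base coordinates of the group
  let G := {l : Fin n // ¬ sl (l + 1) ∧ (l : ℕ) + 1 < n}
  obtain ⟨N, hNd⟩ : ∃ N : D.Ω → ℤ, N = fun ω => ⌊(2 : ℝ) ^ X * ztS D i j (D.Ψ i j) ω n⌋ :=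
    ⟨_, rfl⟩
  obtain ⟨Gd, hGd⟩ : ∃ Gd : D.Ω → G → ℤ, Gd = fun ω l => hvS D n i j X (D.Ψ i j) ω l.1 :=
    ⟨_, rfl⟩
  have a1 : CH q (hvS D n i j X (D.Ψ i j)) (fun ω => (S ω, W ω)) ≤
      CH q (fun ω => (N ω, Gd ω)) (fun ω => (S ω, W ω)) := by
    refine CH_mono_left hp0 fun ω ω' _ _ e => ?_
    simp only [Prod.mk.injEq] at e
    obtain ⟨⟨e1, e2⟩, e3, -⟩ := e
    funext l
    by_cases h1 : sl (l + 1)
    · have h2 := congrFun e3 l
      rw [hS] at h2
      unfold slS at h2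
      rw [if_pos h1, if_pos h1] at h2
      exact h2
    · by_cases h3 : (l : ℕ) + 1 < n
      · have h2 := congrFun e2 ⟨l, h1, h3⟩
        rw [hGd] at h2
        exact h2
      · have h4 : (l : ℕ) + 1 = n := by
          have := l.isLt
          omega
        rw [hNd] at e1
        unfold hvS hdS
        rw [h4]
        exact e1
  have a2 := CH_chain hp0 N Gd (fun ω => (S ω, W ω))
  have hcard : ((Fintype.card G : ℕ) : ℝ) + 1 = cgr n sl := by
    have h1 : Fintype.card G + 1 = cgr n sl := by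
      unfold cgr
      have h2 : Fintype.card G = ((univ : Finset (Fin n)).filter fun l : Fin n =>
          ¬ sl (l + 1) ∧ (l : ℕ) + 1 < n).card := Fintype.card_subtype _
      rw [h2]
      have h3 : ((univ : Finset (Fin n)).filter fun l : Fin n => ¬ sl (l + 1)) =
          insert (⟨n - 1, by omega⟩ : Fin n) ((univ : Finset (Fin n)).filter fun l : Fin n =>
            ¬ sl (l + 1) ∧ (l : ℕ) + 1 < n) := by
        ext l
        simp only [mem_filter, mem_univ, true_and, mem_insert]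
        constructor
        · intro h
          by_cases h3 : (l : ℕ) + 1 < n
          · exact Or.inr ⟨h, h3⟩
          · refine Or.inl (Fin.ext ?_)
            have := l.isLt
            simp only
            omega
        · rintro (h | h)
          · rw [h]
            simp only
            rwa [Nat.sub_add_cancel hn]
          · exact h.1
      rw [h3, card_insert_of_notMem]
      simp only [mem_filter, mem_univ, true_and, not_and]
      intro _
      omega
    exact_mod_cast h1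
  have a3 : CH q Gd (fun ω => (S ω, W ω)) ≤
      Fintype.card G * Real.log (2 * (3 * 2 ^ X) + 1) := by
    refine CH_pfam hp0 hp1 _ _ (by positivity) fun ω ω' hω hω' _ l => ?_
    rw [hGd]
    exact dg_two (zt_abs hO hi hj hω (by omega) (by have := l.1.isLt; omega))
      (zt_abs hO hi hj hω' (by omega) (by have := l.1.isLt; omega))
  -- the target
  obtain ⟨N1, hN1⟩ : ∃ N1 : D.Ω → ℤ, N1 = D.nd n i j (U * z) := ⟨_, rfl⟩
  have eN1 : N1 = fun ω => ⌊(2 : ℝ) ^ (U * z) * ztS D i j (D.Ψ i j) ω n⌋ := by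
    rw [hN1, nd_eq]
    rfl
  have b1 := CH_le_add hp0 N N1 (fun ω => (Gd ω, (S ω, W ω)))
  have b2 : CH q N (fun ω => (N1 ω, (Gd ω, (S ω, W ω)))) ≤
      Real.log (2 * (3 * 2 ^ (X - U * z)) + 1) := by
    refine CH_pint hp0 hp1 _ _ (by positivity) fun ω ω' hω hω' e => ?_
    have e1 : N1 ω = N1 ω' := (Prod.ext_iff.1 e).1
    rw [eN1] at e1
    rw [hNd]
    exact dg_deep hUX e1
  -- the base given everything
  have c1 : CH q N1 (fun ω => (Gd ω, (S ω, W ω))) ≤
      CH q N1 (fun ω => (D.vd n i j (B * (U * z)) ω, W ω)) := by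
    refine CH_mono_cond hp0 fun ω ω' _ _ e => ?_
    simp only [Prod.mk.injEq] at e
    obtain ⟨e1, e2, e3⟩ := e
    refine Prod.ext ?_ e3
    show D.vd n i j (B * (U * z)) ω = D.vd n i j (B * (U * z)) ω'
    rw [vd_eq, ← hX]
    funext l
    have hl : (l : ℕ) < n := by
      have := l.isLt
      omega
    have hl' : (l : ℕ) + 1 < n := by
      have := l.isLt
      omega
    by_cases h1 : sl (l + 1)
    · have h2 := congrFun e2 ⟨l, hl⟩
      rw [hS] at h2
      unfold slS at h2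
      simp only at h2
      rw [if_pos h1, if_pos h1] at h2
      exact h2
    · have h2 := congrFun e1 ⟨⟨l, hl⟩, h1, hl'⟩
      rw [hGd] at h2
      exact h2
  obtain ⟨N0, hN0⟩ : ∃ N0 : D.Ω → ℤ, N0 = D.nd n i j (0 * z) := ⟨_, rfl⟩
  have c2 := CH_le_add hp0 N1 N0 (fun ω => (D.vd n i j (B * (U * z)) ω, W ω))
  have c3 : CH q N0 (fun ω => (D.vd n i j (B * (U * z)) ω, W ω)) ≤
      Real.log (2 * (3 * 2 ^ 0) + 1) := by
    refine CH_pint hp0 hp1 _ _ (by norm_num) fun ω ω' hω hω' _ => ?_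
    rw [hN0, nd_eq, zero_mul]
    exact dg_two (zt_abs hO hi hj hω hn le_rfl) (zt_abs hO hi hj hω' hn le_rfl)
  have c4 := hN i hi j hj 0 U (by omega) (by push_cast; linarith) (fun _ => True) (by
    rw [Pb_all hO.isLaw]
    exact hϖ)
  rw [cond_all hO.isLaw] at c4
  have c5 : CH q N1 (fun ω => (N0 ω, (D.vd n i j (B * (U * z)) ω, W ω))) ≤
      CH q (D.nd n i j ((0 + U) * z)) (fun ω => (D.nd n i j (0 * z) ω,
        (D.vd n i j (B * ((0 + U) * z)) ω, (D.s i j ω, D.T ω)))) := by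
    rw [zero_add, ← hN1, ← hN0]
    refine CH_mono_cond hp0 fun ω ω' hω hω' e => ?_
    simp only [Prod.mk.injEq] at e ⊢
    obtain ⟨e1, e2, e3⟩ := e
    have e4 : (D.c i j ω, D.T ω) = (D.c i j ω', D.T ω') := by
      rw [hW] at e3
      exact e3
    exact ⟨e1, e2, hO.s_c i hi j hj ω ω' hω hω' e4, (Prod.ext_iff.1 e4).2⟩
  have d1 := log_dg X
  have d2 := log_dg (X - U * z)
  have d3 := log_dg 0
  have d4 : (0 : ℝ) ≤ Real.log 7 := Real.log_nonneg (by norm_num)
  have d5 : ((X - U * z : ℕ) : ℝ) = X - U * z := by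
    rw [Nat.cast_sub hUX]
    push_cast
    ring
  rw [d5] at d2
  have d6 : (Fintype.card G : ℝ) ≤ n - 1 := by
    have h1 : cgr n sl ≤ n := by
      unfold cgr
      exact (card_le_univ _).trans (by rw [Fintype.card_fin])
    have h2 : (cgr n sl : ℝ) ≤ n := by exact_mod_cast h1
    linarith
  have d7 := mul_le_mul_of_nonneg_left d1 (Nat.cast_nonneg (α := ℝ) (Fintype.card G))
  have d8 := mul_le_mul_of_nonneg_right d6 d4
  have d9 : Real.log (2 * (3 * 2 ^ 0) + 1) ≤ Real.log 7 := by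
    rw [Nat.cast_zero, zero_mul, zero_add] at d3
    exact d3
  have e0 : ((B * (U * z) : ℕ) : ℝ) = X := by rw [hX]
  have key : CH q (hvS D n i j X (D.Ψ i j)) (fun ω => (S ω, W ω)) ≤
      (Fintype.card G : ℝ) * (X * Real.log 2 + Real.log 7) +
        (((X : ℝ) - U * z) * Real.log 2 + Real.log 7 + (Real.log 7 +
          ((1 - h) * (U * z) * Real.log 2 + C₁ * z))) := by
    linarith
  have e1 : (fun ω => (S ω, W ω)) = fun ω => (S ω, (D.c i j ω, D.T ω)) := by rw [hW]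
  rw [e1] at key
  refine key.trans (le_of_sub_nonneg ?_)
  rw [← hcard]
  have e2 : (((Fintype.card G : ℝ) + 1) * X - h * (U * z)) * Real.log 2 +
      (C₁ * z + (n + 2) * Real.log 7) -
      ((Fintype.card G : ℝ) * (X * Real.log 2 + Real.log 7) +
        (((X : ℝ) - U * z) * Real.log 2 + Real.log 7 + (Real.log 7 +
          ((1 - h) * (U * z) * Real.log 2 + C₁ * z)))) =
      (n - (Fintype.card G : ℝ)) * Real.log 7 := by ring
  rw [e2]
  exact mul_nonneg (by linarith) d4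

end Pool.TT
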