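import Pool.Agent.H89.P4.H2f
import Pool.Agent.H98.P4.NF
import Pool.Agent.H5.TT.Few

/-!
# The heights of the picture are not full

`b1_pic`: in the picture `qh` of a place, the height of the group over the own sheet at the abstract
time is not full, given the abstract time and the context.
-/

set_option autoImplicit false

namespace Pool.TT

open Finset Real
open Pool.Agent.H49.Ent Pool.Agent.H32.Dense Pool.STK Pool.STAT Pool.MIC Pool.P4
open Pool.TT5 (CH_pfam)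
open Pool.BFL (Pb)

/-- The digits of the heights of the picture. -/
theorem dg_abs (X : ℕ) (x : ℝ) : |(dg X x : ℝ)| ≤ 2 ^ X := by
  have h := Pool.P4N.dg_bd X x
  exact h

/-- **(b1) for the picture.** -/
theorem b1_pic : ∀ (n K K' c k B : ℕ) (C₁ C : ℝ), 1 ≤ B → ∃ A : ℝ, 0 ≤ A ∧
    ∀ (D : NDat2) (J a₀ w₀ z M w i j r r' r'' y U : ℕ) (lam gam : ℕ → ℝ) (κ h ϖ : ℝ)
      (q : D.Ω → ℝ) (E : D.Ω → Prop) (P : D.Γ × D.Γ → ℕ → PN) (S : D.Ω → ℕ → ℕ → ℝ)
      (ys : Fin k → ℕ) (gs : Fin c → ℕ) (n₀ : Fin c),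
      Hyp D n K K' J a₀ w₀ z M w i j r r' r'' y (B * U * z) lam gam κ C₁ C q E P S ys gs →
      D.NF n z M B gam h C₁ ϖ q → 0 < h → h ≤ 1 → ϖ ≤ 1 → gs n₀ = n → i + U ≤ M →
      (U : ℝ) ≤ gam n * (M - j) →
      CH q (qh (c := c) (k := k) D J w z i j r (B * U * z) C P S ys gs q).hgt
        (fun ω => ((qh (c := c) (k := k) D J w z i j r (B * U * z) C P S ys gs q).th ω,
          (qh (c := c) (k := k) D J w z i j r (B * U * z) C P S ys gs q).b ω)) ≤
        (c - h / B) * (B * U * z : ℕ) * Real.log 2 +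
          err A κ z (B * U * z) (Pb q (fun ω => ¬ E ω)) := by
  classical
  intro n K K' c k B C₁ C hB
  obtain ⟨A1, hA1, H1⟩ := Pool.P4N.nf_stmt n K K' c k B C₁ C hB
  obtain ⟨A2, hA2, H2⟩ := Pool.P4.h2 n K K' c k C₁ C
  have l7 : 0 ≤ Real.log 7 := Real.log_nonneg (by norm_num)
  refine ⟨A1 + A2 + c * Real.log 7, by positivity, ?_⟩
  intro D J a₀ w₀ z M w i j r r' r'' y U lam gam κ h ϖ q E P S ys gs n₀ H hNF hh hh1 hϖ hn₀ hU hU'
  have g1 := H1 D J a₀ w₀ z M w i j r r' r'' y U lam gam κ h ϖ q E P S ys gs n₀ H hNF hh hh1 hϖ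
    hn₀ hU hU'
  have g2 := H2 D J a₀ w₀ z M w i j r r' r'' y (B * U * z) lam gam κ q E P S ys gs H
  obtain ⟨X, hX⟩ : ∃ X, X = B * U * z := ⟨_, rfl⟩
  rw [← hX] at H g1 g2 ⊢
  have hp := H.ok.isLaw
  have h0 := hp.nonneg
  obtain ⟨b, hb⟩ : ∃ b, b = Pb q (fun ω => ¬ E ω) := ⟨_, rfl⟩
  have b0 : 0 ≤ b := hb ▸ Pb_nonneg h0 _
  rw [← hb] at g1 g2 ⊢
  obtain ⟨Q, hQ⟩ : ∃ Q, Q = qh (c := c) (k := k) D J w z i j r X C P S ys gs q := ⟨_, rfl⟩
  obtain ⟨V, hV⟩ : ∃ V : D.Ω → (((D.Γ × D.Γ) × ℕ) × ((Fin k → ℤ) × (Fin c → ℤ))) ×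
      ((((D.Γ × D.Γ) × ℕ) × (ℕ × (Fin c → Fin k → ℤ))) × ((D.Γ × D.Γ) × ℕ)), V = fun ω =>
      (vv D J w z i j r X C P ys gs ω, (tv D J w z i j r X C S ys gs ω, cb D J w i j r ω)) :=
    ⟨_, rfl⟩
  obtain ⟨R, hR⟩ : ∃ R : D.Ω → {u : Fin c // u ≠ n₀} → ℤ, R = fun ω u =>
      nuv D J w z i j r X C P gs ω u.1 := ⟨_, rfl⟩
  obtain ⟨N, hN⟩ : ∃ N : D.Ω → ℤ, N = fun ω => nuv D J w z i j r X C P gs ω n₀ := ⟨_, rfl⟩
  -- the heights given the line
  have a1 : CH q (qh (c := c) (k := k) D J w z i j r X C P S ys gs q).hgt V ≤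
      CH q (fun ω => (N ω, R ω)) V := by
    refine CH_mono_left h0 fun ω ω' _ _ e => ?_
    rw [hV, hN, hR] at e
    simp only [Prod.mk.injEq] at e
    obtain ⟨⟨e1, e2⟩, e3, e4, -⟩ := e
    have e5 : nuv D J w z i j r X C P gs ω = nuv D J w z i j r X C P gs ω' := by
      funext u
      by_cases hu : u = n₀
      · rw [hu]
        exact e1
      · exact congrFun e2 ⟨u, hu⟩
    show (qh (c := c) (k := k) D J w z i j r X C P S ys gs q).nu ω +
      (qh (c := c) (k := k) D J w z i j r X C P S ys gs q).g (tv D J w z i j r X C S ys gs ω)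
        (vv D J w z i j r X C P ys gs ω) =
      (qh (c := c) (k := k) D J w z i j r X C P S ys gs q).nu ω' +
      (qh (c := c) (k := k) D J w z i j r X C P S ys gs q).g (tv D J w z i j r X C S ys gs ω')
        (vv D J w z i j r X C P ys gs ω')
    rw [e3, e4]
    have e6 : (qh (c := c) (k := k) D J w z i j r X C P S ys gs q).nu ω =
        (qh (c := c) (k := k) D J w z i j r X C P S ys gs q).nu ω' := e5
    rw [e6]
  have a2 := CH_chain h0 N R V
  have hc : Fintype.card {u : Fin c // u ≠ n₀} + 1 = c := by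
    have h1 : Fintype.card {u : Fin c // u ≠ n₀} = c - 1 := by
      rw [Fintype.card_subtype_compl, Fintype.card_fin, Fintype.card_unique]
    have h2 : 0 < c := n₀.pos
    omega
  have hc' : (Fintype.card {u : Fin c // u ≠ n₀} : ℝ) = c - 1 := by
    have : ((Fintype.card {u : Fin c // u ≠ n₀} + 1 : ℕ) : ℝ) = c := by rw [hc]
    push_cast at this
    linarith
  have a3 : CH q R V ≤ Fintype.card {u : Fin c // u ≠ n₀} * Real.log (2 * (3 * 2 ^ X) + 1) := by
    refine CH_pfam hp.nonneg hp.sum_one _ _ (by positivity) fun ω ω' _ _ _ u => ?_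
    rw [hR]
    have e1 := dg_abs X (z0 D J w i j r P ω (gs u) / Rg z C)
    have e2 := dg_abs X (z0 D J w i j r P ω' (gs u) / Rg z C)
    have p0 : (0 : ℝ) < 2 ^ X := by positivity
    refine (abs_sub _ _).trans ?_
    have e3 : |((nuv D J w z i j r X C P gs ω u.1 : ℤ) : ℝ)| ≤ 2 ^ X := e1
    have e4 : |((nuv D J w z i j r X C P gs ω' u.1 : ℤ) : ℝ)| ≤ 2 ^ X := e2
    linarith
  have a4 : Real.log (2 * (3 * 2 ^ X) + 1) ≤ X * Real.log 2 + Real.log 7 := by
    have p0 : (1 : ℝ) ≤ 2 ^ X := one_le_pow₀ (by norm_num)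
    rw [← Real.log_pow, ← Real.log_mul (by positivity) (by norm_num)]
    refine Real.log_le_log (by positivity) ?_
    linarith
  have a5 : CH q N (fun ω => (R ω, V ω)) ≤ (1 - h / B) * (X : ℕ) * Real.log 2 + err A1 κ z X b := by
    rw [hN, hR, hV]
    exact g1
  have g2' : CH q (qh (c := c) (k := k) D J w z i j r X C P S ys gs q).hgt
      (fun ω => ((qh (c := c) (k := k) D J w z i j r X C P S ys gs q).th ω,
          (qh (c := c) (k := k) D J w z i j r X C P S ys gs q).b ω)) ≤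
      CH q (qh (c := c) (k := k) D J w z i j r X C P S ys gs q).hgt V + err A2 κ z X b := by
    rw [hV]
    exact g2
  rw [hc'] at a3
  have hc1 : (1 : ℝ) ≤ c := by exact_mod_cast n₀.pos
  have a6 : CH q R V ≤ (c - 1) * (X * Real.log 2 + Real.log 7) :=
    a3.trans (mul_le_mul_of_nonneg_left a4 (by linarith))
  have hz1 : (1 : ℝ) ≤ z := by exact_mod_cast H.z1
  have hκ := H.κ0
  have e1 : (c : ℝ) * Real.log 7 * 1 ≤ c * Real.log 7 * ((1 + κ) * z + X * b) := by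
    refine mul_le_mul_of_nonneg_left ?_ (by positivity)
    have : 0 ≤ κ * z := by positivity
    have : 0 ≤ (X : ℝ) * b := by positivity
    linarith
  unfold err at a5 g2' ⊢
  nlinarith

end Pool.TT
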