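import Pool.Agent.H48.TC.Stm
import Pool.Agent.H98.P4.NF
import Pool.Agent.H5.TT.Few

/-!
# TC: the heights over the own sheets are not full

`nf_tc`: the height `hv` of the group over the own sheet is not full, given the data of the slow
coordinates and the abstract time. `b1_tc`: given the abstract time.
-/

set_option autoImplicit false

namespace Pool.TC12

open Finset Real
open Pool.Agent.H49.Ent Pool.Agent.H32.Dense Pool.STK Pool.STAT Pool.MIC Pool.TC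
open Pool.P4 (t0 rt bb ze z0 cl1 dg dgp Ry cb err)
open Pool.P4N (cl1_eq cl1_bd fl_sub fl_eq dg_bd dg_eq dgp_eq rt_bd rt_T few_ev CH_one_low
  cond_true nd_div sh_bd Ry_one log_4X)
open Pool.TT5 (CH_pfam)
open Pool.BFL (Pb)

variable {D : NDat2} {n d K K' J a₀ w₀ z M w i j r r2 r' r'' y a X : ℕ} {th : ℝ}
  {lam gam : ℕ → ℝ} {κ C₁ C : ℝ} {q : D.Ω → ℝ} {E : D.Ω → Prop} {P : D.Γ × D.Γ → ℕ → PN}
  {S : Slo D} {c k0 k1 : ℕ} {ys : Fin (k0 + k1) → ℕ} {gs : Fin c → ℕ}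

/-! ### Digits -/

theorem dgm_bd (X : ℕ) {m : ℝ} (hm : 0 ≤ m) (hm1 : ∃ m' : ℕ, m = m') (x : ℝ) :
    |(dgm X m x : ℝ)| ≤ 2 ^ X * m := by
  obtain ⟨m', rfl⟩ := hm1
  obtain ⟨h1, h2⟩ := cl1_bd (x / m')
  have hp : (0 : ℝ) < 2 ^ X := by positivity
  have h5 : (m' : ℝ) * cl1 (x / m') ≤ m' := by nlinarith
  have h6 : -(m' : ℝ) ≤ m' * cl1 (x / m') := by nlinarith
  have h3 : (2 : ℝ) ^ X * (m' * cl1 (x / m')) ≤ 2 ^ X * m' := mul_le_mul_of_nonneg_left h5 hp.le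
  have h4 : -((2 : ℝ) ^ X * m') ≤ 2 ^ X * (m' * cl1 (x / m')) := by
    rw [← mul_neg]
    exact mul_le_mul_of_nonneg_left h6 hp.le
  unfold dgm
  rw [abs_le]
  constructor
  · have : (-((2 : ℤ) ^ X * m')) ≤ ⌊(2 : ℝ) ^ X * (m' * cl1 (x / m'))⌋ := by
      rw [Int.le_floor]
      push_cast
      exact h4
    have h7 : ((-((2 : ℤ) ^ X * m') : ℤ) : ℝ) ≤ (⌊(2 : ℝ) ^ X * (m' * cl1 (x / m'))⌋ : ℝ) := by
      exact_mod_cast this
    push_cast at h7
    exact h7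
  · exact (Int.floor_le _).trans h3

theorem dgm_fl (X : ℕ) {m x : ℝ} (hm : 0 < m) (hx : |x| ≤ m) :
    dgm X m x = ⌊(2 : ℝ) ^ X * x⌋ := by
  unfold dgm
  rw [cl1_eq (by rwa [abs_div, abs_of_pos hm, div_le_one hm]), mul_div_cancel₀ _ hm.ne']

/-! ### Slow coordinates -/

theorem card_sl (H : Pool.TC.Hyp D n d K K' J a₀ w₀ z M w i j r r2 r' r'' y a X th lam gam κ C₁ C
    q E P S ys gs) [DecidablePred (sl th gam n)] :
    ((range n).filter (sl th gam n)).card ≤ k0 + k1 := by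
  classical
  have h1 : (range n).filter (sl th gam n) ⊆ univ.image ys := by
    intro l hl
    obtain ⟨b, hb⟩ := H.ys_on (mem_filter.1 hl).2
    exact mem_image.2 ⟨b, mem_univ _, hb⟩
  exact (card_le_card h1).trans (card_image_le.trans (by rw [card_univ, Fintype.card_fin]))

theorem tau_X (H : Pool.TC.Hyp D n d K K' J a₀ w₀ z M w i j r r2 r' r'' y a X th lam gam κ C₁ C
    q E P S ys gs) : exp (C * z) / 2 ^ (y * z) ≤ ((2 : ℝ) ^ X)⁻¹ := by
  have hp : (0 : ℝ) < 2 ^ X := by positivity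
  rw [div_le_iff₀ (by positivity), inv_mul_eq_div, le_div_iff₀ hp]
  exact H.yX

/-- The slow coordinates at the exact time are determined by the data. -/
theorem slow_near (H : Pool.TC.Hyp D n d K K' J a₀ w₀ z M w i j r r2 r' r'' y a X th lam gam κ C₁
    C q E P S ys gs) {ω ω' : D.Ω} (h1 : 0 < q ω) (h2 : 0 < q ω') (hE : E ω) (hE' : E ω')
    (hT : D.T ω = D.T ω') (hy : yv D J w z i j r X C P ys ω = yv D J w z i j r X C P ys ω')
    (hm : mv (k0 := k0) (k1 := k1) D J w z i j r d X C P ys ω =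
      mv (k0 := k0) (k1 := k1) D J w z i j r d X C P ys ω') {l : ℕ} (hl : sl th gam n l) :
    |ze D i j r P ω l - ze D i j r P ω' l| ≤ (4 + 2 * d) * Ry z C * ((2 : ℝ) ^ X)⁻¹ := by
  have hC0 : 0 ≤ C := by linarith [H.Cg]
  have hRy := Ry_one hC0 z
  have hi : (0 : ℝ) < ((2 : ℝ) ^ X)⁻¹ := by positivity
  have hτ := tau_X H
  have hg := H.geo
  have hw := H.w1
  have hw' := H.w2
  have hR2 : 0 < 2 * Ry z C := by linarith
  obtain ⟨b, hb⟩ := H.ys_on hl
  have hl1 : 1 ≤ l := hl.1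
  have hln : l ≤ n := hl.2.1.le
  have b1 := (hg.bt ω h1 hE l hl1 hln w hw hw').1
  have b2 := (hg.bt ω' h2 hE' l hl1 hln w hw hw').1
  change |z0 D J w i j r P ω l| ≤ Ry z C at b1
  change |z0 D J w i j r P ω' l| ≤ Ry z C at b2
  have hy' := congrFun hy b
  unfold yv at hy'
  rw [hb] at hy'
  obtain ⟨c1, c2⟩ := abs_le.1 b1
  obtain ⟨d1, d2⟩ := abs_le.1 b2
  have e3 := dgp_eq (div_nonneg (by linarith) hR2.le) ((div_le_one hR2).2 (by linarith))
    (div_nonneg (by linarith) hR2.le) ((div_le_one hR2).2 (by linarith)) hy'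
  rw [← sub_div, abs_div, abs_of_pos hR2, div_le_iff₀ hR2] at e3
  have e4 : z0 D J w i j r P ω l + Ry z C - (z0 D J w i j r P ω' l + Ry z C) =
    z0 D J w i j r P ω l - z0 D J w i j r P ω' l := by ring
  rw [e4] at e3
  have hd0 : (0 : ℝ) ≤ d := Nat.cast_nonneg d
  rcases (sl_iff l).1 hl with h0 | h0
  · have e1 := (hg.slow0 ω h1 hE l h0 w hw hw').1
    have e2 := (hg.slow0 ω' h2 hE' l h0 w hw hw').1
    have e5 : |ze D i j r P ω l - ze D i j r P ω' l| ≤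
        |ze D i j r P ω l - z0 D J w i j r P ω l| +
        |z0 D J w i j r P ω l - z0 D J w i j r P ω' l| +
        |ze D i j r P ω' l - z0 D J w i j r P ω' l| := by
      rw [abs_sub_comm (ze D i j r P ω' l) (z0 D J w i j r P ω' l)]
      calc |ze D i j r P ω l - ze D i j r P ω' l| =
          |(ze D i j r P ω l - z0 D J w i j r P ω l) +
            (z0 D J w i j r P ω l - z0 D J w i j r P ω' l) +
            (z0 D J w i j r P ω' l - ze D i j r P ω' l)| := by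
            congr 1
            ring
        _ ≤ _ := abs_add_three _ _ _
    have e6 : 0 ≤ (2 * d) * Ry z C * ((2 : ℝ) ^ X)⁻¹ := by positivity
    have e7 : 2 * ((2 : ℝ) ^ X)⁻¹ ≤ 2 * Ry z C * ((2 : ℝ) ^ X)⁻¹ := by
      nlinarith only [hRy, hi]
    linarith
  · obtain ⟨b', hb'⟩ := H.ys_on1 l h0
    have e1 := hg.path ω h1 hE l hl1 hln w hw hw'
    have e2 := hg.path ω' h2 hE' l hl1 hln w hw hw'
    have x1 := H.ok.X_zero ω
    have x2 := H.ok.X_zero ω'
    have hwJ : w ≤ J := by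
      have := H.ok.thin
      have := H.ok.top
      have h3 : (j + 1) * z ≤ (M + 1) * z := Nat.mul_le_mul_right _ (by have := H.j2; omega)
      omega
    obtain ⟨r0, r1⟩ := rt_bd hwJ x1
    have rr := rt_T (J := J) (w := w) x1 x2 hT
    rw [← rr] at e2
    have e5 : |∑ s ∈ Finset.Icc 1 d, rt D J w ω ^ s * bs D J w i j r d P s ω l -
        ∑ s ∈ Finset.Icc 1 d, rt D J w ω ^ s * bs D J w i j r d P s ω' l| ≤
        d * (2 * Ry z C * ((2 : ℝ) ^ X)⁻¹) := by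
      rw [← Finset.sum_sub_distrib]
      refine (Finset.abs_sum_le_sum_abs _ _).trans ?_
      have hcard : ((Finset.Icc 1 d).card : ℝ) = d := by
        rw [Nat.card_Icc]
        simp
      rw [← hcard, ← nsmul_eq_mul]
      refine Finset.sum_le_card_nsmul _ _ _ fun s hs => ?_
      obtain ⟨s1, s2⟩ := Finset.mem_Icc.1 hs
      have f1 := (hg.bt ω h1 hE l hl1 hln w hw hw').2 s s1 s2
      have f2 := (hg.bt ω' h2 hE' l hl1 hln w hw hw').2 s s1 s2
      change |bs D J w i j r d P s ω l| ≤ Ry z C at f1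
      change |bs D J w i j r d P s ω' l| ≤ Ry z C at f2
      have f3 := congrFun (congrFun hm b') ⟨s - 1, by omega⟩
      unfold mv at f3
      simp only [Nat.sub_add_cancel s1] at f3
      rw [hb'] at f3
      have hdiv : ∀ x : ℝ, |x| ≤ Ry z C → |x / (2 * Ry z C)| ≤ 1 := by
        intro x hx
        rw [abs_div, abs_of_pos hR2, div_le_one hR2]
        linarith
      have f4 := dg_eq (hdiv _ f1) (hdiv _ f2) f3
      rw [← sub_div, abs_div, abs_of_pos hR2, div_le_iff₀ hR2] at f4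
      rw [← mul_sub, abs_mul, abs_of_nonneg (pow_nonneg r0 s)]
      calc rt D J w ω ^ s * |bs D J w i j r d P s ω l - bs D J w i j r d P s ω' l| ≤
          1 * |bs D J w i j r d P s ω l - bs D J w i j r d P s ω' l| :=
            mul_le_mul_of_nonneg_right (pow_le_one₀ r0 r1) (abs_nonneg _)
        _ ≤ _ := by
          rw [one_mul]
          refine f4.trans (le_of_eq ?_)
          ring
    obtain ⟨f1, f2⟩ := abs_le.1 e1
    obtain ⟨f3, f4⟩ := abs_le.1 e2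
    obtain ⟨f5, f6⟩ := abs_le.1 e3
    obtain ⟨f7, f8⟩ := abs_le.1 e5
    have e7 : 2 * ((2 : ℝ) ^ X)⁻¹ ≤ 2 * Ry z C * ((2 : ℝ) ^ X)⁻¹ := by
      nlinarith only [hRy, hi]
    rw [abs_le]
    constructor <;> linarith

/-- The products of the own slopes and the slow coordinates. -/
theorem prod_near (H : Pool.TC.Hyp D n d K K' J a₀ w₀ z M w i j r r2 r' r'' y a X th lam gam κ C₁
    C q E P S ys gs) {ω ω' : D.Ω} (h1 : 0 < q ω) (h2 : 0 < q ω') (hE : E ω) (hE' : E ω')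
    (hT : D.T ω = D.T ω') (hy : yv D J w z i j r X C P ys ω = yv D J w z i j r X C P ys ω')
    (hm : mv (k0 := k0) (k1 := k1) D J w z i j r d X C P ys ω =
      mv (k0 := k0) (k1 := k1) D J w z i j r d X C P ys ω')
    (hS : Sv D z X C S ys gs ω = Sv D z X C S ys gs ω') (u : Fin c)
    [DecidablePred (sl th gam n)] :
    |∑ k ∈ (range n).filter (sl th gam n), S.S ω (gs u) k * ze D i j r P ω k -
      ∑ k ∈ (range n).filter (sl th gam n), S.S ω' (gs u) k * ze D i j r P ω' k| ≤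
      ((k0 + k1 : ℕ) : ℝ) * ((5 + 2 * d) * (Ry z C * Ry z C) * ((2 : ℝ) ^ X)⁻¹) := by
  have hC0 : 0 ≤ C := by linarith [H.Cg]
  have hRy := Ry_one hC0 z
  have hi : (0 : ℝ) < ((2 : ℝ) ^ X)⁻¹ := by positivity
  have hg := H.geo
  have hR2 : 0 < 2 * Ry z C := by linarith
  have hRg : Rg z C = 2 * (Ry z C * Ry z C) := Pool.P4N.Rg_eq z C
  have hRg0 : 0 < Rg z C := by
    rw [hRg]
    positivity
  rw [← Finset.sum_sub_distrib]
  refine (Finset.abs_sum_le_sum_abs _ _).trans ?_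
  have hcard : (((range n).filter (sl th gam n)).card : ℝ) ≤ ((k0 + k1 : ℕ) : ℝ) := by
    exact_mod_cast card_sl H
  refine le_trans ?_ (mul_le_mul_of_nonneg_right hcard (by positivity))
  rw [← nsmul_eq_mul]
  refine Finset.sum_le_card_nsmul _ _ _ fun k hk => ?_
  have hl : sl th gam n k := (mem_filter.1 hk).2
  obtain ⟨b, hb⟩ := H.ys_on hl
  have e1 := slow_near H h1 h2 hE hE' hT hy hm hl
  have e2 : |S.S ω (gs u) k| ≤ Ry z C := hg.bS ω (gs u) k
  have e3 : |S.S ω' (gs u) k| ≤ Ry z C := hg.bS ω' (gs u) k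
  have e4 : |ze D i j r P ω' k| ≤ Ry z C := hg.bz ω' h2 hE' k hl.1 hl.2.1.le
  have e5 := congrFun (congrFun hS u) b
  unfold Sv at e5
  rw [hb] at e5
  have hdiv : ∀ x : ℝ, |x| ≤ Ry z C → |x * (2 * Ry z C) / Rg z C| ≤ 1 := by
    intro x hx
    rw [abs_div, abs_of_pos hRg0, div_le_one hRg0, abs_mul, abs_of_pos hR2, hRg]
    nlinarith
  have e6 := dg_eq (hdiv _ e2) (hdiv _ e3) e5
  have e7 : S.S ω (gs u) k * (2 * Ry z C) / Rg z C - S.S ω' (gs u) k * (2 * Ry z C) / Rg z C =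
      (S.S ω (gs u) k - S.S ω' (gs u) k) / Ry z C := by
    rw [hRg]
    field_simp
  have hRp : 0 < Ry z C := by linarith
  rw [e7, abs_div, abs_of_pos hRp, div_le_iff₀ hRp] at e6
  have e8 : S.S ω (gs u) k * ze D i j r P ω k - S.S ω' (gs u) k * ze D i j r P ω' k =
      S.S ω (gs u) k * (ze D i j r P ω k - ze D i j r P ω' k) +
        (S.S ω (gs u) k - S.S ω' (gs u) k) * ze D i j r P ω' k := by ring
  rw [e8]
  refine (abs_add_le _ _).trans ?_
  rw [abs_mul, abs_mul]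
  have f1 := mul_le_mul e2 e1 (abs_nonneg _) hRp.le
  have f2 := mul_le_mul e6 e4 (abs_nonneg _) (by positivity)
  nlinarith only [f1, f2]

/-- The size of the own height. -/
theorem nn_bd (H : Pool.TC.Hyp D n d K K' J a₀ w₀ z M w i j r r2 r' r'' y a X th lam gam κ C₁
    C q E P S ys gs) {ω : D.Ω} (h1 : 0 < q ω) (hE : E ω) (u : Fin c) :
    |nn D n i j r th gam P S.S ω (gs u) / Rg z C| ≤ ((k0 + k1 + 1 : ℕ) : ℝ) := by
  classical
  have hC0 : 0 ≤ C := by linarith [H.Cg]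
  have hRy := Ry_one hC0 z
  have hRg : Rg z C = 2 * (Ry z C * Ry z C) := Pool.P4N.Rg_eq z C
  have hRg0 : 0 < Rg z C := by
    rw [hRg]
    positivity
  have hRp : 0 < Ry z C := by linarith
  obtain ⟨g1, g2, g3⟩ := H.gs_gr u
  have e1 : |ze D i j r P ω (gs u)| ≤ Ry z C := H.geo.bz ω h1 hE _ g1 g2
  have e2 : |∑ k ∈ (range n).filter (sl th gam n), S.S ω (gs u) k * ze D i j r P ω k| ≤
      ((k0 + k1 : ℕ) : ℝ) * (Ry z C * Ry z C) := by
    refine (Finset.abs_sum_le_sum_abs _ _).trans ?_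
    have hcard : (((range n).filter (sl th gam n)).card : ℝ) ≤ ((k0 + k1 : ℕ) : ℝ) := by
      exact_mod_cast card_sl H
    refine le_trans ?_ (mul_le_mul_of_nonneg_right hcard (by positivity))
    rw [← nsmul_eq_mul]
    refine Finset.sum_le_card_nsmul _ _ _ fun k hk => ?_
    have hl : sl th gam n k := (mem_filter.1 hk).2
    have e2 : |S.S ω (gs u) k| ≤ Ry z C := H.geo.bS ω (gs u) k
    have e4 : |ze D i j r P ω k| ≤ Ry z C := H.geo.bz ω h1 hE k hl.1 hl.2.1.le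
    rw [abs_mul]
    exact mul_le_mul e2 e4 (abs_nonneg _) hRp.le
  have e3 : nn D n i j r th gam P S.S ω (gs u) = ze D i j r P ω (gs u) -
      ∑ k ∈ (range n).filter (sl th gam n), S.S ω (gs u) k * ze D i j r P ω k := by
    unfold nn hs
    refine congrArg _ (Finset.sum_congr ?_ fun _ _ => rfl)
    ext l
    simp only [mem_filter]
  rw [abs_div, abs_of_pos hRg0, div_le_iff₀ hRg0, e3, hRg]
  refine (abs_sub _ _).trans ?_
  push_cast at e2 ⊢
  have e4 : Ry z C ≤ Ry z C * Ry z C := by nlinarith only [hRy]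
  have e5 : 0 ≤ ((k0 : ℝ) + k1) * (Ry z C * Ry z C) := by positivity
  nlinarith only [e1, e2, e4, e5]

/-- The own height up to the products. -/
theorem nn_eq (ω : D.Ω) (u : ℕ) [DecidablePred (sl th gam n)] :
    nn D n i j r th gam P S.S ω u = ze D i j r P ω u -
      ∑ k ∈ (range n).filter (sl th gam n), S.S ω u k * ze D i j r P ω k := by
  unfold nn hs
  refine congrArg _ (Finset.sum_congr ?_ fun _ _ => rfl)
  ext l
  simp only [mem_filter]

/-- The coordinates of the group from the own heights. -/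
theorem ze_near (H : Pool.TC.Hyp D n d K K' J a₀ w₀ z M w i j r r2 r' r'' y a X th lam gam κ C₁
    C q E P S ys gs) {ω ω' : D.Ω} (h1 : 0 < q ω) (h2 : 0 < q ω') (hE : E ω) (hE' : E ω')
    (hT : D.T ω = D.T ω') (hy : yv D J w z i j r X C P ys ω = yv D J w z i j r X C P ys ω')
    (hm : mv (k0 := k0) (k1 := k1) D J w z i j r d X C P ys ω =
      mv (k0 := k0) (k1 := k1) D J w z i j r d X C P ys ω')
    (hS : Sv D z X C S ys gs ω = Sv D z X C S ys gs ω') (u₀ : ℕ)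
    (hh : ∀ u, gs u ≠ u₀ → hv (k0 := k0) (k1 := k1) D z i j r X C P S gs n th gam ω u =
      hv (k0 := k0) (k1 := k1) D z i j r X C P S gs n th gam ω' u)
    {l : ℕ} (hl1 : 1 ≤ l) (hln : l ≤ n) (hl0 : l ≠ u₀) :
    |ze D i j r P ω l - ze D i j r P ω' l| ≤
      (1 + k0 + k1) * (5 + 2 * d) * (Ry z C * Ry z C) * ((2 : ℝ) ^ X)⁻¹ := by
  classical
  have hC0 : 0 ≤ C := by linarith [H.Cg]
  have hRy := Ry_one hC0 z
  have hi : (0 : ℝ) < ((2 : ℝ) ^ X)⁻¹ := by positivity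
  have hRg : Rg z C = 2 * (Ry z C * Ry z C) := Pool.P4N.Rg_eq z C
  have hRp : 0 < Ry z C := by linarith
  have hRg0 : 0 < Rg z C := by
    rw [hRg]
    positivity
  have hd0 : (0 : ℝ) ≤ d := Nat.cast_nonneg d
  have hk0 : (0 : ℝ) ≤ k0 := Nat.cast_nonneg k0
  have hk1 : (0 : ℝ) ≤ k1 := Nat.cast_nonneg k1
  by_cases hs : sl th gam n l
  · refine (slow_near H h1 h2 hE hE' hT hy hm hs).trans ?_
    refine mul_le_mul_of_nonneg_right ?_ hi.le
    have e1 : Ry z C ≤ Ry z C * Ry z C := by nlinarith only [hRy]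
    have e2 : (4 + 2 * (d : ℝ)) ≤ (1 + k0 + k1) * (5 + 2 * d) := by
      nlinarith only [hd0, hk0, hk1, mul_nonneg hk0 hd0, mul_nonneg hk1 hd0]
    exact mul_le_mul e2 e1 hRp.le (by positivity)
  · have hg1 : gr th gam n l := by
      refine ⟨hl1, hln, ?_⟩
      by_contra hcon
      push Not at hcon
      refine hs ⟨hl1, lt_of_le_of_ne hln ?_, hcon⟩
      intro hln'
      rw [hln'] at hcon
      exact absurd hcon (not_lt.2 H.plc.stp.gn)
    obtain ⟨u, hu⟩ := H.gs_on l hg1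
    have n1 := hh u (by rw [hu]; exact hl0)
    have m0 : (0 : ℝ) < ((k0 + k1 + 1 : ℕ) : ℝ) := by positivity
    unfold hv at n1
    rw [dgm_fl X m0 (nn_bd H h1 hE u), dgm_fl X m0 (nn_bd H h2 hE' u)] at n1
    have n2 := fl_eq n1
    rw [← mul_sub, abs_mul, abs_of_pos (by positivity : (0 : ℝ) < 2 ^ X), ← sub_div, abs_div,
      abs_of_pos hRg0] at n2
    have n3 : |nn D n i j r th gam P S.S ω (gs u) - nn D n i j r th gam P S.S ω' (gs u)| ≤
        Rg z C * ((2 : ℝ) ^ X)⁻¹ := by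
      rw [← div_eq_mul_inv, le_div_iff₀ (by positivity)]
      have : (2 : ℝ) ^ X * (|nn D n i j r th gam P S.S ω (gs u) -
          nn D n i j r th gam P S.S ω' (gs u)| / Rg z C) * Rg z C ≤ 1 * Rg z C :=
        mul_le_mul_of_nonneg_right n2 hRg0.le
      rw [mul_assoc, div_mul_cancel₀ _ hRg0.ne'] at this
      linarith
    rw [hu] at n3
    have n4 := prod_near H h1 h2 hE hE' hT hy hm hS u
    rw [hu] at n4
    rw [nn_eq, nn_eq] at n3
    push_cast at n4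
    rw [hRg] at n3
    obtain ⟨f1, f2⟩ := abs_le.1 n3
    obtain ⟨f3, f4⟩ := abs_le.1 n4
    have e6 : 2 * (Ry z C * Ry z C) * ((2 : ℝ) ^ X)⁻¹ ≤
        (5 + 2 * d) * (Ry z C * Ry z C) * ((2 : ℝ) ^ X)⁻¹ := by
      refine mul_le_mul_of_nonneg_right (mul_le_mul_of_nonneg_right ?_ (by positivity)) hi.le
      linarith
    have e7 : (1 + (k0 : ℝ) + k1) * (5 + 2 * d) * (Ry z C * Ry z C) * ((2 : ℝ) ^ X)⁻¹ =
        (5 + 2 * d) * (Ry z C * Ry z C) * ((2 : ℝ) ^ X)⁻¹ +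
        ((k0 : ℝ) + k1) * ((5 + 2 * d) * (Ry z C * Ry z C) * ((2 : ℝ) ^ X)⁻¹) := by ring
    rw [e7, abs_le]
    constructor <;> linarith

/-- The constant. -/
noncomputable def cK (k0 k1 d : ℕ) : ℝ := (1 + k0 + k1) * (5 + 2 * d)

theorem cK_one (k0 k1 d : ℕ) : 5 ≤ cK k0 k1 d := by
  unfold cK
  have hd0 : (0 : ℝ) ≤ d := Nat.cast_nonneg d
  have hk0 : (0 : ℝ) ≤ k0 := Nat.cast_nonneg k0
  have hk1 : (0 : ℝ) ≤ k1 := Nat.cast_nonneg k1
  nlinarith only [hd0, hk0, hk1, mul_nonneg hk0 hd0, mul_nonneg hk1 hd0]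

/-- The heights of the base over the visible labels. -/
theorem sh_near (H : Pool.TC.Hyp D n d K K' J a₀ w₀ z M w i j r r2 r' r'' y a X th lam gam κ C₁
    C q E P S ys gs) {ω ω' : D.Ω} (h1 : 0 < q ω) (h2 : 0 < q ω') (hE : E ω) (hE' : E ω')
    (hb : cb D J w i j r ω = cb D J w i j r ω')
    (hT : D.T ω = D.T ω') (hy : yv D J w z i j r X C P ys ω = yv D J w z i j r X C P ys ω')
    (hm : mv (k0 := k0) (k1 := k1) D J w z i j r d X C P ys ω =
      mv (k0 := k0) (k1 := k1) D J w z i j r d X C P ys ω')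
    (hS : Sv D z X C S ys gs ω = Sv D z X C S ys gs ω')
    (hh : ∀ u, gs u ≠ n → hv (k0 := k0) (k1 := k1) D z i j r X C P S gs n th gam ω u =
      hv (k0 := k0) (k1 := k1) D z i j r X C P S gs n th gam ω' u)
    {l : ℕ} (hl1 : 1 ≤ l) (hln : l < n) :
    |2 ^ D.g i j l * D.sh i j ω l - 2 ^ D.g i j l * D.sh i j ω' l| ≤
      Ry z C * (cK k0 k1 d * (Ry z C * Ry z C) * ((2 : ℝ) ^ X)⁻¹) := by
  have hbb : bb D i j r ω = bb D i j r ω' := (Prod.ext_iff.1 hb).1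
  have hC0 : 0 ≤ C := by linarith [H.Cg]
  have hRy := Ry_one hC0 z
  have hc := cK_one k0 k1 d
  refine H.geo.toV ω ω' h1 h2 hE hE' hbb hT l hl1 hln.le _ (by positivity) fun k hk1 hkl => ?_
  exact ze_near H h1 h2 hE hE' hT hy hm hS n hh hk1 (hkl.trans hln.le) (by omega)

/-- The height of the target is determined by the data and by its height over the visible
label. -/
theorem hv_near (H : Pool.TC.Hyp D n d K K' J a₀ w₀ z M w i j r r2 r' r'' y a X th lam gam κ C₁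
    C q E P S ys gs) {ω ω' : D.Ω} (h1 : 0 < q ω) (h2 : 0 < q ω') (hE : E ω) (hE' : E ω')
    (hb : cb D J w i j r ω = cb D J w i j r ω')
    (hT : D.T ω = D.T ω') (hy : yv D J w z i j r X C P ys ω = yv D J w z i j r X C P ys ω')
    (hm : mv (k0 := k0) (k1 := k1) D J w z i j r d X C P ys ω =
      mv (k0 := k0) (k1 := k1) D J w z i j r d X C P ys ω')
    (hS : Sv D z X C S ys gs ω = Sv D z X C S ys gs ω')
    (hh : ∀ u, gs u ≠ n → hv (k0 := k0) (k1 := k1) D z i j r X C P S gs n th gam ω u =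
      hv (k0 := k0) (k1 := k1) D z i j r X C P S gs n th gam ω' u) {n₀ : Fin c}
    (hn : gs n₀ = n) (hnd : D.nd n i j X ω = D.nd n i j X ω') :
    |((hv (k0 := k0) (k1 := k1) D z i j r X C P S gs n th gam ω n₀ -
      hv (k0 := k0) (k1 := k1) D z i j r X C P S gs n th gam ω' n₀ : ℤ) : ℝ)| ≤
      2 * cK k0 k1 d * (Ry z C * Ry z C) := by
  classical
  have hC0 : 0 ≤ C := by linarith [H.Cg]
  have hRy := Ry_one hC0 z
  have hRg : Rg z C = 2 * (Ry z C * Ry z C) := Pool.P4N.Rg_eq z C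
  have hRp : 0 < Ry z C := by linarith
  have hRg0 : 0 < Rg z C := by
    rw [hRg]
    positivity
  have hp : (0 : ℝ) < 2 ^ X := by positivity
  have hi : (0 : ℝ) < ((2 : ℝ) ^ X)⁻¹ := by positivity
  have hpi : (2 : ℝ) ^ X * ((2 : ℝ) ^ X)⁻¹ = 1 := mul_inv_cancel₀ hp.ne'
  have hc := cK_one k0 k1 d
  obtain ⟨A, hA⟩ : ∃ A, A = cK k0 k1 d := ⟨_, rfl⟩
  have hbb : bb D i j r ω = bb D i j r ω' := (Prod.ext_iff.1 hb).1
  have k1' : |ze D i j r P ω n - ze D i j r P ω' n| ≤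
      Ry z C * (Ry z C * (A * (Ry z C * Ry z C) * ((2 : ℝ) ^ X)⁻¹)) := by
    refine H.geo.ofV ω ω' h1 h2 hE hE' hbb hT n H.n1 le_rfl _ (by
      rw [hA]
      positivity) fun k hk1 hkn => ?_
    rcases lt_or_eq_of_le hkn with hk | hk
    · rw [hA]
      exact sh_near H h1 h2 hE hE' hb hT hy hm hS hh hk1 hk
    · subst hk
      unfold NDat2.nd at hnd
      have e1 := fl_eq hnd
      rw [pow_add] at e1
      have e2 : (2 : ℝ) ^ D.g i j k * 2 ^ X * D.sh i j ω k -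
          2 ^ D.g i j k * 2 ^ X * D.sh i j ω' k =
          2 ^ X * (2 ^ D.g i j k * D.sh i j ω k - 2 ^ D.g i j k * D.sh i j ω' k) := by ring
      rw [e2, abs_mul, abs_of_pos hp] at e1
      have e3 : |2 ^ D.g i j k * D.sh i j ω k - 2 ^ D.g i j k * D.sh i j ω' k| ≤
          ((2 : ℝ) ^ X)⁻¹ := by
        rw [← one_div, le_div_iff₀ hp]
        linarith
      refine e3.trans ?_
      have e5 : 1 ≤ Ry z C * Ry z C := by nlinarith only [hRy]
      have e4 : 1 ≤ Ry z C * (A * (Ry z C * Ry z C)) := by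
        rw [← hA] at hc
        have e6 : 1 ≤ A * (Ry z C * Ry z C) := by nlinarith only [hc, e5]
        nlinarith only [e6, hRy]
      calc ((2 : ℝ) ^ X)⁻¹ = 1 * ((2 : ℝ) ^ X)⁻¹ := by ring
        _ ≤ (Ry z C * (A * (Ry z C * Ry z C))) * ((2 : ℝ) ^ X)⁻¹ :=
          mul_le_mul_of_nonneg_right e4 hi.le
        _ = _ := by ring
  have m0 : (0 : ℝ) < ((k0 + k1 + 1 : ℕ) : ℝ) := by positivity
  have n4 := prod_near H h1 h2 hE hE' hT hy hm hS n₀
  have hm1 := dgm_fl X m0 (nn_bd H h1 hE n₀)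
  have hm2 := dgm_fl X m0 (nn_bd H h2 hE' n₀)
  unfold hv
  rw [hm1, hm2]
  refine (fl_sub _ _).trans ?_
  rw [← mul_sub, abs_mul, abs_of_pos hp, ← sub_div, abs_div, abs_of_pos hRg0, nn_eq, nn_eq]
  rw [hn] at n4 ⊢
  have n5 : |ze D i j r P ω n - ∑ k ∈ (range n).filter (sl th gam n),
        S.S ω n k * ze D i j r P ω k - (ze D i j r P ω' n -
        ∑ k ∈ (range n).filter (sl th gam n), S.S ω' n k * ze D i j r P ω' k)| ≤
      Ry z C * (Ry z C * (A * (Ry z C * Ry z C) * ((2 : ℝ) ^ X)⁻¹)) +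
      ((k0 + k1 : ℕ) : ℝ) * ((5 + 2 * d) * (Ry z C * Ry z C) * ((2 : ℝ) ^ X)⁻¹) := by
    obtain ⟨f1, f2⟩ := abs_le.1 k1'
    obtain ⟨f3, f4⟩ := abs_le.1 n4
    rw [abs_le]
    constructor <;> linarith
  have hd0 : (0 : ℝ) ≤ d := Nat.cast_nonneg d
  have n6 : ((k0 + k1 : ℕ) : ℝ) * (5 + 2 * d) ≤ A := by
    rw [hA]
    unfold cK
    push_cast
    refine mul_le_mul_of_nonneg_right ?_ (by positivity)
    linarith
  rw [← hA] at hc ⊢
  obtain ⟨R2, hR2⟩ : ∃ R2, R2 = Ry z C * Ry z C := ⟨_, rfl⟩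
  have hR21 : 1 ≤ R2 := by
    rw [hR2]
    nlinarith only [hRy]
  have n7 : Ry z C * (Ry z C * (A * (Ry z C * Ry z C) * ((2 : ℝ) ^ X)⁻¹)) +
      ((k0 + k1 : ℕ) : ℝ) * ((5 + 2 * d) * (Ry z C * Ry z C) * ((2 : ℝ) ^ X)⁻¹) ≤
      (A * R2 + A) * R2 * ((2 : ℝ) ^ X)⁻¹ := by
    rw [← hR2]
    have e1 : Ry z C * (Ry z C * (A * R2 * ((2 : ℝ) ^ X)⁻¹)) = A * R2 * R2 * ((2 : ℝ) ^ X)⁻¹ := by
      rw [hR2]
      ring
    have e2 : ((k0 + k1 : ℕ) : ℝ) * ((5 + 2 * d) * R2 * ((2 : ℝ) ^ X)⁻¹) ≤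
        A * (R2 * ((2 : ℝ) ^ X)⁻¹) := by
      have : ((k0 + k1 : ℕ) : ℝ) * ((5 + 2 * d) * R2 * ((2 : ℝ) ^ X)⁻¹) =
        ((k0 + k1 : ℕ) : ℝ) * (5 + 2 * d) * (R2 * ((2 : ℝ) ^ X)⁻¹) := by ring
      rw [this]
      exact mul_le_mul_of_nonneg_right n6 (by positivity)
    rw [e1]
    nlinarith only [e2]
  have n8 := n5.trans n7
  have n9 : (2 : ℝ) ^ X * (|ze D i j r P ω n - ∑ k ∈ (range n).filter (sl th gam n),
        S.S ω n k * ze D i j r P ω k - (ze D i j r P ω' n -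
        ∑ k ∈ (range n).filter (sl th gam n), S.S ω' n k * ze D i j r P ω' k)| / Rg z C) ≤
      (A * R2 + A) / 2 := by
    rw [← mul_div_assoc, div_le_iff₀ hRg0, hRg, ← hR2]
    calc (2 : ℝ) ^ X * _ ≤ 2 ^ X * ((A * R2 + A) * R2 * ((2 : ℝ) ^ X)⁻¹) :=
          mul_le_mul_of_nonneg_left n8 hp.le
      _ = (2 ^ X * ((2 : ℝ) ^ X)⁻¹) * ((A * R2 + A) * R2) := by ring
      _ = (A * R2 + A) / 2 * (2 * R2) := by
          rw [hpi]
          ring
  refine (add_le_add_left n9 1).trans ?_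
  rw [← hR2]
  have hA0 : 0 ≤ A := by linarith
  nlinarith only [hc, hR21, mul_nonneg hA0 (sub_nonneg.2 hR21)]

end Pool.TC12
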