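import Pool.Agent.H48.TC.Def

/-!
# TC: the records `y` of a later place over the frame of the first place

`P` is a closed frame of the first place `(i₀, j)` of a column, `(i, j)` a later place. `hh` is the
height over this frame, `yl` the height over the value at a reference sample with the same context
`c i j` and the same exact time, in units of `(i, j)`.
-/

set_option autoImplicit false

namespace Pool.TC12

open Finset Real MvPolynomial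
open Pool.Agent.H49.Ent Pool.Agent.H32.Dense Pool.STK Pool.STAT Pool.MIC.Frm
open Pool.P4 (bb ze)

section defs

variable (D : NDat2) (i₀ i j r : ℕ) (P : D.Γ × D.Γ → ℕ → PN) (q : D.Ω → ℝ) (E : D.Ω → Prop)

/-- The height over the frame of the first place. -/
noncomputable def hh (ω : D.Ω) (l : ℕ) : ℝ := D.X ω l - eval (D.X ω) (P (bb D i₀ j r ω) l)

open Classical in
/-- The value at the reference sample. -/
noncomputable def yr (x : D.Γ × ℕ) (l : ℕ) : ℝ :=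
  if h : ∃ ω, 0 < q ω ∧ E ω ∧ (D.c i j ω, D.T ω) = x then hh D i₀ j r P h.choose l else 0

open Classical in
/-- **The record**, in units of `(i, j)`. -/
noncomputable def yl (ω : D.Ω) (l : ℕ) : ℝ :=
  if 0 < q ω ∧ E ω then
    2 ^ D.g i j l * (hh D i₀ j r P ω l - yr D i₀ i j r P q E (D.c i j ω, D.T ω) l)
  else 0

end defs

/-- The hypotheses on the first place and on a later place. -/
structure YH (D : NDat2) (n d K J a₀ w₀ z M i₀ i j r : ℕ) (lam gam : ℕ → ℝ) (κ C₁ C : ℝ)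
    (q : D.Ω → ℝ) (E : D.Ω → Prop) (P : D.Γ × D.Γ → ℕ → PN) : Prop where
  ok : D.Ok2 n K J a₀ w₀ z M lam gam κ C₁ q
  lam1 : ∀ l, 1 ≤ l → l ≤ n → lam l = 1
  C1 : 1 ≤ C₁
  C0 : 0 ≤ C
  z1 : 1 ≤ z
  i1 : 1 ≤ i₀
  ii : i₀ + r ≤ i + 1
  i0i : i₀ ≤ i
  iM : i < M
  jM : j ≤ M
  rj : r ≤ j
  dep : Pool.TC.Dep D n d J w₀ z M i₀ j r C q E P

variable {D : NDat2} {n d K J a₀ w₀ z M i₀ i j r : ℕ} {lam gam : ℕ → ℝ} {κ C₁ C : ℝ}
  {q : D.Ω → ℝ} {E : D.Ω → Prop} {P : D.Γ × D.Γ → ℕ → PN}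

theorem c_down (hO : D.Ok2 n K J a₀ w₀ z M lam gam κ C₁ q) {i j : ℕ} (hj : j ≤ M) (s : ℕ)
    (hi : i + s ≤ M) {ω ω' : D.Ω} (h1 : 0 < q ω) (h2 : 0 < q ω')
    (e : D.c (i + s) j ω = D.c (i + s) j ω') : D.c i j ω = D.c i j ω' := by
  induction s with
  | zero => simpa using e
  | succ s ih =>
    refine ih (by omega) ?_
    exact hO.c_i (i + s) (by omega) j hj ω ω' h1 h2 (by rw [Nat.add_assoc]; exact e)

theorem c_diag (hO : D.Ok2 n K J a₀ w₀ z M lam gam κ C₁ q) {i j : ℕ} (s : ℕ)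
    (hi : i + s ≤ M) (hj : j + s ≤ M) {ω ω' : D.Ω} (h1 : 0 < q ω) (h2 : 0 < q ω')
    (e : D.c (i + s) (j + s) ω = D.c (i + s) (j + s) ω') : D.c i j ω = D.c i j ω' := by
  induction s with
  | zero => simpa using e
  | succ s ih =>
    refine ih (by omega) (by omega) ?_
    exact hO.c_ij (i + s) (by omega) (j + s) (by omega) ω ω' h1 h2
      (by rw [Nat.add_assoc, Nat.add_assoc]; exact e)

/-- The context of a later place determines the context of the first place. -/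
theorem bb_det (hO : D.Ok2 n K J a₀ w₀ z M lam gam κ C₁ q) (hi0 : 1 ≤ i₀) (hii : i₀ + r ≤ i + 1)
    (h0i : i₀ ≤ i) (hiM : i ≤ M) (hjM : j ≤ M) (hrj : r ≤ j) {ω ω' : D.Ω} (h1 : 0 < q ω)
    (h2 : 0 < q ω') (e : D.c i j ω = D.c i j ω') : bb D i₀ j r ω = bb D i₀ j r ω' := by
  unfold Pool.P4.bb
  refine Prod.ext ?_ ?_
  · exact c_down hO hjM (i - i₀) (by omega) h1 h2 (by
      rw [Nat.add_sub_cancel' h0i]
      exact e)
  · have e1 : D.c (i₀ - 1 + r) j ω = D.c (i₀ - 1 + r) j ω' :=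
      c_down hO hjM (i - (i₀ - 1 + r)) (by omega) h1 h2 (by
        rw [show i₀ - 1 + r + (i - (i₀ - 1 + r)) = i by omega]
        exact e)
    exact c_diag hO r (by omega) (by omega) h1 h2 (by
      rw [Nat.sub_add_cancel hrj]
      exact e1)

/-- The constant. -/
noncomputable def Cy (C₁ C : ℝ) : ℝ := C + 4 * C₁ + 1

theorem YH.Cy0 (H : YH D n d K J a₀ w₀ z M i₀ i j r lam gam κ C₁ C q E P) : 0 ≤ Cy C₁ C := by
  unfold Cy
  linarith [H.C0, H.C1]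

/-- The levels of the two places. -/
theorem YH.lev (H : YH D n d K J a₀ w₀ z M i₀ i j r lam gam κ C₁ C q E P) {l : ℕ} (l1 : 1 ≤ l)
    (ln : l ≤ n) : |(D.g i j l : ℝ) - D.g i₀ j l - (i - i₀ : ℕ) * z| ≤ 2 * C₁ * z := by
  have h1 := H.ok.hom i H.iM.le j H.jM l l1 ln
  have h2 := H.ok.hom i₀ (H.i0i.trans H.iM.le) j H.jM l l1 ln
  rw [H.lam1 l l1 ln] at h1 h2
  have e : ((i - i₀ : ℕ) : ℝ) = (i : ℝ) - i₀ := by rw [Nat.cast_sub H.i0i]
  rw [e]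
  obtain ⟨a1, a2⟩ := abs_le.1 h1
  obtain ⟨b1, b2⟩ := abs_le.1 h2
  rw [abs_le]
  constructor <;> linarith

theorem two_le_exp {x y : ℝ} {m k s : ℕ} (h : |(m : ℝ) - k - s| ≤ x) (hx : x ≤ y) (hy : 0 ≤ y) :
    (2 : ℝ) ^ m ≤ exp y * (2 ^ k * 2 ^ s) ∧ (2 : ℝ) ^ k * 2 ^ s ≤ exp y * 2 ^ m := by
  have l2 : Real.log 2 ≤ 1 := by
    have := Real.log_two_lt_d9
    linarith
  have l0 : 0 ≤ Real.log 2 := Real.log_nonneg (by norm_num)
  have e1 : ∀ m : ℕ, (2 : ℝ) ^ m = exp (m * Real.log 2) := by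
    intro m
    rw [← Real.log_pow, Real.exp_log (by positivity)]
  obtain ⟨a1, a2⟩ := abs_le.1 h
  have hxy : |(m : ℝ) - k - s| ≤ y := h.trans hx
  obtain ⟨a1, a2⟩ := abs_le.1 hxy
  have b1 : ((m : ℝ) - k - s) * Real.log 2 ≤ y := by
    have : ((m : ℝ) - k - s) * Real.log 2 ≤ y * Real.log 2 := mul_le_mul_of_nonneg_right a2 l0
    have h3 : y * Real.log 2 ≤ y * 1 := mul_le_mul_of_nonneg_left l2 hy
    linarith
  have b2 : -y ≤ ((m : ℝ) - k - s) * Real.log 2 := by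
    have : -y * Real.log 2 ≤ ((m : ℝ) - k - s) * Real.log 2 := mul_le_mul_of_nonneg_right a1 l0
    have h3 : y * Real.log 2 ≤ y * 1 := mul_le_mul_of_nonneg_left l2 hy
    linarith
  rw [e1 m, e1 k, e1 s, ← Real.exp_add, ← Real.exp_add, ← Real.exp_add]
  constructor
  · refine Real.exp_le_exp.2 ?_
    linarith
  · refine Real.exp_le_exp.2 ?_
    linarith

/-- The units of the two places. -/
theorem YH.un (H : YH D n d K J a₀ w₀ z M i₀ i j r lam gam κ C₁ C q E P) {l : ℕ} (l1 : 1 ≤ l)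
    (ln : l ≤ n) :
    (2 : ℝ) ^ D.g i j l ≤ exp (2 * C₁ * z) * (2 ^ D.g i₀ j l * 2 ^ ((i - i₀) * z)) ∧
      (2 : ℝ) ^ D.g i₀ j l * 2 ^ ((i - i₀) * z) ≤ exp (2 * C₁ * z) * 2 ^ D.g i j l := by
  refine two_le_exp (x := 2 * C₁ * z) ?_ le_rfl ?_
  · have := H.lev l1 ln
    push_cast at this ⊢
    exact this
  · have := H.C1
    positivity

theorem YH.ctx0 (H : YH D n d K J a₀ w₀ z M i₀ i j r lam gam κ C₁ C q E P) {ω ω' : D.Ω}
    (h1 : 0 < q ω) (h2 : 0 < q ω') (e : D.c i j ω = D.c i j ω') :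
    bb D i₀ j r ω = bb D i₀ j r ω' :=
  bb_det H.ok H.i1 H.ii H.i0i H.iM.le H.jM H.rj h1 h2 e

theorem ze_hh (ω : D.Ω) (l : ℕ) : ze D i₀ j r P ω l = 2 ^ D.g i₀ j l * hh D i₀ j r P ω l := by
  unfold ze hh Pool.MIC.Frm.nat
  ring

/-- The coordinates over the frame and over the visible labels at the later place, up. -/
theorem YH.toV (H : YH D n d K J a₀ w₀ z M i₀ i j r lam gam κ C₁ C q E P) {ω ω' : D.Ω}
    (h1 : 0 < q ω) (h2 : 0 < q ω') (e1 : E ω) (e2 : E ω') (ec : D.c i j ω = D.c i j ω')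
    (eT : D.T ω = D.T ω') {l : ℕ} (l1 : 1 ≤ l) (ln : l ≤ n) {δ : ℝ} (hδ : 0 ≤ δ)
    (h : ∀ k, 1 ≤ k → k ≤ l → 2 ^ D.g i j k * |hh D i₀ j r P ω k - hh D i₀ j r P ω' k| ≤ δ) :
    |2 ^ D.g i j l * D.sh i j ω l - 2 ^ D.g i j l * D.sh i j ω' l| ≤
      exp (Cy C₁ C * z) * δ := by
  have hC1 := H.C1
  have hz0 : (0 : ℝ) ≤ z := Nat.cast_nonneg z
  obtain ⟨s, hs⟩ : ∃ s : ℝ, s = 2 ^ ((i - i₀) * z) := ⟨_, rfl⟩
  have s0 : 0 < s := hs ▸ by positivity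
  obtain ⟨x, hx⟩ : ∃ x : ℝ, x = exp (2 * C₁ * z) := ⟨_, rfl⟩
  have x0 : 0 < x := hx ▸ exp_pos _
  have a1 := H.dep.toV i H.i0i H.iM ω ω' h1 h2 e1 e2 (H.ctx0 h1 h2 ec) ec eT l l1 ln (x / s * δ)
    (by positivity) (by
      intro k k1 kl
      have b1 := (H.un k1 (kl.trans ln)).2
      rw [← hs, ← hx] at b1
      rw [ze_hh, ze_hh, ← mul_sub, abs_mul, abs_of_pos (by positivity : (0 : ℝ) < _)]
      have b2 := h k k1 kl
      have b3 : 2 ^ D.g i₀ j k * |hh D i₀ j r P ω k - hh D i₀ j r P ω' k| * s ≤ x * δ := by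
        calc 2 ^ D.g i₀ j k * |hh D i₀ j r P ω k - hh D i₀ j r P ω' k| * s =
            2 ^ D.g i₀ j k * s * |hh D i₀ j r P ω k - hh D i₀ j r P ω' k| := by ring
          _ ≤ x * 2 ^ D.g i j k * |hh D i₀ j r P ω k - hh D i₀ j r P ω' k| :=
            mul_le_mul_of_nonneg_right b1 (abs_nonneg _)
          _ = x * (2 ^ D.g i j k * |hh D i₀ j r P ω k - hh D i₀ j r P ω' k|) := by ring
          _ ≤ x * δ := mul_le_mul_of_nonneg_left b2 x0.le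
      rw [div_mul_eq_mul_div, le_div_iff₀ s0]
      exact b3)
  rw [← mul_sub, abs_mul, abs_of_pos (by positivity : (0 : ℝ) < _)] at a1 ⊢
  have b1 := (H.un l1 ln).1
  rw [← hs, ← hx] at b1
  have hxx : exp (C * z) * (x * x) ≤ exp (Cy C₁ C * z) := by
    rw [hx, ← Real.exp_add, ← Real.exp_add]
    refine Real.exp_le_exp.2 ?_
    unfold Cy
    linarith
  calc 2 ^ D.g i j l * |D.sh i j ω l - D.sh i j ω' l| ≤
      x * (2 ^ D.g i₀ j l * s) * |D.sh i j ω l - D.sh i j ω' l| :=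
        mul_le_mul_of_nonneg_right b1 (abs_nonneg _)
    _ = x * s * (2 ^ D.g i₀ j l * |D.sh i j ω l - D.sh i j ω' l|) := by ring
    _ ≤ x * s * (exp (C * z) * (x / s * δ)) := mul_le_mul_of_nonneg_left a1 (by positivity)
    _ = exp (C * z) * (x * x) * δ := by
      field_simp
    _ ≤ _ := mul_le_mul_of_nonneg_right hxx hδ

/-- The coordinates over the frame and over the visible labels at the later place, down. -/
theorem YH.ofV (H : YH D n d K J a₀ w₀ z M i₀ i j r lam gam κ C₁ C q E P) {ω ω' : D.Ω}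
    (h1 : 0 < q ω) (h2 : 0 < q ω') (e1 : E ω) (e2 : E ω') (ec : D.c i j ω = D.c i j ω')
    (eT : D.T ω = D.T ω') {l : ℕ} (l1 : 1 ≤ l) (ln : l ≤ n) {δ : ℝ} (hδ : 0 ≤ δ)
    (h : ∀ k, 1 ≤ k → k ≤ l →
      |2 ^ D.g i j k * D.sh i j ω k - 2 ^ D.g i j k * D.sh i j ω' k| ≤ δ) :
    2 ^ D.g i j l * |hh D i₀ j r P ω l - hh D i₀ j r P ω' l| ≤ exp (Cy C₁ C * z) * δ := by
  have hC1 := H.C1
  have hz0 : (0 : ℝ) ≤ z := Nat.cast_nonneg z
  obtain ⟨s, hs⟩ : ∃ s : ℝ, s = 2 ^ ((i - i₀) * z) := ⟨_, rfl⟩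
  have s0 : 0 < s := hs ▸ by positivity
  obtain ⟨x, hx⟩ : ∃ x : ℝ, x = exp (2 * C₁ * z) := ⟨_, rfl⟩
  have x0 : 0 < x := hx ▸ exp_pos _
  have a1 := H.dep.ofV i H.i0i H.iM ω ω' h1 h2 e1 e2 (H.ctx0 h1 h2 ec) ec eT l l1 ln (x / s * δ)
    (by positivity) (by
      intro k k1 kl
      have b1 := (H.un k1 (kl.trans ln)).2
      rw [← hs, ← hx] at b1
      have b2 := h k k1 kl
      rw [← mul_sub, abs_mul, abs_of_pos (by positivity : (0 : ℝ) < _)] at b2 ⊢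
      have b3 : 2 ^ D.g i₀ j k * |D.sh i j ω k - D.sh i j ω' k| * s ≤ x * δ := by
        calc 2 ^ D.g i₀ j k * |D.sh i j ω k - D.sh i j ω' k| * s =
            2 ^ D.g i₀ j k * s * |D.sh i j ω k - D.sh i j ω' k| := by ring
          _ ≤ x * 2 ^ D.g i j k * |D.sh i j ω k - D.sh i j ω' k| :=
            mul_le_mul_of_nonneg_right b1 (abs_nonneg _)
          _ = x * (2 ^ D.g i j k * |D.sh i j ω k - D.sh i j ω' k|) := by ring
          _ ≤ x * δ := mul_le_mul_of_nonneg_left b2 x0.le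
      rw [div_mul_eq_mul_div, le_div_iff₀ s0]
      exact b3)
  rw [ze_hh, ze_hh, ← mul_sub, abs_mul, abs_of_pos (by positivity : (0 : ℝ) < _)] at a1
  have b1 := (H.un l1 ln).1
  rw [← hs, ← hx] at b1
  have hxx : exp (C * z) * (x * x) ≤ exp (Cy C₁ C * z) := by
    rw [hx, ← Real.exp_add, ← Real.exp_add]
    refine Real.exp_le_exp.2 ?_
    unfold Cy
    linarith
  calc 2 ^ D.g i j l * |hh D i₀ j r P ω l - hh D i₀ j r P ω' l| ≤
      x * (2 ^ D.g i₀ j l * s) * |hh D i₀ j r P ω l - hh D i₀ j r P ω' l| :=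
        mul_le_mul_of_nonneg_right b1 (abs_nonneg _)
    _ = x * s * (2 ^ D.g i₀ j l * |hh D i₀ j r P ω l - hh D i₀ j r P ω' l|) := by ring
    _ ≤ x * s * (exp (C * z) * (x / s * δ)) := mul_le_mul_of_nonneg_left a1 (by positivity)
    _ = exp (C * z) * (x * x) * δ := by
      field_simp
    _ ≤ _ := mul_le_mul_of_nonneg_right hxx hδ

/-- Two samples with the same context and time. -/
theorem YH.hh_bd (H : YH D n d K J a₀ w₀ z M i₀ i j r lam gam κ C₁ C q E P) {ω ω' : D.Ω}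
    (h1 : 0 < q ω) (h2 : 0 < q ω') (e1 : E ω) (e2 : E ω') (ec : D.c i j ω = D.c i j ω')
    (eT : D.T ω = D.T ω') {l : ℕ} (l1 : 1 ≤ l) (ln : l ≤ n) :
    2 ^ D.g i j l * |hh D i₀ j r P ω l - hh D i₀ j r P ω' l| ≤ 2 * exp (Cy C₁ C * z) := by
  have a1 := H.ofV h1 h2 e1 e2 ec eT l1 ln (δ := 2) (by norm_num) (by
    intro k k1 kl
    have b1 := H.ok.pos i H.iM.le j H.jM ω h1 k k1 (kl.trans ln)
    have b2 := H.ok.pos i H.iM.le j H.jM ω' h2 k k1 (kl.trans ln)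
    have hp : (0 : ℝ) < 2 ^ D.g i j k := by positivity
    rw [← mul_sub, abs_mul, abs_of_pos hp]
    have b3 : |D.sh i j ω k - D.sh i j ω' k| ≤ 2 / 2 ^ D.g i j k := by
      refine (abs_sub _ _).trans ?_
      have : (2 : ℝ) / 2 ^ D.g i j k = 1 / 2 ^ D.g i j k + 1 / 2 ^ D.g i j k := by ring
      rw [this]
      exact add_le_add b1 b2
    calc (2 : ℝ) ^ D.g i j k * |D.sh i j ω k - D.sh i j ω' k| ≤
        2 ^ D.g i j k * (2 / 2 ^ D.g i j k) := mul_le_mul_of_nonneg_left b3 hp.le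
      _ = 2 := by
        field_simp)
  linarith

open Classical in
/-- The reference sample. -/
theorem yr_spec {ω : D.Ω} (h1 : 0 < q ω) (e1 : E ω) : ∃ ω' : D.Ω, 0 < q ω' ∧ E ω' ∧
    D.c i j ω' = D.c i j ω ∧ D.T ω' = D.T ω ∧
    ∀ l, yr D i₀ i j r P q E (D.c i j ω, D.T ω) l = hh D i₀ j r P ω' l := by
  have h : ∃ ω', 0 < q ω' ∧ E ω' ∧ (D.c i j ω', D.T ω') = (D.c i j ω, D.T ω) :=
    ⟨ω, h1, e1, rfl⟩
  refine ⟨h.choose, h.choose_spec.1, h.choose_spec.2.1, (Prod.ext_iff.1 h.choose_spec.2.2).1,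
    (Prod.ext_iff.1 h.choose_spec.2.2).2, fun l => ?_⟩
  unfold yr
  rw [dif_pos h]

theorem yl_on {ω : D.Ω} (h1 : 0 < q ω) (e1 : E ω) (l : ℕ) : yl D i₀ i j r P q E ω l =
    2 ^ D.g i j l * (hh D i₀ j r P ω l - yr D i₀ i j r P q E (D.c i j ω, D.T ω) l) := by
  unfold yl
  rw [if_pos ⟨h1, e1⟩]

/-- **The size of the record.** -/
theorem YH.yl_bd (H : YH D n d K J a₀ w₀ z M i₀ i j r lam gam κ C₁ C q E P) (ω : D.Ω) {l : ℕ}
    (l1 : 1 ≤ l) (ln : l ≤ n) : |yl D i₀ i j r P q E ω l| ≤ 2 * exp (Cy C₁ C * z) := by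
  by_cases h : 0 < q ω ∧ E ω
  · obtain ⟨h1, e1⟩ := h
    obtain ⟨ω', h2, e2, ec, eT, hr⟩ := yr_spec (i₀ := i₀) (i := i) (j := j) (r := r) (P := P) h1 e1
    rw [yl_on h1 e1, hr, abs_mul, abs_of_pos (by positivity : (0 : ℝ) < _)]
    exact H.hh_bd h1 h2 e1 e2 ec.symm eT.symm l1 ln
  · unfold yl
    rw [if_neg h, abs_zero]
    positivity

/-- Differences of records. -/
theorem yl_sub {ω ω' : D.Ω} (h1 : 0 < q ω) (h2 : 0 < q ω') (e1 : E ω) (e2 : E ω')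
    (ec : D.c i j ω = D.c i j ω') (eT : D.T ω = D.T ω') (l : ℕ) :
    yl D i₀ i j r P q E ω l - yl D i₀ i j r P q E ω' l =
      2 ^ D.g i j l * (hh D i₀ j r P ω l - hh D i₀ j r P ω' l) := by
  rw [yl_on h1 e1, yl_on h2 e2, ec, eT]
  ring

theorem yl_sub_abs {ω ω' : D.Ω} (h1 : 0 < q ω) (h2 : 0 < q ω') (e1 : E ω) (e2 : E ω')
    (ec : D.c i j ω = D.c i j ω') (eT : D.T ω = D.T ω') (l : ℕ) :
    |yl D i₀ i j r P q E ω l - yl D i₀ i j r P q E ω' l| =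
      2 ^ D.g i j l * |hh D i₀ j r P ω l - hh D i₀ j r P ω' l| := by
  rw [yl_sub h1 h2 e1 e2 ec eT, abs_mul, abs_of_pos (by positivity : (0 : ℝ) < _)]

/-- **From the records to the visible labels.** -/
theorem YH.y_toV (H : YH D n d K J a₀ w₀ z M i₀ i j r lam gam κ C₁ C q E P) {ω ω' : D.Ω}
    (h1 : 0 < q ω) (h2 : 0 < q ω') (e1 : E ω) (e2 : E ω') (ec : D.c i j ω = D.c i j ω')
    (eT : D.T ω = D.T ω') {l : ℕ} (l1 : 1 ≤ l) (ln : l ≤ n) {δ : ℝ} (hδ : 0 ≤ δ)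
    (h : ∀ k, 1 ≤ k → k ≤ l → |yl D i₀ i j r P q E ω k - yl D i₀ i j r P q E ω' k| ≤ δ) :
    |2 ^ D.g i j l * D.sh i j ω l - 2 ^ D.g i j l * D.sh i j ω' l| ≤
      exp (Cy C₁ C * z) * δ :=
  H.toV h1 h2 e1 e2 ec eT l1 ln hδ fun k k1 kl => by
    rw [← yl_sub_abs h1 h2 e1 e2 ec eT]
    exact h k k1 kl

/-- **From the visible labels to the records.** -/
theorem YH.y_ofV (H : YH D n d K J a₀ w₀ z M i₀ i j r lam gam κ C₁ C q E P) {ω ω' : D.Ω}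
    (h1 : 0 < q ω) (h2 : 0 < q ω') (e1 : E ω) (e2 : E ω') (ec : D.c i j ω = D.c i j ω')
    (eT : D.T ω = D.T ω') {l : ℕ} (l1 : 1 ≤ l) (ln : l ≤ n) {δ : ℝ} (hδ : 0 ≤ δ)
    (h : ∀ k, 1 ≤ k → k ≤ l →
      |2 ^ D.g i j k * D.sh i j ω k - 2 ^ D.g i j k * D.sh i j ω' k| ≤ δ) :
    |yl D i₀ i j r P q E ω l - yl D i₀ i j r P q E ω' l| ≤ exp (Cy C₁ C * z) * δ := by
  rw [yl_sub_abs h1 h2 e1 e2 ec eT]
  exact H.ofV h1 h2 e1 e2 ec eT l1 ln hδ h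

/-! ### The frame of the later place -/

/-- The frame `P'` of the later place is the frame of the first place plus functions of the time. -/
def Shd (D : NDat2) (n i₀ i j r : ℕ) (q : D.Ω → ℝ) (E : D.Ω → Prop)
    (P P' : D.Γ × D.Γ → ℕ → PN) : Prop :=
  ∀ ω, 0 < q ω → E ω → ∀ l, 1 ≤ l → l ≤ n → ∃ A : ℝ → ℝ, ∀ x : ℕ → ℝ,
    eval x (P' (bb D i j r ω) l) = eval x (P (bb D i₀ j r ω) l) + A (x 0)

/-- **The records and the coordinates over the frame of the later place.** -/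
theorem YH.y_ze (H : YH D n d K J a₀ w₀ z M i₀ i j r lam gam κ C₁ C q E P)
    {P' : D.Γ × D.Γ → ℕ → PN} (hS : Shd D n i₀ i j r q E P P') {ω ω' : D.Ω}
    (h1 : 0 < q ω) (h2 : 0 < q ω') (e1 : E ω) (e2 : E ω') (eb : bb D i j r ω = bb D i j r ω')
    (eT : D.T ω = D.T ω') {l : ℕ} (l1 : 1 ≤ l) (ln : l ≤ n) :
    yl D i₀ i j r P q E ω l - yl D i₀ i j r P q E ω' l =
      ze D i j r P' ω l - ze D i j r P' ω' l := by
  have ec : D.c i j ω = D.c i j ω' := (Prod.ext_iff.1 eb).1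
  rw [yl_sub h1 h2 e1 e2 ec eT]
  obtain ⟨A, hA⟩ := hS ω h1 e1 l l1 ln
  have hb := H.ctx0 h1 h2 ec
  have x1 : D.X ω 0 = D.X ω' 0 := by rw [H.ok.X_zero, H.ok.X_zero, eT]
  have a1 : ze D i j r P' ω l = 2 ^ D.g i j l * (hh D i₀ j r P ω l - A (D.X ω 0)) := by
    unfold ze hh Pool.MIC.Frm.nat
    rw [hA]
    ring
  have a2 : ze D i j r P' ω' l = 2 ^ D.g i j l * (hh D i₀ j r P ω' l - A (D.X ω 0)) := by
    unfold ze hh Pool.MIC.Frm.nat
    rw [← eb, hA, ← hb, x1]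
    ring
  rw [a1, a2]
  ring

end Pool.TC12
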