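import Pool.Agent.H12.TT.Yb
import Pool.Agent.H30.TC.Cor
import Pool.Agent.H5.TT.Tot

/-!
# TC: the direction at a place

`dirV_y`: equal heights modulo a direction give near records modulo this direction.
-/

set_option autoImplicit false

namespace Pool.TC12

open Finset Real
open Pool.Agent.H49.Ent Pool.Agent.H32.Dense Pool.STK Pool.STAT Pool.MIC Pool.TC
open Pool.P4 (t0 rt bb ze z0 cl1 dg dgp Ry cb err)
open Pool.P4N (cl1_eq cl1_bd fl_eq dg_eq Ry_one)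
open Pool.TT5 (fl_dif QB QB_piv)
open Pool.TQ (pr)
open Pool.BFL (Pb)

section

variable {D : NDat2} {n d K K' J a₀ w₀ z M w i j r r2 r' r'' y a X : ℕ} {th : ℝ}
  {lam gam : ℕ → ℝ} {κ C₁ C : ℝ} {q : D.Ω → ℝ} {E : D.Ω → Prop} {P : D.Γ × D.Γ → ℕ → PN}
  {S : Slo D} {c k0 k1 : ℕ} {ys : Fin (k0 + k1) → ℕ} {gs : Fin c → ℕ}

/-- The products of the own slopes and the slow coordinates. -/
theorem prod_near' (H : Pool.TC.Hyp D n d K K' J a₀ w₀ z M w i j r r2 r' r'' y a X th lam gam κ C₁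
    C q E P S ys gs) {ω ω' : D.Ω} (h2 : 0 < q ω') (hE' : E ω') {δ : ℝ} (hδ : 0 ≤ δ)
    (hs : ∀ k, sl th gam n k → |ze D i j r P ω k - ze D i j r P ω' k| ≤ δ)
    (hS : Sv D z X C S ys gs ω = Sv D z X C S ys gs ω') (u : Fin c)
    [DecidablePred (sl th gam n)] :
    |∑ k ∈ (range n).filter (sl th gam n), S.S ω (gs u) k * ze D i j r P ω k -
      ∑ k ∈ (range n).filter (sl th gam n), S.S ω' (gs u) k * ze D i j r P ω' k| ≤
      ((k0 + k1 : ℕ) : ℝ) * (Ry z C * δ + Ry z C * Ry z C * ((2 : ℝ) ^ X)⁻¹) := by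
  have hC0 : 0 ≤ C := by linarith [H.Cg]
  have hRy := Ry_one hC0 z
  have hi : (0 : ℝ) < ((2 : ℝ) ^ X)⁻¹ := by positivity
  have hg := H.geo
  have hR2 : 0 < 2 * Ry z C := by linarith
  have hRg : Rg z C = 2 * (Ry z C * Ry z C) := Pool.P4N.Rg_eq z C
  have hRg0 : 0 < Rg z C := by
    rw [hRg]
    positivity
  rw [← Finset.sum_sub_distrib]
  refine (Finset.abs_sum_le_sum_abs _ _).trans ?_
  have hcard : (((range n).filter (sl th gam n)).card : ℝ) ≤ ((k0 + k1 : ℕ) : ℝ) := by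
    exact_mod_cast card_sl H
  have hRp : 0 < Ry z C := by linarith
  refine le_trans ?_ (mul_le_mul_of_nonneg_right hcard (by positivity))
  rw [← nsmul_eq_mul]
  refine Finset.sum_le_card_nsmul _ _ _ fun k hk => ?_
  have hl : sl th gam n k := (mem_filter.1 hk).2
  obtain ⟨b, hb⟩ := H.ys_on hl
  have e1 := hs k hl
  have e2 : |S.S ω (gs u) k| ≤ Ry z C := hg.bS ω (gs u) k
  have e3 : |S.S ω' (gs u) k| ≤ Ry z C := hg.bS ω' (gs u) k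
  have e4 : |ze D i j r P ω' k| ≤ Ry z C := hg.bz ω' h2 hE' k hl.1 hl.2.1.le
  have e5 := congrFun (congrFun hS u) b
  unfold Sv at e5
  rw [hb] at e5
  have hdiv : ∀ x : ℝ, |x| ≤ Ry z C → |x * (2 * Ry z C) / Rg z C| ≤ 1 := by
    intro x hx
    rw [abs_div, abs_of_pos hRg0, div_le_one hRg0, abs_mul, abs_of_pos hR2, hRg]
    nlinarith
  have e6 := dg_eq (hdiv _ e2) (hdiv _ e3) e5
  have e7 : S.S ω (gs u) k * (2 * Ry z C) / Rg z C - S.S ω' (gs u) k * (2 * Ry z C) / Rg z C =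
      (S.S ω (gs u) k - S.S ω' (gs u) k) / Ry z C := by
    rw [hRg]
    field_simp
  rw [e7, abs_div, abs_of_pos hRp, div_le_iff₀ hRp] at e6
  have e8 : S.S ω (gs u) k * ze D i j r P ω k - S.S ω' (gs u) k * ze D i j r P ω' k =
      S.S ω (gs u) k * (ze D i j r P ω k - ze D i j r P ω' k) +
        (S.S ω (gs u) k - S.S ω' (gs u) k) * ze D i j r P ω' k := by ring
  rw [e8]
  refine (abs_add_le _ _).trans ?_
  rw [abs_mul, abs_mul]
  have f1 := mul_le_mul e2 e1 (abs_nonneg _) hRp.le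
  have f2 := mul_le_mul e6 e4 (abs_nonneg _) (by positivity)
  nlinarith only [f1, f2]

/-- The own heights and the coordinates, differences. -/
theorem hv_ze (H : Pool.TC.Hyp D n d K K' J a₀ w₀ z M w i j r r2 r' r'' y a X th lam gam κ C₁
    C q E P S ys gs) {ω ω' : D.Ω} (h1 : 0 < q ω) (h2 : 0 < q ω') (hE : E ω) (hE' : E ω')
    (hs : ∀ k, sl th gam n k → |ze D i j r P ω k - ze D i j r P ω' k| ≤ ((2 : ℝ) ^ X)⁻¹)
    (hS : Sv D z X C S ys gs ω = Sv D z X C S ys gs ω') (u : Fin c) :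
    |((hv (k0 := k0) (k1 := k1) D z i j r X C P S gs n th gam ω u : ℝ) -
        hv (k0 := k0) (k1 := k1) D z i j r X C P S gs n th gam ω' u) -
      2 ^ X * ((ze D i j r P ω (gs u) - ze D i j r P ω' (gs u)) / Rg z C)| ≤
      1 + ((k0 + k1 : ℕ) : ℝ) := by
  classical
  have hC0 : 0 ≤ C := by linarith [H.Cg]
  have hRy := Ry_one hC0 z
  have hi : (0 : ℝ) < ((2 : ℝ) ^ X)⁻¹ := by positivity
  have hRg : Rg z C = 2 * (Ry z C * Ry z C) := Pool.P4N.Rg_eq z C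
  have hRp : 0 < Ry z C := by linarith
  have hRg0 : 0 < Rg z C := by
    rw [hRg]
    positivity
  have hp : (0 : ℝ) < 2 ^ X := by positivity
  have m0 : (0 : ℝ) < ((k0 + k1 + 1 : ℕ) : ℝ) := by positivity
  unfold hv
  rw [dgm_fl X m0 (nn_bd H h1 hE u), dgm_fl X m0 (nn_bd H h2 hE' u), nn_eq, nn_eq]
  have e1 := prod_near' H h2 hE' hi.le hs hS u
  obtain ⟨s1, hs1⟩ : ∃ s1, s1 = ∑ k ∈ (range n).filter (sl th gam n),
    S.S ω (gs u) k * ze D i j r P ω k := ⟨_, rfl⟩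
  obtain ⟨s2, hs2⟩ : ∃ s2, s2 = ∑ k ∈ (range n).filter (sl th gam n),
    S.S ω' (gs u) k * ze D i j r P ω' k := ⟨_, rfl⟩
  rw [← hs1, ← hs2] at e1
  rw [← hs1, ← hs2]
  obtain ⟨A, hA⟩ : ∃ A, A = ze D i j r P ω (gs u) := ⟨_, rfl⟩
  obtain ⟨B, hB⟩ : ∃ B, B = ze D i j r P ω' (gs u) := ⟨_, rfl⟩
  rw [← hA, ← hB]
  have f1 := Int.floor_le ((2 : ℝ) ^ X * ((A - s1) / Rg z C))
  have f2 := Int.lt_floor_add_one ((2 : ℝ) ^ X * ((A - s1) / Rg z C))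
  have f3 := Int.floor_le ((2 : ℝ) ^ X * ((B - s2) / Rg z C))
  have f4 := Int.lt_floor_add_one ((2 : ℝ) ^ X * ((B - s2) / Rg z C))
  have e2 : |(2 : ℝ) ^ X * ((s1 - s2) / Rg z C)| ≤ ((k0 + k1 : ℕ) : ℝ) := by
    rw [abs_mul, abs_of_pos hp, abs_div, abs_of_pos hRg0, ← mul_div_assoc, div_le_iff₀ hRg0]
    have hk : (0 : ℝ) ≤ ((k0 + k1 : ℕ) : ℝ) := Nat.cast_nonneg _
    calc (2 : ℝ) ^ X * |s1 - s2| ≤ 2 ^ X * (((k0 + k1 : ℕ) : ℝ) *
          (Ry z C * ((2 : ℝ) ^ X)⁻¹ + Ry z C * Ry z C * ((2 : ℝ) ^ X)⁻¹)) :=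
          mul_le_mul_of_nonneg_left e1 hp.le
      _ = ((k0 + k1 : ℕ) : ℝ) * (Ry z C + Ry z C * Ry z C) := by
        field_simp
      _ ≤ ((k0 + k1 : ℕ) : ℝ) * Rg z C := by
        refine mul_le_mul_of_nonneg_left ?_ hk
        rw [hRg]
        nlinarith only [hRy]
  have e3 : (2 : ℝ) ^ X * ((A - s1) / Rg z C) - 2 ^ X * ((B - s2) / Rg z C) =
      2 ^ X * ((A - B) / Rg z C) - 2 ^ X * ((s1 - s2) / Rg z C) := by ring
  rw [abs_le] at e2 ⊢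
  constructor <;> linarith

end

/-- **The direction.** `t` knows `tv`, `b` knows the context, `hgt` is near to `hv`. -/
theorem dirV_y {D : NDat2} {n d d' K K' J a₀ w₀ z M w i₀ i j r r2 r' r'' y a X : ℕ} {th : ℝ}
    {lam gam : ℕ → ℝ} {κ C₁ C : ℝ} {q : D.Ω → ℝ} {E : D.Ω → Prop}
    {P₀ P : D.Γ × D.Γ → ℕ → PN} {S : Slo D} {c k0 k1 : ℕ} {ys : Fin (k0 + k1) → ℕ}
    {gs : Fin c → ℕ}
    (H : Pool.TC.Hyp D n d K K' J a₀ w₀ z M w i j r r2 r' r'' y a X th lam gam κ C₁ C q E P S ys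
      gs)
    (HY : YH D n d' K J a₀ w₀ z M i₀ i j r lam gam κ C₁ C q E P₀)
    (hSh : Shd D n i₀ i j r q E P₀ P) {p : D.Ω → ℝ} (hpE : ∀ ω, 0 < p ω → 0 < q ω ∧ E ω)
    {τ B : Type} {t : D.Ω → τ} {b : D.Ω → B} {hgt : D.Ω → Fin c → ℤ} {N₁ : ℝ}
    (htt : Det p t (tv (c := c) (k0 := k0) (k1 := k1) D J w z i j r X C S ys gs))
    (hbb : Det p b (cb D J w i j r))
    (hnear : ∀ ω, 0 < p ω → ∀ u, |(hgt ω u : ℝ) -
      hv (c := c) (k0 := k0) (k1 := k1) D z i j r X C P S gs n th gam ω u| ≤ N₁) :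
    DirV (visOf D i j (yl D i₀ i j r P₀ q E) J w X ys gs (Fin c → ℝ)
      (fun e _ _ x => QB n gs e x)) id p t b hgt
      (2 * (2 + Rg z C * (3 + 4 * N₁ + 2 * ((k0 + k1 : ℕ) : ℝ))) + 1) := by
  classical
  intro v i0 hv0 hvi ω ω' p1 p2 eW et eb epr u
  obtain ⟨q1, E1⟩ := hpE ω p1
  obtain ⟨q2, E2⟩ := hpE ω' p2
  have hC0 : 0 ≤ C := by linarith [H.Cg]
  have hRy := Ry_one hC0 z
  have hRg : Rg z C = 2 * (Ry z C * Ry z C) := Pool.P4N.Rg_eq z C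
  have hRg0 : 0 < Rg z C := by
    rw [hRg]
    positivity
  have hRg1 : 1 ≤ Rg z C := by
    rw [hRg]
    nlinarith only [hRy]
  have hp : (0 : ℝ) < 2 ^ X := by positivity
  obtain ⟨k, hk⟩ : ∃ k : ℝ, k = ((k0 + k1 : ℕ) : ℝ) := ⟨_, rfl⟩
  have hk0 : 0 ≤ k := hk ▸ Nat.cast_nonneg _
  have hN : 0 ≤ N₁ := (abs_nonneg _).trans (hnear ω p1 u)
  have etv := htt ω ω' p1 p2 et
  have ecb := hbb ω ω' p1 p2 eb
  have ebb : bb D i j r ω = bb D i j r ω' := (Prod.ext_iff.1 ecb).1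
  obtain ⟨-, e2⟩ := Prod.ext_iff.1 etv
  obtain ⟨eT, eS⟩ := Prod.ext_iff.1 e2
  change D.T ω = D.T ω' at eT
  change Sv D z X C S ys gs ω = Sv D z X C S ys gs ω' at eS
  have ey : ∀ a, ⌊(2 : ℝ) ^ X * yl D i₀ i j r P₀ q E ω (ys a)⌋ =
      ⌊(2 : ℝ) ^ X * yl D i₀ i j r P₀ q E ω' (ys a)⌋ := fun a =>
    congrFun (Prod.ext_iff.1 eW).2 a
  have hyz : ∀ l, 1 ≤ l → l ≤ n → yl D i₀ i j r P₀ q E ω l - yl D i₀ i j r P₀ q E ω' l =
      ze D i j r P ω l - ze D i j r P ω' l := fun l l1 ln =>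
    HY.y_ze hSh q1 q2 E1 E2 ebb eT l1 ln
  have hs : ∀ k, sl th gam n k → |ze D i j r P ω k - ze D i j r P ω' k| ≤ ((2 : ℝ) ^ X)⁻¹ := by
    intro l hl
    obtain ⟨b', hb'⟩ := H.ys_on hl
    have e3 := fl_eq (ey b')
    rw [hb', ← mul_sub, hyz l hl.1 hl.2.1.le, abs_mul, abs_of_pos hp] at e3
    rw [← one_div, le_div_iff₀ hp]
    linarith
  obtain ⟨κv, hκ⟩ : ∃ κv : Fin c → ℝ, κv = fun m => v m / v i0 := ⟨_, rfl⟩
  rw [← hκ] at epr
  have hκ1 : ∀ m, |κv m| ≤ 1 := by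
    intro m
    rw [hκ]
    simp only
    rw [abs_div, div_le_one (abs_pos.2 hvi)]
    exact hv0 m
  have hκ0 : κv i0 = 1 := by
    rw [hκ]
    exact div_self hvi
  -- the heights
  obtain ⟨h₁, hh₁⟩ : ∃ h₁ : Fin c → ℝ, h₁ = fun m => ((hgt ω m : ℝ) - hgt ω' m) := ⟨_, rfl⟩
  obtain ⟨h₂, hh₂⟩ : ∃ h₂ : Fin c → ℝ, h₂ = fun m =>
    ((hv (c := c) (k0 := k0) (k1 := k1) D z i j r X C P S gs n th gam ω m : ℝ) -
      hv (c := c) (k0 := k0) (k1 := k1) D z i j r X C P S gs n th gam ω' m) := ⟨_, rfl⟩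
  obtain ⟨zd, hzd⟩ : ∃ zd : Fin c → ℝ, zd = fun m =>
    ze D i j r P ω (gs m) - ze D i j r P ω' (gs m) := ⟨_, rfl⟩
  obtain ⟨Zd, hZd⟩ : ∃ Zd : Fin c → ℝ, Zd = fun m =>
    ((⌊(2 : ℝ) ^ X * yl D i₀ i j r P₀ q E ω (gs m)⌋ : ℤ) : ℝ) -
      (⌊(2 : ℝ) ^ X * yl D i₀ i j r P₀ q E ω' (gs m)⌋ : ℤ) := ⟨_, rfl⟩
  have a1 : ∀ m, |h₁ m - κv m * h₁ i0| ≤ 1 := by
    intro m
    by_cases hi : m = i0
    · rw [hi, hκ0, one_mul, sub_self, abs_zero]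
      exact zero_le_one
    · have e3 := congrFun epr m
      unfold pr at e3
      rw [if_neg hi, if_neg hi] at e3
      have e4 := fl_eq e3
      have e5 : h₁ m - κv m * h₁ i0 = ((hgt ω m : ℝ) - κv m * hgt ω i0) -
          ((hgt ω' m : ℝ) - κv m * hgt ω' i0) := by
        rw [hh₁]
        ring
      rw [e5]
      exact e4
  have a2 : ∀ m, |h₂ m - h₁ m| ≤ 2 * N₁ := by
    intro m
    have e3 := hnear ω p1 m
    have e4 := hnear ω' p2 m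
    rw [hh₁, hh₂]
    rw [abs_le] at e3 e4 ⊢
    constructor <;> linarith [e3.1, e3.2, e4.1, e4.2]
  have a3 : ∀ m, |h₂ m - 2 ^ X * (zd m / Rg z C)| ≤ 1 + k := by
    intro m
    rw [hh₂, hzd, hk]
    exact hv_ze H q1 q2 E1 E2 hs eS m
  have a4 : ∀ m, |Zd m - 2 ^ X * zd m| ≤ 1 := by
    intro m
    have e3 := hyz (gs m) (H.gs_gr m).1 (H.gs_gr m).2.1
    rw [hZd, hzd]
    simp only
    rw [← e3, mul_sub]
    have f1 := Int.floor_le ((2 : ℝ) ^ X * yl D i₀ i j r P₀ q E ω (gs m))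
    have f2 := Int.lt_floor_add_one ((2 : ℝ) ^ X * yl D i₀ i j r P₀ q E ω (gs m))
    have f3 := Int.floor_le ((2 : ℝ) ^ X * yl D i₀ i j r P₀ q E ω' (gs m))
    have f4 := Int.lt_floor_add_one ((2 : ℝ) ^ X * yl D i₀ i j r P₀ q E ω' (gs m))
    rw [abs_le]
    constructor <;> linarith
  have a5 : ∀ m, |2 ^ X * zd m - κv m * (2 ^ X * zd i0)| ≤ Rg z C * (3 + 4 * N₁ + 2 * k) := by
    intro m
    have e3 : |2 ^ X * (zd m / Rg z C) - κv m * (2 ^ X * (zd i0 / Rg z C))| ≤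
        3 + 4 * N₁ + 2 * k := by
      have e4 : 2 ^ X * (zd m / Rg z C) - κv m * (2 ^ X * (zd i0 / Rg z C)) =
          (h₁ m - κv m * h₁ i0) + ((h₂ m - h₁ m) - κv m * (h₂ i0 - h₁ i0)) +
            (κv m * (h₂ i0 - 2 ^ X * (zd i0 / Rg z C)) - (h₂ m - 2 ^ X * (zd m / Rg z C))) := by
        ring
      have e5 : |κv m * (h₂ i0 - h₁ i0)| ≤ 2 * N₁ := by
        rw [abs_mul]
        calc |κv m| * |h₂ i0 - h₁ i0| ≤ 1 * (2 * N₁) :=
              mul_le_mul (hκ1 m) (a2 i0) (abs_nonneg _) zero_le_one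
          _ = 2 * N₁ := one_mul _
      have e6 : |κv m * (h₂ i0 - 2 ^ X * (zd i0 / Rg z C))| ≤ 1 + k := by
        rw [abs_mul]
        calc |κv m| * |h₂ i0 - 2 ^ X * (zd i0 / Rg z C)| ≤ 1 * (1 + k) :=
              mul_le_mul (hκ1 m) (a3 i0) (abs_nonneg _) zero_le_one
          _ = 1 + k := one_mul _
      have e7 := a1 m
      have e8 := a2 m
      have e9 := a3 m
      rw [e4]
      rw [abs_le] at e5 e6 e7 e8 e9 ⊢
      constructor <;> linarith [e5.1, e5.2, e6.1, e6.2, e7.1, e7.2, e8.1, e8.2, e9.1, e9.2]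
    have e4 : 2 ^ X * zd m - κv m * (2 ^ X * zd i0) =
        Rg z C * (2 ^ X * (zd m / Rg z C) - κv m * (2 ^ X * (zd i0 / Rg z C))) := by
      field_simp
    rw [e4, abs_mul, abs_of_pos hRg0]
    exact mul_le_mul_of_nonneg_left e3 hRg0.le
  have a6 : ∀ m, |Zd m - κv m * Zd i0| ≤ 2 + Rg z C * (3 + 4 * N₁ + 2 * k) := by
    intro m
    have e4 : Zd m - κv m * Zd i0 = (Zd m - 2 ^ X * zd m) - κv m * (Zd i0 - 2 ^ X * zd i0) +
        (2 ^ X * zd m - κv m * (2 ^ X * zd i0)) := by ring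
    have e5 : |κv m * (Zd i0 - 2 ^ X * zd i0)| ≤ 1 := by
      rw [abs_mul]
      calc |κv m| * |Zd i0 - 2 ^ X * zd i0| ≤ 1 * 1 :=
            mul_le_mul (hκ1 m) (a4 i0) (abs_nonneg _) zero_le_one
        _ = 1 := one_mul _
    have e6 := a4 m
    have e7 := a5 m
    rw [e4]
    rw [abs_le] at e5 e6 e7 ⊢
    constructor <;> linarith [e5.1, e5.2, e6.1, e6.2, e7.1, e7.2]
  -- the quotient
  obtain ⟨pv, g1, g2, g3⟩ := QB_piv (n := n) (gs := gs) hvi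
  have hL0 : 0 ≤ 2 + Rg z C * (3 + 4 * N₁ + 2 * k) := by positivity
  change |((QB n gs v (fun m => ⌊(2 : ℝ) ^ X * yl D i₀ i j r P₀ q E ω (gs m)⌋) u -
    QB n gs v (fun m => ⌊(2 : ℝ) ^ X * yl D i₀ i j r P₀ q E ω' (gs m)⌋) u : ℤ) : ℝ)| ≤ _
  rw [g3, g3]
  by_cases hu : u = pv
  · rw [if_pos hu, if_pos hu, sub_self, Int.cast_zero, abs_zero, ← hk]
    linarith
  · rw [if_neg hu, if_neg hu, Int.cast_sub]
    refine (fl_dif _ _).trans ?_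
    rw [← hk]
    refine add_le_add_left ?_ 1
    have e3 : |v u / v pv| ≤ 1 := by
      rw [abs_div, div_le_one (abs_pos.2 g1)]
      exact g2 u
    have e4 : v u / v pv * κv pv = κv u := by
      rw [hκ]
      field_simp
    have e5 : (((⌊(2 : ℝ) ^ X * yl D i₀ i j r P₀ q E ω (gs u)⌋ : ℤ) : ℝ) - v u / v pv *
        (⌊(2 : ℝ) ^ X * yl D i₀ i j r P₀ q E ω (gs pv)⌋ : ℤ)) -
        (((⌊(2 : ℝ) ^ X * yl D i₀ i j r P₀ q E ω' (gs u)⌋ : ℤ) : ℝ) - v u / v pv *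
        (⌊(2 : ℝ) ^ X * yl D i₀ i j r P₀ q E ω' (gs pv)⌋ : ℤ)) =
        (Zd u - κv u * Zd i0) - v u / v pv * (Zd pv - κv pv * Zd i0) := by
      have e6 : v u / v pv * (κv pv * Zd i0) = κv u * Zd i0 := by rw [← mul_assoc, e4]
      rw [mul_sub, e6, hZd]
      ring
    rw [e5]
    have e7 := a6 u
    have e8 : |v u / v pv * (Zd pv - κv pv * Zd i0)| ≤
        2 + Rg z C * (3 + 4 * N₁ + 2 * k) := by
      rw [abs_mul]
      calc |v u / v pv| * |Zd pv - κv pv * Zd i0| ≤ 1 * (2 + Rg z C * (3 + 4 * N₁ + 2 * k)) :=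
            mul_le_mul e3 (a6 pv) (abs_nonneg _) zero_le_one
        _ = _ := one_mul _
    rw [abs_le] at e7 e8 ⊢
    constructor <;> linarith [e7.1, e7.2, e8.1, e8.2]

end Pool.TC12
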