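import Pool.Agent.H12.TT.Tilt

/-!
# No full direction in a block which is not full

`chain`: a variable `L` of few bits is almost independent of most blocks, given the records.
`end_one`: if the block `A` is not full given the record, all the blocks `pr (f R) A` are full, for
functions `f` of the record and on all large events, and `L` is almost independent of the block, then
the fibre of `A` over `pr L A` is not full given a context which determines the record and `L`.
-/

set_option autoImplicit false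

namespace Pool.TT

open Finset Real
open Pool.Agent.H49.Ent Pool.Agent.H32.Dense Pool.STK

variable {Ω : Type} [Fintype Ω] {ρ lam υ γ β α κ : Type} {p : Ω → ℝ}

/-- Mutual information is symmetric. -/
theorem mi_symm (hp : ∀ ω, 0 ≤ p ω) (X : Ω → α) (L : Ω → lam) (R : Ω → ρ) :
    CH p X R - CH p X (fun ω => (R ω, L ω)) = CH p L R - CH p L (fun ω => (X ω, R ω)) := by
  have h1 := CH_chain hp X L R
  have h2 := CH_chain hp L X R
  have h3 : CH p (fun ω => (X ω, L ω)) R = CH p (fun ω => (L ω, X ω)) R :=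
    CH_congr hp (fun ω ω' _ _ h => by
      simp only [Prod.mk.injEq] at h ⊢
      exact ⟨h.1.2, h.1.1⟩) (fun ω ω' _ _ h => by
      simp only [Prod.mk.injEq] at h ⊢
      exact ⟨h.1.2, h.1.1⟩) (fun _ _ _ _ h => h) fun _ _ _ _ h => h
  have h4 : CH p X (fun ω => (L ω, R ω)) = CH p X (fun ω => (R ω, L ω)) :=
    CH_congr hp (fun ω ω' _ _ h => by
      simp only [Prod.mk.injEq] at h
      exact h.1) (fun ω ω' _ _ h => by
      simp only [Prod.mk.injEq] at h
      exact h.1) (fun ω ω' _ _ h => by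
      simp only [Prod.mk.injEq] at h ⊢
      exact ⟨h.2, h.1⟩) fun ω ω' _ _ h => by
      simp only [Prod.mk.injEq] at h ⊢
      exact ⟨h.2, h.1⟩
  linarith

/-- **The chain rule**: `L` has few bits, and every record determines the block before it, up to
`e` bits. -/
theorem chain (hp : IsLaw p) (R : ℕ → Ω → ρ) (Y : ℕ → Ω → υ) (L : Ω → lam) {HL e : ℝ} {m : ℕ}
    (h0 : CH p L (R 0) ≤ HL)
    (h1 : ∀ j < m, CH p (fun ω => (Y j ω, R j ω)) (R (j + 1)) ≤ e) :
    ∑ j ∈ Finset.range m, (CH p (Y j) (R j) - CH p (Y j) (fun ω => (R j ω, L ω))) ≤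
      HL + m * e := by
  have hp0 := hp.nonneg
  have key : ∀ k ≤ m, ∑ j ∈ Finset.range k, (CH p (Y j) (R j) -
      CH p (Y j) (fun ω => (R j ω, L ω))) ≤ HL - CH p L (R k) + k * e := by
    intro k
    induction k with
    | zero =>
      intro _
      simp only [Finset.range_zero, Finset.sum_empty, Nat.cast_zero, zero_mul, add_zero]
      linarith
    | succ k ih =>
      intro hk
      rw [Finset.sum_range_succ]
      have h2 := ih (by omega)
      have h3 := mi_symm hp0 (Y k) L (R k)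
      have h4 := CH_le_add hp0 L (fun ω => (Y k ω, R k ω)) (R (k + 1))
      have h5 := h1 k (by omega)
      have h6 : CH p L (fun ω => ((Y k ω, R k ω), R (k + 1) ω)) ≤
          CH p L (fun ω => (Y k ω, R k ω)) :=
        CH_mono_cond hp0 fun ω ω' _ _ h => (Prod.ext_iff.mp h).1
      push_cast
      linarith
  have h2 := key m le_rfl
  have h3 := CH_nonneg hp0 L (R m)
  linarith

/-- Most blocks are almost independent of `L`. -/
theorem chain_card (hp : IsLaw p) (R : ℕ → Ω → ρ) (Y : ℕ → Ω → υ) (L : Ω → lam) {HL e ι : ℝ}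
    {m : ℕ} (h0 : CH p L (R 0) ≤ HL)
    (h1 : ∀ j < m, CH p (fun ω => (Y j ω, R j ω)) (R (j + 1)) ≤ e) (hι : 0 < ι) :
    open Classical in ((((Finset.range m).filter fun j => ι < CH p (Y j) (R j) -
      CH p (Y j) (fun ω => (R j ω, L ω))).card : ℕ) : ℝ) ≤ (HL + m * e) / ι := by
  classical
  rw [le_div_iff₀ hι]
  refine le_trans ?_ (chain hp R Y L h0 h1)
  have h2 : (((Finset.range m).filter fun j => ι < CH p (Y j) (R j) -
      CH p (Y j) (fun ω => (R j ω, L ω))).card : ℝ) * ι ≤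
      ∑ j ∈ (Finset.range m).filter (fun j => ι < CH p (Y j) (R j) -
        CH p (Y j) (fun ω => (R j ω, L ω))), (CH p (Y j) (R j) -
        CH p (Y j) (fun ω => (R j ω, L ω))) := by
    rw [← nsmul_eq_mul]
    exact Finset.card_nsmul_le_sum _ _ _ fun j hj => (Finset.mem_filter.1 hj).2.le
  refine h2.trans (Finset.sum_le_sum_of_subset_of_nonneg (Finset.filter_subset _ _)
    fun j _ _ => ?_)
  have := CH_mono_cond hp.nonneg (X := Y j) (W' := fun ω => (R j ω, L ω)) (W := R j)
    fun ω ω' _ _ h => (Prod.ext_iff.mp h).1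
  linarith

/-- **The end**: `A` is the block, `pr l A` the block without the direction `l`, `R` the record,
`W` the other coordinates, `L` the direction, `C` the context. -/
theorem end_one (hp : IsLaw p) (R : Ω → ρ) (W : Ω → β) (A : Ω → α) (L : Ω → lam) (C : Ω → κ)
    (pr : lam → α → γ) {ι θ G s δ η₁ b b₁ e₂ : ℝ}
    (hI : CH p (fun ω => (A ω, W ω)) R - CH p (fun ω => (A ω, W ω)) (fun ω => (R ω, L ω)) ≤ ι)
    (hG : CH p (fun ω => pr (L ω) (A ω)) (fun ω => (W ω, (R ω, L ω))) ≤ G)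
    (hθ : 0 < θ) (hs : 0 < s) (hδ : 0 < δ) (hη : 0 ≤ η₁) (hb : 0 ≤ b)
    (H : ∀ f : ρ → lam, ∀ B : Ω → Prop, Real.exp (-(s + δ)) * η₁ ≤ Pool.K2S.Pe p B →
      0 < Pool.K2S.Pe p B → b ≤ CH (Pool.Agent.H49.Ent.cond p B True)
        (fun ω => pr (f (R ω)) (A ω)) (fun ω => (W ω, R ω)))
    (hb₁ : CH p A (fun ω => (W ω, R ω)) ≤ b₁)
    (he₂ : CH p (fun ω => (W ω, (R ω, L ω))) C ≤ e₂) :
    CH p A (fun ω => (pr (L ω) (A ω), C ω)) ≤
      b₁ - (1 - (ι + G / θ + 2) / s - (2 * s / δ + 2) * η₁) * (Real.exp (-δ) * b) + θ * ι +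
        e₂ := by
  have hp0 := hp.nonneg
  have h1 := tilt hp R W A L pr hI hG hθ hs hδ hη hb H
  have h2 := CH_le_add hp0 A (fun ω => (W ω, (R ω, L ω))) (fun ω => (pr (L ω) (A ω), C ω))
  have h3 : CH p (fun ω => (W ω, (R ω, L ω))) (fun ω => (pr (L ω) (A ω), C ω)) ≤
      CH p (fun ω => (W ω, (R ω, L ω))) C :=
    CH_mono_cond hp0 fun ω ω' _ _ h => (Prod.ext_iff.mp h).2
  have h4 : CH p A (fun ω => ((W ω, (R ω, L ω)), (pr (L ω) (A ω), C ω))) ≤
      CH p A (fun ω => (pr (L ω) (A ω), (W ω, (R ω, L ω)))) :=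
    CH_mono_cond hp0 fun ω ω' _ _ h => by
      simp only [Prod.mk.injEq] at h ⊢
      exact ⟨h.2.1, h.1⟩
  have h5 := CH_chain hp0 A (fun ω => pr (L ω) (A ω)) (fun ω => (W ω, (R ω, L ω)))
  have h6 : CH p (fun ω => (A ω, pr (L ω) (A ω))) (fun ω => (W ω, (R ω, L ω))) ≤
      CH p A (fun ω => (W ω, (R ω, L ω))) :=
    CH_mono_left hp0 fun ω ω' _ _ h => by
      simp only [Prod.mk.injEq] at h ⊢
      exact ⟨h.1, by rw [h.1, h.2.2.2]⟩
  have h7 : CH p A (fun ω => (W ω, (R ω, L ω))) ≤ CH p A (fun ω => (W ω, R ω)) :=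
    CH_mono_cond hp0 fun ω ω' _ _ h => by
      simp only [Prod.mk.injEq] at h ⊢
      exact ⟨h.1, h.2.1⟩
  linarith

end Pool.TT
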