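import Pool.Agent.H72.KJ.Ent5
import Pool.Agent.H59.OC.Avg
import Pool.Agent.H13.KAL.NC1

/-!
# Tilted laws

`tilt_lev`: a conditional entropy which is large on all large events is large for a law with the
density `k`, if the relative entropy of this law is small.
-/

set_option autoImplicit false

namespace Pool.TT

open Finset Real
open Pool.Agent.H49.Ent Pool.Agent.H32.Dense Pool.STK
open Pool.KAL.NC1 (Pe Pe_mono Pe_nonneg Pe_or_le Pe_add_not law_eq_Pe Pe_eq_law Pe_le_sum)

variable {Ω : Type} [Fintype Ω] {S T U V : Type} {p : Ω → ℝ}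

/-- The entropy depends on the law only. -/
theorem H_law {Ω' : Type} [Fintype Ω'] {q : Ω' → ℝ} {X : Ω → S} {X' : Ω' → S}
    (h : ∀ s, law p X s = law q X' s) : H p X = H q X' := by
  classical
  rw [H_eq_sum_of_subset p X (F := univ.image X ∪ univ.image X') Finset.subset_union_left,
    H_eq_sum_of_subset q X' (F := univ.image X ∪ univ.image X') Finset.subset_union_right]
  exact Finset.sum_congr rfl fun s _ => by rw [h]

/-- The law of a function. -/
theorem law_fun {Ω' : Type} [Fintype Ω'] {q : Ω' → ℝ} {X : Ω → S} {X' : Ω' → S}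
    (h : ∀ s, law p X s = law q X' s) (f : S → T) (t : T) :
    law p (fun ω => f (X ω)) t = law q (fun ω => f (X' ω)) t := by
  classical
  have key : ∀ {Ω₀ : Type} [Fintype Ω₀] (q₀ : Ω₀ → ℝ) (Y : Ω₀ → S),
      univ.image Y ⊆ univ.image X ∪ univ.image X' →
      law q₀ (fun ω => f (Y ω)) t = ∑ s ∈ univ.image X ∪ univ.image X',
        law q₀ Y s * (if f s = t then 1 else 0) := by
    intro Ω₀ _ q₀ Y hY
    have e1 : law q₀ (fun ω => f (Y ω)) t = ∑ ω, q₀ ω * (if f (Y ω) = t then 1 else 0) := by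
      unfold law
      exact Finset.sum_congr rfl fun ω _ => by split_ifs <;> simp
    rw [e1, sum_mul_eq_sum_image q₀ Y fun s => if f s = t then (1 : ℝ) else 0]
    refine Finset.sum_subset hY fun s _ hs => ?_
    rw [law_eq_zero_of_notMem q₀ Y hs, zero_mul]
  rw [key p X Finset.subset_union_left, key q X' Finset.subset_union_right]
  exact Finset.sum_congr rfl fun s _ => by rw [h]

/-- The conditional entropy depends on the law only. -/
theorem CH_law {Ω' : Type} [Fintype Ω'] {q : Ω' → ℝ} {Y : Ω → S} {Y' : Ω' → S}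
    (h : ∀ s, law p Y s = law q Y' s) (f : S → T) (g : S → U) :
    CH p (fun ω => f (Y ω)) (fun ω => g (Y ω)) =
      CH q (fun ω => f (Y' ω)) (fun ω => g (Y' ω)) := by
  unfold CH
  rw [H_law (law_fun h fun s => (f s, g s)), H_law (law_fun h g)]

/-- The probability of a set of values. -/
theorem sum_law_Pe (X : Ω → S) (F : Finset S) :
    ∑ s ∈ F, law p X s = Pe p (fun ω => X ω ∈ F) := by
  classical
  unfold law Pe
  rw [Finset.sum_comm]
  refine Finset.sum_congr rfl fun ω _ => ?_
  rw [Finset.sum_ite_eq]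
  by_cases h : X ω ∈ F
  · rw [if_pos h, if_pos h]
  · rw [if_neg h, if_neg h]

/-- **Tilted laws**: a conditional entropy which is large on all large events is large for a law
with a density of small relative entropy. -/
theorem tilt_lev (hp : IsLaw p) {k : Ω → ℝ} (hk : ∀ ω, 0 ≤ k ω)
    (hr : IsLaw fun ω => p ω * k ω) {D₁ s δ η₁ b : ℝ}
    (hD : Ex (fun ω => p ω * k ω) (fun ω => Real.log (k ω)) ≤ D₁) (hs : 0 < s) (hδ : 0 < δ)
    (hη : 0 ≤ η₁) (hb : 0 ≤ b) (X : Ω → S) (Z : Ω → T)
    (H : ∀ B : Ω → Prop, Real.exp (-(s + δ)) * η₁ ≤ Pool.K2S.Pe p B → 0 < Pool.K2S.Pe p B →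
      b ≤ CH (cond p B True) X Z) :
    (1 - (D₁ + 2) / s - (2 * s / δ + 2) * η₁) * (Real.exp (-δ) * b) ≤
      CH (fun ω => p ω * k ω) X Z := by
  classical
  obtain ⟨r, hrd⟩ : ∃ r : Ω → ℝ, r = fun ω => p ω * k ω := ⟨_, rfl⟩
  rw [← hrd] at hr hD ⊢
  have hp0 := hp.nonneg
  have hr0 := hr.nonneg
  obtain ⟨l, hl⟩ : ∃ l : Ω → Option ℤ, l = fun ω => if 0 < k ω then
    some ⌊Real.log (k ω) / δ⌋ else none := ⟨_, rfl⟩
  have hrk : ∀ ω, 0 < r ω → 0 < p ω ∧ 0 < k ω := by
    intro ω hω
    rw [hrd] at hω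
    have h1 : 0 < p ω * k ω := hω
    rcases (hk ω).eq_or_lt with h0 | h0
    · rw [← h0, mul_zero] at h1
      exact absurd h1 (lt_irrefl _)
    · exact ⟨pos_of_mul_pos_left h1 h0.le, h0⟩
  obtain ⟨I, hI⟩ : ∃ I : Finset ℤ, I = Finset.Icc ⌊-s / δ⌋ ⌊s / δ⌋ := ⟨_, rfl⟩
  obtain ⟨Gd, hGd⟩ : ∃ Gd : Finset (Option ℤ), Gd = (univ.image l).filter fun j =>
    η₁ < law r l j ∧ ∃ i ∈ I, j = some i := ⟨_, rfl⟩
  -- the mass of the good levels
  have hlog : Ex r (fun ω => |Real.log (k ω)|) ≤ D₁ + 2 := by
    have h1 : Ex r (fun ω => |Real.log (k ω)|) ≤ Ex r (fun ω => Real.log (k ω)) + 2 * 1 := by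
      rw [← hp.sum_one]
      unfold Ex
      rw [Finset.mul_sum, ← Finset.sum_add_distrib]
      refine Finset.sum_le_sum fun ω _ => ?_
      rcases (hk ω).eq_or_lt with h0 | h0
      · rw [hrd]
        show p ω * k ω * |Real.log (k ω)| ≤ p ω * k ω * Real.log (k ω) + 2 * p ω
        rw [← h0]
        have := hp0 ω
        simp only [mul_zero, zero_mul, zero_add]
        linarith
      · rw [hrd]
        show p ω * k ω * |Real.log (k ω)| ≤ p ω * k ω * Real.log (k ω) + 2 * p ω
        rcases le_total 0 (Real.log (k ω)) with h2 | h2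
        · rw [abs_of_nonneg h2]
          linarith [hp0 ω]
        · rw [abs_of_nonpos h2]
          have h3 := Real.log_le_sub_one_of_pos (x := (k ω)⁻¹) (by positivity)
          rw [Real.log_inv] at h3
          have h4 : k ω * -Real.log (k ω) ≤ 1 := by
            calc k ω * -Real.log (k ω) ≤ k ω * ((k ω)⁻¹ - 1) :=
                  mul_le_mul_of_nonneg_left h3 h0.le
              _ = 1 - k ω := by field_simp
              _ ≤ 1 := by linarith
          have h5 := mul_le_mul_of_nonneg_left h4 (hp0 ω)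
          nlinarith
    linarith
  have hbad : Pe r (fun ω => l ω ∉ Gd) ≤ (D₁ + 2) / s + (2 * s / δ + 2) * η₁ := by
    have h1 : Pe r (fun ω => l ω ∉ Gd) ≤ Pe r (fun ω => s < |Real.log (k ω)| ∨
        ∃ i ∈ I, l ω = some i ∧ law r l (some i) ≤ η₁) := by
      refine Pe_mono hr0 fun ω hω h2 => ?_
      have hk' := (hrk ω hω).2
      have e1 : l ω = some ⌊Real.log (k ω) / δ⌋ := by
        rw [hl]
        show (if 0 < k ω then some ⌊Real.log (k ω) / δ⌋ else none) = _
        rw [if_pos hk']
      by_cases h3 : s < |Real.log (k ω)|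
      · exact Or.inl h3
      push Not at h3
      right
      have h4 := abs_le.1 h3
      have h5 : ⌊Real.log (k ω) / δ⌋ ∈ I := by
        rw [hI, Finset.mem_Icc]
        exact ⟨Int.floor_le_floor (div_le_div_of_nonneg_right h4.1 hδ.le),
          Int.floor_le_floor (div_le_div_of_nonneg_right h4.2 hδ.le)⟩
      refine ⟨_, h5, e1, ?_⟩
      by_contra h6
      push Not at h6
      refine h2 ?_
      rw [hGd, Finset.mem_filter]
      refine ⟨Finset.mem_image_of_mem l (Finset.mem_univ ω), ?_, _, h5, e1⟩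
      rw [e1]
      exact h6
    have h2 := Pe_or_le hr0 (fun ω => s < |Real.log (k ω)|)
      (fun ω => ∃ i ∈ I, l ω = some i ∧ law r l (some i) ≤ η₁)
    have h3 : Pe r (fun ω => s < |Real.log (k ω)|) ≤ (D₁ + 2) / s := by
      rw [Pe_eq_law]
      exact (Pool.K2S.Uni.Pe_markov hr _ (fun ω _ => abs_nonneg _) hs).trans
        (div_le_div_of_nonneg_right hlog hs.le)
    have h4 : Pe r (fun ω => ∃ i ∈ I, l ω = some i ∧ law r l (some i) ≤ η₁) ≤
        (2 * s / δ + 2) * η₁ := by
      refine (Pe_le_sum hr0 I _ (fun i ω => l ω = some i ∧ law r l (some i) ≤ η₁)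
        fun ω _ h => h).trans ?_
      have h5 : ∀ i ∈ I, Pe r (fun ω => l ω = some i ∧ law r l (some i) ≤ η₁) ≤ η₁ := by
        intro i _
        by_cases h6 : law r l (some i) ≤ η₁
        · refine (Pe_mono hr0 (B := fun ω => l ω = some i) fun ω _ h => h.1).trans ?_
          rw [← law_eq_Pe]
          exact h6
        · have h7 : Pe r (fun ω => l ω = some i ∧ law r l (some i) ≤ η₁) = 0 := by
            unfold Pe
            exact Finset.sum_eq_zero fun ω _ => if_neg fun h => h6 h.2
          rw [h7]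
          exact hη
      refine (Finset.sum_le_sum h5).trans ?_
      rw [Finset.sum_const, nsmul_eq_mul]
      refine mul_le_mul_of_nonneg_right ?_ hη
      have hsd : 0 < s / δ := div_pos hs hδ
      have h8 : ⌊-s / δ⌋ ≤ ⌊s / δ⌋ := by
        refine Int.floor_le_floor ?_
        rw [neg_div]
        linarith
      have h9 : ((I.card : ℕ) : ℤ) = ⌊s / δ⌋ + 1 - ⌊-s / δ⌋ := by
        rw [hI, Int.card_Icc]
        exact Int.toNat_of_nonneg (by linarith)
      have h10 : (I.card : ℝ) = ⌊s / δ⌋ + 1 - ⌊-s / δ⌋ := by exact_mod_cast h9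
      rw [h10]
      have h11 := Int.floor_le (s / δ)
      have h12 := Int.lt_floor_add_one (-s / δ)
      have h13 : 2 * s / δ = s / δ - -s / δ := by ring
      rw [h13]
      linarith
    linarith
  have hsum : 1 - (D₁ + 2) / s - (2 * s / δ + 2) * η₁ ≤ ∑ j ∈ Gd, law r l j := by
    rw [sum_law_Pe]
    have := Pe_add_not hr fun ω => l ω ∈ Gd
    linarith
  -- the good levels
  have hlev : ∀ j ∈ Gd, Real.exp (-δ) * b ≤ CH (cond r l j) X Z := by
    intro j hj
    rw [hGd, Finset.mem_filter] at hj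
    obtain ⟨hj1, hj2, i, hi, rfl⟩ := hj
    rw [hI, Finset.mem_Icc] at hi
    have hRj : 0 < law r l (some i) := hη.trans_lt hj2
    have lev : ∀ ω, l ω = some i → 0 < k ω ∧ Real.exp (i * δ) ≤ k ω ∧
        k ω ≤ Real.exp ((i + 1) * δ) := by
      intro ω hω
      rw [hl] at hω
      have h0 : (if 0 < k ω then some ⌊Real.log (k ω) / δ⌋ else none) = some i := hω
      by_cases hk' : 0 < k ω
      · rw [if_pos hk'] at h0
        have h1 : ⌊Real.log (k ω) / δ⌋ = i := Option.some.inj h0
        have h2 := Int.floor_le (Real.log (k ω) / δ)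
        have h3 := Int.lt_floor_add_one (Real.log (k ω) / δ)
        rw [h1] at h2 h3
        rw [le_div_iff₀ hδ] at h2
        rw [div_lt_iff₀ hδ] at h3
        exact ⟨hk', (Real.le_log_iff_exp_le hk').1 h2, ((Real.log_le_iff_le_exp hk').1 h3.le)⟩
      · rw [if_neg hk'] at h0
        exact absurd h0 (by simp)
    have hRP : law r l (some i) ≤ Real.exp ((i + 1) * δ) * law p l (some i) := by
      unfold law
      rw [Finset.mul_sum]
      refine Finset.sum_le_sum fun ω _ => ?_
      by_cases h1 : l ω = some i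
      · rw [if_pos h1, if_pos h1, hrd]
        show p ω * k ω ≤ _
        rw [mul_comm]
        exact mul_le_mul_of_nonneg_right (lev ω h1).2.2 (hp0 ω)
      · rw [if_neg h1, if_neg h1, mul_zero]
    have hPj : 0 < law p l (some i) := by
      by_contra h1
      push Not at h1
      have := mul_nonpos_of_nonneg_of_nonpos (Real.exp_pos ((i + 1) * δ)).le h1
      linarith
    have hev : cond p (fun ω => l ω = some i) True = cond p l (some i) := by
      funext ω
      unfold Pool.Agent.H49.Ent.cond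
      rw [← Pe_eq_law, ← law_eq_Pe]
      by_cases h1 : l ω = some i
      · rw [if_pos h1, if_pos (by simp [h1])]
      · rw [if_neg h1, if_neg (by simp [h1])]
    have hbP : b ≤ CH (cond p l (some i)) X Z := by
      rw [← hev]
      have e2 : Pool.K2S.Pe p (fun ω => l ω = some i) = law p l (some i) := by
        rw [law_eq_Pe, Pe_eq_law]
      refine H _ ?_ (by rw [e2]; exact hPj)
      rw [e2]
      have h1 : ((i : ℝ) + 1) * δ ≤ s + δ := by
        have h2 : (i : ℝ) ≤ s / δ := (Int.le_floor.1 hi.2)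
        rw [le_div_iff₀ hδ] at h2
        linarith
      have h3 := mul_le_mul_of_nonneg_right (Real.exp_le_exp.2 h1) hPj.le
      rw [Real.exp_neg, inv_mul_le_iff₀ (Real.exp_pos _)]
      linarith
    have lp : IsLaw (cond p l (some i)) := ⟨cond_nonneg hp0 l _, sum_cond p l hPj.ne'⟩
    have lr : IsLaw (cond r l (some i)) := ⟨cond_nonneg hr0 l _, sum_cond r l hRj.ne'⟩
    have hd := Pool.KJ.CH_dens lr lp (M := Real.exp δ) (fun ω => by
      unfold Pool.Agent.H49.Ent.cond
      by_cases h1 : l ω = some i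
      · rw [if_pos h1, if_pos h1]
        have h2 := lev ω h1
        have h3 : law r l (some i) ≤ Real.exp δ * k ω * law p l (some i) := by
          refine hRP.trans (mul_le_mul_of_nonneg_right ?_ hPj.le)
          have h4 : Real.exp (((i : ℝ) + 1) * δ) = Real.exp δ * Real.exp (i * δ) := by
            rw [← Real.exp_add]
            congr 1
            ring
          rw [h4]
          exact mul_le_mul_of_nonneg_left h2.2.1 (Real.exp_pos _).le
        rw [hrd]
        show p ω / law p l (some i) ≤ Real.exp δ * (p ω * k ω / law (fun ω => p ω * k ω) l (some i))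
        rw [← hrd, ← mul_div_assoc, div_le_div_iff₀ hPj hRj]
        have h5 := mul_le_mul_of_nonneg_left h3 (hp0 ω)
        linarith
      · rw [if_neg h1, if_neg h1, mul_zero]) X Z
    rw [Real.exp_neg, inv_mul_le_iff₀ (Real.exp_pos _)]
    exact hbP.trans hd
  have h1 : CH r X (fun ω => (Z ω, l ω)) ≤ CH r X Z :=
    CH_mono_cond hr0 fun ω ω' _ _ h => (Prod.ext_iff.mp h).1
  rw [CH_split hr0] at h1
  have h2 : ∑ j ∈ Gd, law r l j * (Real.exp (-δ) * b) ≤
      ∑ j ∈ univ.image l, law r l j * CH (cond r l j) X Z := by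
    refine (Finset.sum_le_sum fun j hj => mul_le_mul_of_nonneg_left (hlev j hj)
      (law_nonneg hr0 l j)).trans (Finset.sum_le_sum_of_subset_of_nonneg ?_ fun j _ _ =>
        mul_nonneg (law_nonneg hr0 l j) (CH_nonneg (cond_nonneg hr0 l j) _ _))
    rw [hGd]
    exact Finset.filter_subset _ _
  rw [← Finset.sum_mul] at h2
  have h3 := mul_le_mul_of_nonneg_right hsum (mul_nonneg (Real.exp_pos (-δ)).le hb)
  linarith

end Pool.TT
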