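import Pool.Agent.H12.TT.Lev

/-!
# A direction with few bits about the block

`pick`: averaging over the values of a variable. `tilt`: let the direction `L` and the block `Y` be
almost independent given the record `R`. If for every function `f` of the record the variable
`X (f R)` is full given `(W, R)` on all large events, then `X L` is full given `(W, R, L)`.
-/

set_option autoImplicit false

namespace Pool.TT

open Finset Real
open Pool.Agent.H49.Ent Pool.Agent.H32.Dense Pool.STK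
open Pool.KAL.NC1 (Pe Pe_mono Pe_nonneg Pe_or_le Pe_add_not law_eq_Pe Pe_eq_law Pe_le_sum)

variable {Ω : Type} [Fintype Ω] {ρ lam υ γ β : Type} {p : Ω → ℝ}

/-- The law of a pair as an average. -/
theorem law_snd_sum [DecidableEq ρ] [DecidableEq lam] (p : Ω → ℝ) (R : Ω → ρ) (L : Ω → lam)
    (r : ρ) : ∑ l ∈ univ.image L, law p (fun ω => (R ω, L ω)) (r, l) = law p R r := by
  classical
  unfold law
  rw [Finset.sum_comm]
  refine Finset.sum_congr rfl fun ω _ => ?_
  by_cases h : R ω = r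
  · rw [if_pos h]
    rw [Finset.sum_eq_single (L ω)]
    · rw [if_pos (show (R ω, L ω) = (r, L ω) by rw [h])]
    · intro l _ hl
      rw [if_neg fun e => hl (Prod.ext_iff.mp e).2.symm]
    · intro h1
      exact absurd (Finset.mem_image_of_mem L (Finset.mem_univ ω)) h1
  · rw [if_neg h]
    exact Finset.sum_eq_zero fun l _ => if_neg fun e => h (Prod.ext_iff.mp e).1

/-- **Averaging**: a choice `f` of the value of `L` given `R` with a cost at most the mean. -/
theorem pick (hp : IsLaw p) (R : Ω → ρ) (L : Ω → lam) (u : ρ → lam → ℝ) : ∃ f : ρ → lam,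
    (∀ ω, 0 < p ω → 0 < law p (fun ω => (R ω, L ω)) (R ω, f (R ω))) ∧
      Ex p (fun ω => u (R ω) (f (R ω))) ≤ Ex p (fun ω => u (R ω) (L ω)) := by
  classical
  have hp0 := hp.nonneg
  have hne : Nonempty lam := by
    by_contra h1
    rw [not_nonempty_iff] at h1
    have h2 : ∑ ω, p ω = 0 := Finset.sum_eq_zero fun ω _ => (h1.false (L ω)).elim
    rw [hp.sum_one] at h2
    norm_num at h2
  have hmin : ∀ r : ρ, ∃ l : lam, (∃ ω, 0 < p ω ∧ R ω = r) →
      0 < law p (fun ω => (R ω, L ω)) (r, l) ∧ ∀ l' ∈ univ.image L,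
        0 < law p (fun ω => (R ω, L ω)) (r, l') → u r l ≤ u r l' := by
    intro r
    by_cases hr : ∃ ω, 0 < p ω ∧ R ω = r
    · obtain ⟨ω, h1, h2⟩ := hr
      have h3 : ((univ.image L).filter fun l => 0 < law p (fun ω => (R ω, L ω)) (r, l)).Nonempty :=
        ⟨L ω, Finset.mem_filter.2 ⟨Finset.mem_image_of_mem L (Finset.mem_univ ω), by
          rw [← h2]
          exact law_pos hp0 (fun ω => (R ω, L ω)) h1⟩⟩
      obtain ⟨l, hl1, hl2⟩ := Finset.exists_min_image _ (u r) h3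
      exact ⟨l, fun _ => ⟨(Finset.mem_filter.1 hl1).2, fun l' h4 h5 =>
        hl2 l' (Finset.mem_filter.2 ⟨h4, h5⟩)⟩⟩
    · exact ⟨hne.some, fun h => absurd h hr⟩
  choose f hf using hmin
  refine ⟨f, fun ω hω => (hf (R ω) ⟨ω, hω, rfl⟩).1, ?_⟩
  have e1 : Ex p (fun ω => u (R ω) (f (R ω))) =
      ∑ r ∈ univ.image R, law p R r * u r (f r) :=
    sum_mul_eq_sum_image p R fun r => u r (f r)
  have e2 : Ex p (fun ω => u (R ω) (L ω)) = ∑ z ∈ univ.image (fun ω => (R ω, L ω)),
      law p (fun ω => (R ω, L ω)) z * u z.1 z.2 :=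
    sum_mul_eq_sum_image p (fun ω => (R ω, L ω)) fun z => u z.1 z.2
  have e3 : ∑ z ∈ univ.image (fun ω => (R ω, L ω)),
      law p (fun ω => (R ω, L ω)) z * u z.1 z.2 = ∑ z ∈ univ.image R ×ˢ univ.image L,
      law p (fun ω => (R ω, L ω)) z * u z.1 z.2 := by
    refine Finset.sum_subset ?_ fun z _ hz => ?_
    · intro z hz
      obtain ⟨ω, _, rfl⟩ := Finset.mem_image.1 hz
      exact Finset.mem_product.2 ⟨Finset.mem_image_of_mem R (Finset.mem_univ ω),
        Finset.mem_image_of_mem L (Finset.mem_univ ω)⟩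
    · rw [law_eq_zero_of_notMem p _ hz, zero_mul]
  rw [e1, e2, e3, Finset.sum_product]
  refine Finset.sum_le_sum fun r hr => ?_
  rw [← law_snd_sum p R L r, Finset.sum_mul]
  refine Finset.sum_le_sum fun l hl => ?_
  rcases (law_nonneg hp0 (fun ω => (R ω, L ω)) (r, l)).eq_or_lt with h0 | h0
  · rw [← h0, zero_mul]
    exact le_of_eq (zero_mul _).symm
  · have h1 : ∃ ω, 0 < p ω ∧ R ω = r := by
      by_contra hcon
      push Not at hcon
      have : law p (fun ω => (R ω, L ω)) (r, l) = 0 := by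
        unfold law
        refine Finset.sum_eq_zero fun ω _ => ?_
        split_ifs with h2
        · exact le_antisymm (not_lt.mp fun h' => hcon ω h' (Prod.ext_iff.mp h2).1) (hp0 ω)
        · rfl
      rw [this] at h0
      exact lt_irrefl _ h0
    exact mul_le_mul_of_nonneg_left ((hf r h1).2 l hl h0) h0.le

/-- The relative density of `Y` given `(R, L = l)` and given `R`. -/
noncomputable def kd (p : Ω → ℝ) (R : Ω → ρ) (L : Ω → lam) (Y : Ω → υ) (l : lam) (ω : Ω) : ℝ :=
  law p (fun ω => (Y ω, (R ω, L ω))) (Y ω, (R ω, l)) * law p R (R ω) /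
    (law p (fun ω => (R ω, L ω)) (R ω, l) * law p (fun ω => (Y ω, R ω)) (Y ω, R ω))

theorem kd_nonneg (hp : IsLaw p) (R : Ω → ρ) (L : Ω → lam) (Y : Ω → υ) (l : lam) (ω : Ω) :
    0 ≤ kd p R L Y l ω :=
  div_nonneg (mul_nonneg (law_nonneg hp.nonneg _ _) (law_nonneg hp.nonneg _ _))
    (mul_nonneg (law_nonneg hp.nonneg _ _) (law_nonneg hp.nonneg _ _))

/-- The mean logarithm of the density is the mutual information. -/
theorem kd_mean (hp : IsLaw p) (R : Ω → ρ) (L : Ω → lam) (Y : Ω → υ) :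
    Ex p (fun ω => Real.log (kd p R L Y (L ω) ω)) =
      CH p Y R - CH p Y (fun ω => (R ω, L ω)) := by
  classical
  have hp0 := hp.nonneg
  rw [CH_eq_neg_sum hp0, CH_eq_neg_sum hp0, ← Ex_sub]
  unfold Ex
  refine Finset.sum_congr rfl fun ω _ => ?_
  rcases (hp0 ω).eq_or_lt with h0 | h0
  · rw [← h0, zero_mul, zero_mul]
  · congr 1
    unfold kd
    have a1 := law_pos hp0 (fun ω => (Y ω, (R ω, L ω))) h0
    have a2 := law_pos hp0 R h0
    have a3 := law_pos hp0 (fun ω => (R ω, L ω)) h0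
    have a4 := law_pos hp0 (fun ω => (Y ω, R ω)) h0
    show Real.log (law p (fun ω => (Y ω, (R ω, L ω))) (Y ω, (R ω, L ω)) * law p R (R ω) /
      (law p (fun ω => (R ω, L ω)) (R ω, L ω) * law p (fun ω => (Y ω, R ω)) (Y ω, R ω))) =
      -Real.log (law p (fun ω => (Y ω, R ω)) (Y ω, R ω) / law p R (R ω)) -
      -Real.log (law p (fun ω => (Y ω, (R ω, L ω))) (Y ω, (R ω, L ω)) /
        law p (fun ω => (R ω, L ω)) (R ω, L ω))
    rw [Real.log_div (mul_pos a1 a2).ne' (mul_pos a3 a4).ne', Real.log_mul a1.ne' a2.ne',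
      Real.log_mul a3.ne' a4.ne', Real.log_div a4.ne' a2.ne', Real.log_div a1.ne' a3.ne']
    ring

/-- Sum over the values of `Y`. -/
theorem sum_kd (hp : IsLaw p) (R : Ω → ρ) (L : Ω → lam) (Y : Ω → υ) {f : ρ → lam} {r : ρ}
    (hr : 0 < law p R r) (hl : 0 < law p (fun ω => (R ω, L ω)) (r, f r)) (y : υ) :
    law (fun ω => p ω * kd p R L Y (f (R ω)) ω) (fun ω => (Y ω, R ω)) (y, r) =
      law p R r * (law p (fun ω => (Y ω, (R ω, L ω))) (y, (r, f r)) /
        law p (fun ω => (R ω, L ω)) (r, f r)) := by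
  classical
  have hp0 := hp.nonneg
  obtain ⟨c, hc⟩ : ∃ c, c = law p (fun ω => (Y ω, (R ω, L ω))) (y, (r, f r)) * law p R r /
    (law p (fun ω => (R ω, L ω)) (r, f r) * law p (fun ω => (Y ω, R ω)) (y, r)) := ⟨_, rfl⟩
  have e1 : law (fun ω => p ω * kd p R L Y (f (R ω)) ω) (fun ω => (Y ω, R ω)) (y, r) =
      law p (fun ω => (Y ω, R ω)) (y, r) * c := by
    unfold law
    rw [Finset.sum_mul]
    refine Finset.sum_congr rfl fun ω _ => ?_
    by_cases h : (Y ω, R ω) = (y, r)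
    · rw [if_pos h, if_pos h, hc]
      obtain ⟨h1, h2⟩ := Prod.ext_iff.mp h
      simp only at h1 h2
      show p ω * kd p R L Y (f (R ω)) ω = _
      unfold kd
      rw [h1, h2]
    · rw [if_neg h, if_neg h, zero_mul]
  rw [e1, hc]
  rcases (law_nonneg hp0 (fun ω => (Y ω, R ω)) (y, r)).eq_or_lt with h0 | h0
  · have h1 : law p (fun ω => (Y ω, (R ω, L ω))) (y, (r, f r)) = 0 := by
      refine le_antisymm ?_ (law_nonneg hp0 _ _)
      rw [h0]
      unfold law
      refine Finset.sum_le_sum fun ω _ => ?_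
      by_cases h : (Y ω, (R ω, L ω)) = (y, (r, f r))
      · rw [if_pos h, if_pos]
        simp only [Prod.mk.injEq] at h ⊢
        exact ⟨h.1, h.2.1⟩
      · rw [if_neg h]
        split_ifs
        exacts [hp0 ω, le_rfl]
    rw [h1, ← h0]
    simp
  · field_simp

/-- Two records: the law given `R` under the tilted law is the law given `(R, L)`. -/
theorem tilt_law (hp : IsLaw p) (R : Ω → ρ) (L : Ω → lam) (Y : Ω → υ) {f : ρ → lam}
    (hf : ∀ ω, 0 < p ω → 0 < law p (fun ω => (R ω, L ω)) (R ω, f (R ω))) :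
    IsLaw (fun ω => p ω * kd p R L Y (f (R ω)) ω) ∧
      ∀ r, law (fun ω => p ω * kd p R L Y (f (R ω)) ω) R r = law p R r := by
  classical
  have hp0 := hp.nonneg
  have key : ∀ r, law (fun ω => p ω * kd p R L Y (f (R ω)) ω) R r = law p R r := by
    intro r
    rcases (law_nonneg hp0 R r).eq_or_lt with h0 | h0
    · rw [← h0]
      refine le_antisymm ?_ (law_nonneg (fun ω => mul_nonneg (hp0 ω) (kd_nonneg hp R L Y _ ω)) R r)
      refine Finset.sum_nonpos fun ω _ => ?_
      by_cases h : R ω = r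
      · rw [if_pos h]
        have h1 : p ω = 0 := by
          refine le_antisymm ?_ (hp0 ω)
          rw [h0, ← h]
          exact le_law hp0 R ω
        show p ω * kd p R L Y (f (R ω)) ω ≤ 0
        rw [h1, zero_mul]
      · rw [if_neg h]
    · obtain ⟨ω₀, h1, h2⟩ : ∃ ω, 0 < p ω ∧ R ω = r := by
        by_contra hcon
        push Not at hcon
        have : law p R r = 0 := by
          unfold law
          refine Finset.sum_eq_zero fun ω _ => ?_
          split_ifs with h2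
          · exact le_antisymm (not_lt.mp fun h' => hcon ω h' h2) (hp0 ω)
          · rfl
        rw [this] at h0
        exact lt_irrefl _ h0
      have hl : 0 < law p (fun ω => (R ω, L ω)) (r, f r) := by
        rw [← h2]
        exact hf ω₀ h1
      have e1 : law (fun ω => p ω * kd p R L Y (f (R ω)) ω) R r = ∑ y ∈ univ.image Y,
          law (fun ω => p ω * kd p R L Y (f (R ω)) ω) (fun ω => (Y ω, R ω)) (y, r) := by
        rw [← law_snd_sum _ R Y r]
        refine Finset.sum_congr rfl fun y _ => ?_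
        unfold law
        refine Finset.sum_congr rfl fun ω _ => ?_
        by_cases h : (R ω, Y ω) = (r, y)
        · rw [if_pos h, if_pos]
          simp only [Prod.mk.injEq] at h ⊢
          exact ⟨h.2, h.1⟩
        · rw [if_neg h, if_neg]
          simp only [Prod.mk.injEq] at h ⊢
          exact fun h' => h ⟨h'.2, h'.1⟩
      rw [e1, Finset.sum_congr rfl fun y _ => sum_kd hp R L Y h0 hl y, ← Finset.mul_sum,
        ← Finset.sum_div]
      have e2 : ∑ y ∈ univ.image Y, law p (fun ω => (Y ω, (R ω, L ω))) (y, (r, f r)) =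
          law p (fun ω => (R ω, L ω)) (r, f r) := by
        rw [← law_snd_sum p (fun ω => (R ω, L ω)) Y (r, f r)]
        refine Finset.sum_congr rfl fun y _ => ?_
        unfold law
        refine Finset.sum_congr rfl fun ω _ => ?_
        by_cases h : ((R ω, L ω), Y ω) = ((r, f r), y)
        · rw [if_pos h, if_pos]
          simp only [Prod.mk.injEq] at h ⊢
          exact ⟨h.2, h.1⟩
        · rw [if_neg h, if_neg]
          simp only [Prod.mk.injEq] at h ⊢
          exact fun h' => h ⟨h'.2, h'.1⟩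
      rw [e2, div_self hl.ne', mul_one]
  refine ⟨⟨fun ω => mul_nonneg (hp0 ω) (kd_nonneg hp R L Y _ ω), ?_⟩, key⟩
  rw [← sum_law _ R, Finset.sum_congr rfl fun r _ => key r, sum_law, hp.sum_one]

/-- The mean depends on the law only. -/
theorem Ex_law {Ω' : Type} [Fintype Ω'] {q : Ω' → ℝ} {Y : Ω → υ} {Y' : Ω' → υ}
    (h : ∀ s, law p Y s = law q Y' s) (g : υ → ℝ) :
    Ex p (fun ω => g (Y ω)) = Ex q (fun ω => g (Y' ω)) := by
  classical
  have e1 : Ex p (fun ω => g (Y ω)) = ∑ s ∈ univ.image Y ∪ univ.image Y', law p Y s * g s := by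
    unfold Ex
    rw [sum_mul_eq_sum_image p Y g]
    refine Finset.sum_subset Finset.subset_union_left fun s _ hs => ?_
    rw [law_eq_zero_of_notMem p Y hs, zero_mul]
  have e2 : Ex q (fun ω => g (Y' ω)) = ∑ s ∈ univ.image Y ∪ univ.image Y', law q Y' s * g s := by
    unfold Ex
    rw [sum_mul_eq_sum_image q Y' g]
    refine Finset.sum_subset Finset.subset_union_right fun s _ hs => ?_
    rw [law_eq_zero_of_notMem q Y' hs, zero_mul]
  rw [e1, e2]
  exact Finset.sum_congr rfl fun s _ => by rw [h]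

/-- A point of positive mass with a given value. -/
theorem exists_of_law (hp : IsLaw p) {X : Ω → ρ} {r : ρ} (h : 0 < law p X r) :
    ∃ ω, 0 < p ω ∧ X ω = r := by
  by_contra hcon
  push Not at hcon
  have : law p X r = 0 := by
    unfold law
    refine Finset.sum_eq_zero fun ω _ => ?_
    split_ifs with h2
    · exact le_antisymm (not_lt.mp fun h' => hcon ω h' h2) (hp.nonneg ω)
    · rfl
  rw [this] at h
  exact lt_irrefl _ h

/-- The conditional law of `Y` given `R` under the tilted law. -/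
theorem tilt_cond (hp : IsLaw p) (R : Ω → ρ) (L : Ω → lam) (Y : Ω → υ) {f : ρ → lam}
    (hf : ∀ ω, 0 < p ω → 0 < law p (fun ω => (R ω, L ω)) (R ω, f (R ω))) {r : ρ}
    (hr : 0 < law p R r) (y : υ) :
    law (Pool.Agent.H49.Ent.cond (fun ω => p ω * kd p R L Y (f (R ω)) ω) R r) Y y =
      law (Pool.Agent.H49.Ent.cond p (fun ω => (R ω, L ω)) (r, f r)) Y y := by
  obtain ⟨ω₀, h1, h2⟩ := exists_of_law hp hr
  have hl : 0 < law p (fun ω => (R ω, L ω)) (r, f r) := by
    rw [← h2]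
    exact hf ω₀ h1
  rw [law_cond, law_cond, sum_kd hp R L Y hr hl y, (tilt_law hp R L Y hf).2 r]
  field_simp

/-- Mean over a record. -/
theorem Ex_rec (hp : IsLaw p) (R : Ω → ρ) (g : Ω → ℝ) (u : ρ → ℝ)
    (h : ∀ r, 0 < law p R r → Ex (Pool.Agent.H49.Ent.cond p R r) g = u r) :
    Ex p g = Ex p fun ω => u (R ω) := by
  classical
  rw [Ex_split hp.nonneg g R]
  have e1 : Ex p (fun ω => u (R ω)) = ∑ r ∈ univ.image R, law p R r * u r :=
    sum_mul_eq_sum_image p R u
  rw [e1]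
  refine Finset.sum_congr rfl fun r _ => ?_
  rcases (law_nonneg hp.nonneg R r).eq_or_lt with h0 | h0
  · rw [← h0, zero_mul, zero_mul]
  · rw [h r h0]

/-- Conditional entropy over a record. -/
theorem CH_rec {X : Ω → γ} {W : Ω → β} (hp : IsLaw p) (R : Ω → ρ) (u : ρ → ℝ)
    (h : ∀ r, 0 < law p R r → CH (Pool.Agent.H49.Ent.cond p R r) X W = u r) :
    CH p X (fun ω => (W ω, R ω)) = Ex p fun ω => u (R ω) := by
  classical
  rw [CH_split hp.nonneg]
  have e1 : Ex p (fun ω => u (R ω)) = ∑ r ∈ univ.image R, law p R r * u r :=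
    sum_mul_eq_sum_image p R u
  rw [e1]
  refine Finset.sum_congr rfl fun r _ => ?_
  rcases (law_nonneg hp.nonneg R r).eq_or_lt with h0 | h0
  · rw [← h0, zero_mul, zero_mul]
  · rw [h r h0]

/-- Conditional entropies of variables which agree on the support. -/
theorem CH_supp_congr {X X' : Ω → γ} (hp : ∀ ω, 0 ≤ p ω) (W : Ω → β)
    (h : ∀ ω, 0 < p ω → X ω = X' ω) : CH p X W = CH p X' W :=
  CH_congr hp (fun ω ω' a b e => by
      rw [← h ω a, ← h ω' b]
      exact (Prod.ext_iff.mp e).1) (fun ω ω' a b e => by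
      rw [h ω a, h ω' b]
      exact (Prod.ext_iff.mp e).1) (fun _ _ _ _ e => e) fun _ _ _ _ e => e

theorem Ex_supp_congr {g g' : Ω → ℝ} (hp : ∀ ω, 0 ≤ p ω)
    (h : ∀ ω, 0 < p ω → g ω = g' ω) : Ex p g = Ex p g' := by
  unfold Ex
  refine Finset.sum_congr rfl fun ω _ => ?_
  rcases (hp ω).eq_or_lt with h0 | h0
  · rw [← h0, zero_mul, zero_mul]
  · rw [h ω h0]

/-- **A direction `L` with few bits about the block `(A, W)`**, given the record `R`: if for every
function `f` of the record the variable `pr (f R) A` is full given `(W, R)` on all large events,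
then `pr L A` is full given `(W, R, L)`. -/
theorem tilt {α : Type} (hp : IsLaw p) (R : Ω → ρ) (W : Ω → β) (A : Ω → α) (L : Ω → lam)
    (pr : lam → α → γ) {ι θ G s δ η₁ b : ℝ}
    (hI : CH p (fun ω => (A ω, W ω)) R - CH p (fun ω => (A ω, W ω)) (fun ω => (R ω, L ω)) ≤ ι)
    (hG : CH p (fun ω => pr (L ω) (A ω)) (fun ω => (W ω, (R ω, L ω))) ≤ G)
    (hθ : 0 < θ) (hs : 0 < s) (hδ : 0 < δ) (hη : 0 ≤ η₁) (hb : 0 ≤ b)
    (H : ∀ f : ρ → lam, ∀ B : Ω → Prop, Real.exp (-(s + δ)) * η₁ ≤ Pool.K2S.Pe p B →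
      0 < Pool.K2S.Pe p B → b ≤ CH (Pool.Agent.H49.Ent.cond p B True)
        (fun ω => pr (f (R ω)) (A ω)) (fun ω => (W ω, R ω))) :
    (1 - (ι + G / θ + 2) / s - (2 * s / δ + 2) * η₁) * (Real.exp (-δ) * b) ≤
      CH p (fun ω => pr (L ω) (A ω)) (fun ω => (W ω, (R ω, L ω))) + θ * ι := by
  classical
  have hp0 := hp.nonneg
  obtain ⟨Y, hY⟩ : ∃ Y : Ω → α × β, Y = fun ω => (A ω, W ω) := ⟨_, rfl⟩
  obtain ⟨u, hu⟩ : ∃ u : ρ → lam → ℝ, u = fun r l =>
    CH (Pool.Agent.H49.Ent.cond p (fun ω => (R ω, L ω)) (r, l)) (fun ω => pr l (A ω)) W := ⟨_, rfl⟩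
  obtain ⟨Dv, hDv⟩ : ∃ Dv : ρ → lam → ℝ, Dv = fun r l =>
    Ex (Pool.Agent.H49.Ent.cond p (fun ω => (R ω, L ω)) (r, l))
      (fun ω => Real.log (kd p R L Y l ω)) := ⟨_, rfl⟩
  obtain ⟨f, hf, hcost⟩ := pick hp R L fun r l => u r l + θ * Dv r l
  rw [Ex_add, Ex_add, Ex_smul, Ex_smul] at hcost
  -- the means over `L`
  have m1 : CH p (fun ω => pr (L ω) (A ω)) (fun ω => (W ω, (R ω, L ω))) =
      Ex p (fun ω => u (R ω) (L ω)) := by
    refine CH_rec hp (fun ω => (R ω, L ω)) (fun z => u z.1 z.2) fun z hz => ?_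
    rw [hu]
    refine CH_supp_congr (cond_nonneg hp0 _ _) W fun ω hω => ?_
    have := ((cond_pos_iff hp0 _ _ ω).1 hω).2
    rw [← this]
  have m2 : Ex p (fun ω => Dv (R ω) (L ω)) ≤ ι := by
    have e1 := kd_mean hp R L Y
    have e2 : Ex p (fun ω => Real.log (kd p R L Y (L ω) ω)) =
        Ex p (fun ω => Dv (R ω) (L ω)) := by
      refine Ex_rec hp (fun ω => (R ω, L ω)) _ (fun z => Dv z.1 z.2) fun z hz => ?_
      rw [hDv]
      refine Ex_supp_congr (cond_nonneg hp0 _ _) fun ω hω => ?_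
      have := ((cond_pos_iff hp0 _ _ ω).1 hω).2
      rw [← this]
    rw [← e2, e1, hY]
    exact hI
  -- the tilted law
  obtain ⟨hr, hrR⟩ := tilt_law hp R L Y hf
  obtain ⟨r, hrd⟩ : ∃ r : Ω → ℝ, r = fun ω => p ω * kd p R L Y (f (R ω)) ω := ⟨_, rfl⟩
  have hcl : ∀ r₀, 0 < law p R r₀ → ∀ y, law (Pool.Agent.H49.Ent.cond r R r₀) Y y =
      law (Pool.Agent.H49.Ent.cond p (fun ω => (R ω, L ω)) (r₀, f r₀)) Y y := by
    intro r₀ h0 y
    rw [hrd]
    exact tilt_cond hp R L Y hf h0 y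
  rw [← hrd] at hr hrR
  have eR : ∀ g : ρ → ℝ, Ex r (fun ω => g (R ω)) = Ex p (fun ω => g (R ω)) := fun g =>
    Ex_law (fun r₀ => hrR r₀) g
  have m3 : CH r (fun ω => pr (f (R ω)) (A ω)) (fun ω => (W ω, R ω)) =
      Ex p (fun ω => u (R ω) (f (R ω))) := by
    rw [← eR fun r₀ => u r₀ (f r₀)]
    refine CH_rec hr R (fun r₀ => u r₀ (f r₀)) fun r₀ h0 => ?_
    rw [hrR] at h0
    rw [hu]
    have e1 : CH (Pool.Agent.H49.Ent.cond r R r₀) (fun ω => pr (f (R ω)) (A ω)) W =
        CH (Pool.Agent.H49.Ent.cond r R r₀) (fun ω => pr (f r₀) (A ω)) W :=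
      CH_supp_congr (cond_nonneg hr.nonneg _ _) W fun ω hω => by
        rw [((cond_pos_iff hr.nonneg _ _ ω).1 hω).2]
    rw [e1]
    have e2 := CH_law (hcl r₀ h0) (fun y => pr (f r₀) y.1) fun y => y.2
    rw [hY] at e2
    exact e2
  have m4 : Ex r (fun ω => Real.log (kd p R L Y (f (R ω)) ω)) =
      Ex p (fun ω => Dv (R ω) (f (R ω))) := by
    rw [← eR fun r₀ => Dv r₀ (f r₀)]
    refine Ex_rec hr R _ (fun r₀ => Dv r₀ (f r₀)) fun r₀ h0 => ?_
    rw [hrR] at h0
    rw [hDv]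
    obtain ⟨G', hG'⟩ : ∃ G' : α × β → ℝ, G' = fun y =>
      Real.log (law p (fun ω => (Y ω, (R ω, L ω))) (y, (r₀, f r₀)) * law p R r₀ /
        (law p (fun ω => (R ω, L ω)) (r₀, f r₀) * law p (fun ω => (Y ω, R ω)) (y, r₀))) :=
      ⟨_, rfl⟩
    have e1 : Ex (Pool.Agent.H49.Ent.cond r R r₀)
        (fun ω => Real.log (kd p R L Y (f (R ω)) ω)) =
        Ex (Pool.Agent.H49.Ent.cond r R r₀) fun ω => G' (Y ω) :=
      Ex_supp_congr (cond_nonneg hr.nonneg _ _) fun ω hω => by
        rw [hG']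
        show Real.log (kd p R L Y (f (R ω)) ω) = _
        unfold kd
        rw [((cond_pos_iff hr.nonneg _ _ ω).1 hω).2]
    have e2 : Ex (Pool.Agent.H49.Ent.cond p (fun ω => (R ω, L ω)) (r₀, f r₀))
        (fun ω => Real.log (kd p R L Y (f r₀) ω)) =
        Ex (Pool.Agent.H49.Ent.cond p (fun ω => (R ω, L ω)) (r₀, f r₀)) fun ω => G' (Y ω) :=
      Ex_supp_congr (cond_nonneg hp0 _ _) fun ω hω => by
        have e3 := ((cond_pos_iff hp0 _ _ ω).1 hω).2
        have e4 : R ω = r₀ := (Prod.ext_iff.mp e3).1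
        rw [hG']
        show Real.log (kd p R L Y (f r₀) ω) = _
        unfold kd
        rw [e4]
    rw [e1, Ex_law (hcl r₀ h0) G', ← e2]
  have m5 : 0 ≤ Ex r (fun ω => Real.log (kd p R L Y (f (R ω)) ω)) := by
    have h1 : ∑ ω, (r ω - p ω) ≤ Ex r (fun ω => Real.log (kd p R L Y (f (R ω)) ω)) := by
      unfold Ex
      refine Finset.sum_le_sum fun ω _ => ?_
      rw [hrd]
      show p ω * kd p R L Y (f (R ω)) ω - p ω ≤
        p ω * kd p R L Y (f (R ω)) ω * Real.log (kd p R L Y (f (R ω)) ω)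
      obtain ⟨k, hk⟩ : ∃ k, k = kd p R L Y (f (R ω)) ω := ⟨_, rfl⟩
      rw [← hk]
      have hk0 : 0 ≤ k := hk ▸ kd_nonneg hp R L Y _ ω
      have h2 : k - 1 ≤ k * Real.log k := by
        rcases hk0.eq_or_lt with h0 | h0
        · rw [← h0]
          simp
        · have h3 := Real.log_le_sub_one_of_pos (x := k⁻¹) (by positivity)
          rw [Real.log_inv] at h3
          have h4 := mul_le_mul_of_nonneg_left h3 h0.le
          have h5 : k * (k⁻¹ - 1) = 1 - k := by field_simp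
          nlinarith
      have := mul_le_mul_of_nonneg_left h2 (hp0 ω)
      linarith
    rw [Finset.sum_sub_distrib, hr.sum_one, hp.sum_one, sub_self] at h1
    exact h1
  have hu0 : 0 ≤ Ex p (fun ω => u (R ω) (f (R ω))) :=
    Ex_nonneg hp0 fun ω _ => by
      rw [hu]
      exact CH_nonneg (cond_nonneg hp0 _ _) _ _
  have hD1 : Ex r (fun ω => Real.log (kd p R L Y (f (R ω)) ω)) ≤ ι + G / θ := by
    rw [m4]
    have h1 : θ * Ex p (fun ω => Dv (R ω) (f (R ω))) ≤ G + θ * ι := by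
      have := mul_le_mul_of_nonneg_left m2 hθ.le
      rw [m1] at hG
      linarith
    rw [mul_comm, ← le_div_iff₀ hθ] at h1
    refine h1.trans (le_of_eq ?_)
    field_simp
    ring
  have hfin := tilt_lev hp (k := fun ω => kd p R L Y (f (R ω)) ω)
    (fun ω => kd_nonneg hp R L Y _ ω) (by rw [← hrd]; exact hr) (D₁ := ι + G / θ) (s := s)
    (δ := δ) (η₁ := η₁) (b := b) (by rw [← hrd]; exact hD1) hs hδ hη hb
    (fun ω => pr (f (R ω)) (A ω)) (fun ω => (W ω, R ω)) fun B h1 h2 => H f B h1 h2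
  rw [← hrd, m3] at hfin
  rw [m4] at m5
  have h1 := mul_nonneg hθ.le m5
  have h2 := mul_le_mul_of_nonneg_left m2 hθ.le
  rw [m1]
  linarith

end Pool.TT
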